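import Mathlib

/-!
# The group `SL(2, ℤ/65)` and the two edge stabilisers

The graph on 336 vertices used for the edge Folkman number has `SL(2, ℤ/65)` acting on it. Functions
on its edges are treated as pairs of functions on the group: `f` is invariant on the right under
`T` and `w` (the first edge orbit), `f'` under `sg` and `U` (the second one).
-/

namespace Pool.Agent.Folk330

/-- The ring. -/
abbrev RR := ZMod 65

/-- Elements of the group `SL(2, ℤ/65)`, as quadruples. -/
@[ext]
structure G2 where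
  a : RR
  b : RR
  c : RR
  d : RR
  h : a * d - b * c = 1
deriving DecidableEq

namespace G2

instance : One G2 := ⟨⟨1, 0, 0, 1, by ring⟩⟩

instance : Mul G2 := ⟨fun x y => ⟨x.a * y.a + x.b * y.c, x.a * y.b + x.b * y.d,
  x.c * y.a + x.d * y.c, x.c * y.b + x.d * y.d, by
    linear_combination y.h + (y.a * y.d - y.b * y.c) * x.h⟩⟩

instance : Inv G2 := ⟨fun x => ⟨x.d, -x.b, -x.c, x.a, by linear_combination x.h⟩⟩

@[simp] theorem one_a : (1 : G2).a = 1 := rfl
@[simp] theorem one_b : (1 : G2).b = 0 := rfl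
@[simp] theorem one_c : (1 : G2).c = 0 := rfl
@[simp] theorem one_d : (1 : G2).d = 1 := rfl
@[simp] theorem mul_a (x y : G2) : (x * y).a = x.a * y.a + x.b * y.c := rfl
@[simp] theorem mul_b (x y : G2) : (x * y).b = x.a * y.b + x.b * y.d := rfl
@[simp] theorem mul_c (x y : G2) : (x * y).c = x.c * y.a + x.d * y.c := rfl
@[simp] theorem mul_d (x y : G2) : (x * y).d = x.c * y.b + x.d * y.d := rfl
@[simp] theorem inv_a (x : G2) : (x⁻¹).a = x.d := rfl
@[simp] theorem inv_b (x : G2) : (x⁻¹).b = -x.b := rfl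
@[simp] theorem inv_c (x : G2) : (x⁻¹).c = -x.c := rfl
@[simp] theorem inv_d (x : G2) : (x⁻¹).d = x.a := rfl

instance : Group G2 := Group.ofLeftAxioms
  (by intro x y z; ext <;> simp <;> ring)
  (by intro x; ext <;> simp)
  (by
    intro x
    ext
    · simp; linear_combination x.h
    · simp; ring
    · simp; ring
    · simp; linear_combination x.h)

/-- The map to the four entries is injective. -/
theorem toQuad_injective :
    Function.Injective (fun x : G2 => ((x.a, x.b), (x.c, x.d))) := by
  intro x y h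
  simp only [Prod.mk.injEq] at h
  exact G2.ext h.1.1 h.1.2 h.2.1 h.2.2

noncomputable instance : Fintype G2 := Fintype.ofInjective _ toQuad_injective

/-- Upper unipotent element. -/
def un (s : RR) : G2 := ⟨1, s, 0, 1, by ring⟩
/-- Lower unipotent element. -/
def lo (s : RR) : G2 := ⟨1, 0, s, 1, by ring⟩
/-- The generator of the diagonal part of the first edge stabiliser. -/
def T : G2 := ⟨28, 0, 0, 7, by decide⟩
/-- The Weyl element. -/
def w : G2 := ⟨0, 1, -1, 0, by ring⟩
/-- The swap in the second edge stabiliser. -/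
def sg : G2 := ⟨15, 13, 13, 20, by decide⟩
/-- The unipotent generator of the second edge stabiliser. -/
def U : G2 := un 40
/-- The second neighbour of the second kind. -/
def xm : G2 := ⟨1, 26, 39, 40, by decide⟩
/-- The remaining neighbour inside the second orbit. -/
def km : G2 := ⟨14, 26, 39, 40, by decide⟩

@[simp] theorem un_a (s : RR) : (un s).a = 1 := rfl
@[simp] theorem un_b (s : RR) : (un s).b = s := rfl
@[simp] theorem un_c (s : RR) : (un s).c = 0 := rfl
@[simp] theorem un_d (s : RR) : (un s).d = 1 := rfl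
@[simp] theorem lo_a (s : RR) : (lo s).a = 1 := rfl
@[simp] theorem lo_b (s : RR) : (lo s).b = 0 := rfl
@[simp] theorem lo_c (s : RR) : (lo s).c = s := rfl
@[simp] theorem lo_d (s : RR) : (lo s).d = 1 := rfl
@[simp] theorem T_a : T.a = 28 := rfl
@[simp] theorem T_b : T.b = 0 := rfl
@[simp] theorem T_c : T.c = 0 := rfl
@[simp] theorem T_d : T.d = 7 := rfl
@[simp] theorem w_a : w.a = 0 := rfl
@[simp] theorem w_b : w.b = 1 := rfl
@[simp] theorem w_c : w.c = -1 := rfl
@[simp] theorem w_d : w.d = 0 := rfl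
@[simp] theorem sg_a : sg.a = 15 := rfl
@[simp] theorem sg_b : sg.b = 13 := rfl
@[simp] theorem sg_c : sg.c = 13 := rfl
@[simp] theorem sg_d : sg.d = 20 := rfl
@[simp] theorem xm_a : xm.a = 1 := rfl
@[simp] theorem xm_b : xm.b = 26 := rfl
@[simp] theorem xm_c : xm.c = 39 := rfl
@[simp] theorem xm_d : xm.d = 40 := rfl
@[simp] theorem km_a : km.a = 14 := rfl
@[simp] theorem km_b : km.b = 26 := rfl
@[simp] theorem km_c : km.c = 39 := rfl
@[simp] theorem km_d : km.d = 40 := rfl

theorem T_pow (n : ℕ) : (T ^ n).a = 28 ^ n ∧ (T ^ n).b = 0 ∧ (T ^ n).c = 0 ∧ (T ^ n).d = 7 ^ n := by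
  induction n with
  | zero => simp
  | succ n ih =>
    obtain ⟨h1, h2, h3, h4⟩ := ih
    simp only [pow_succ, mul_a, mul_b, mul_c, mul_d, h1, h2, h3, h4, T_a, T_b, T_c, T_d]
    refine ⟨by ring, by ring, by ring, by ring⟩

theorem un_add (s t : RR) : un (s + t) = un s * un t := by
  ext <;> simp [add_comm]

theorem un_zero : un 0 = 1 := rfl

end G2

open G2

/-- The subgroup `H` of order 12 of the units, generated by 28. -/
def Hs : Finset RR := {1, 28, 4, 47, 16, 58, 64, 37, 61, 18, 49, 7}

theorem Hs_eq : Hs = (Finset.range 12).image (fun k => (28 : RR) ^ k) := by decide +kernel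

theorem card_Hs : Hs.card = 12 := by decide +kernel

/-- The thirteen elements congruent to `-1` modulo 5. -/
def Ts : Finset RR := {4, 9, 14, 19, 24, 29, 34, 39, 44, 49, 54, 59, 64}

theorem card_Ts : Ts.card = 13 := by decide +kernel

/-- The weight of an element of `H`: 17 for squares and 18 for non-squares. -/
def om (h : RR) : ℕ := if h ^ 6 = 1 then 17 else 18

/-- Right invariance under `T` and `w`. -/
def Inv1 {X : Type*} (f : G2 → X) : Prop := (∀ g, f (g * T) = f g) ∧ ∀ g, f (g * w) = f g

/-- Right invariance under `sg` and `U`. -/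
def Inv2 {X : Type*} (f : G2 → X) : Prop := (∀ g, f (g * sg) = f g) ∧ ∀ g, f (g * U) = f g

/-- The half operator at a vertex, first orbit. -/
def Ap {R : Type*} [CommSemiring R] (f f' : G2 → R) (g : G2) : R :=
  ∑ h ∈ Hs, (om h : R) * f (g * un h) + 7 * (f (g * un 26) + f (g * un 39)) +
    7 * (f' (g * un 26) + f' (g * xm))

/-- The operator, first component. -/
def A1 {R : Type*} [CommSemiring R] (f f' : G2 → R) (g : G2) : R :=
  3 * (238 * f g + (Ap f f' g + Ap f f' (g * w)))

/-- The half operator at a vertex, second orbit. -/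
def Bp {R : Type*} [CommSemiring R] (f f' : G2 → R) (g : G2) : R :=
  6 * (f' (g * un 26) + f' (g * xm) + f' (g * un 39)) + 2 * f' (g * km) +
    7 * ∑ t ∈ Ts, f (g * un t)

/-- The operator, second component. -/
def A2 {R : Type*} [CommSemiring R] (f f' : G2 → R) (g : G2) : R :=
  4 * (111 * f' g + (Bp f f' g + Bp f f' (g * sg)))

/-- Membership in the first edge stabiliser. -/
def kk1 (g : G2) : Prop := (g.b = 0 ∧ g.c = 0 ∧ g.a ∈ Hs) ∨ (g.a = 0 ∧ g.d = 0 ∧ g.b ∈ Hs)

/-- Membership in the second edge stabiliser. -/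
def kk2 (g : G2) : Prop := 5 * g.c = 0 ∧
  ((13 * g.b = 0 ∧ 13 * g.c = 0 ∧ 13 * g.a = 13 * g.d ∧ g.a ∈ Hs) ∨
   (13 * g.a = 0 ∧ 13 * g.d = 0 ∧ 13 * g.b = 13 * g.c ∧ 26 * g.b + 40 * g.a ∈ Hs))

instance : DecidablePred kk1 := fun g => by unfold kk1; infer_instance
instance : DecidablePred kk2 := fun g => by unfold kk2; infer_instance

/-- Left invariance under the elements satisfying a predicate. -/
def LInv {X : Type*} (K : G2 → Prop) (f : G2 → X) : Prop := ∀ k, K k → ∀ g, f (k * g) = f g

/-- The iterates of the operator on the indicator of the first stabiliser. -/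
def y1 : ℕ → (G2 → ℕ) × (G2 → ℕ)
  | 0 => (fun g => if kk1 g then 1 else 0, fun _ => 0)
  | n + 1 => (A1 (y1 n).1 (y1 n).2, A2 (y1 n).1 (y1 n).2)

/-- The iterates of the operator on the indicator of the second stabiliser. -/
def y2 : ℕ → (G2 → ℕ) × (G2 → ℕ)
  | 0 => (fun _ => 0, fun g => if kk2 g then 1 else 0)
  | n + 1 => (A1 (y2 n).1 (y2 n).2, A2 (y2 n).1 (y2 n).2)

end Pool.Agent.Folk330
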