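import Pool.Agent.Folk330.Basic

/-!
# The order of the group (job FK-3)

An element is determined by its lower row `(c, d)`, which is one of 4032 pairs
(`(13 * c, 13 * d) ≠ 0` and `(5 * c, 5 * d) ≠ 0`; count them with `decide +kernel`), together with
the parameter `s` in `g = un s * g₀`, where `g₀` is a fixed element with the same lower row as `g`
(if `g` and `g₀` have the same lower row then `g * g₀⁻¹` is of the form `un s`).
`4032 * 65 = 262080`.
-/

noncomputable section

namespace Pool.Agent.Folk330

open G2

/-- The possible lower rows. -/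
def rows : Finset (RR × RR) :=
  Finset.univ.filter (fun p => ¬(13 * p.1 = 0 ∧ 13 * p.2 = 0) ∧ ¬(5 * p.1 = 0 ∧ 5 * p.2 = 0))

theorem card_rows : rows.card = 4032 := by decide +kernel

theorem row_mem (g : G2) : (g.c, g.d) ∈ rows := by
  simp only [rows, Finset.mem_filter, Finset.mem_univ, true_and]
  constructor
  · rintro ⟨h1, h2⟩
    have h := g.h
    have h3 : (13 : RR) = 0 := by linear_combination (-13) * h + g.a * h2 - g.b * h1
    exact absurd h3 (by decide)
  · rintro ⟨h1, h2⟩
    have h := g.h
    have h3 : (5 : RR) = 0 := by linear_combination (-5) * h + g.a * h2 - g.b * h1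
    exact absurd h3 (by decide)

attribute [irreducible] rows

open Classical in
/-- A fixed element with a given lower row. -/
def base (p : RR × RR) : G2 :=
  if h : ∃ g : G2, (g.c, g.d) = p then h.choose else 1

theorem base_spec (g : G2) : (base (g.c, g.d)).c = g.c ∧ (base (g.c, g.d)).d = g.d := by
  have h : ∃ g' : G2, (g'.c, g'.d) = (g.c, g.d) := ⟨g, rfl⟩
  have h2 : base (g.c, g.d) = h.choose := by
    unfold base
    rw [dif_pos h]
  have h3 := h.choose_spec
  rw [Prod.mk.injEq] at h3
  rw [h2]
  exact h3

theorem eq_un (g g₀ : G2) (hc : g₀.c = g.c) (hd : g₀.d = g.d) :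
    g = un ((g * g₀⁻¹).b) * g₀ := by
  have h0 := g₀.h
  have h := g.h
  have h1 : g * g₀⁻¹ = un ((g * g₀⁻¹).b) := by
    ext
    · simp only [mul_a, inv_a, inv_c, un_a]
      rw [hd, hc]
      linear_combination h
    · simp
    · simp only [mul_c, inv_a, inv_c, un_c]
      rw [hd, hc]
      ring
    · simp only [mul_d, inv_b, inv_d, un_d]
      rw [← hd, ← hc]
      linear_combination h0
  rw [← h1]
  group

/-- The injection. -/
def code (g : G2) : (RR × RR) × RR :=
  ((g.c, g.d), (g * (base (g.c, g.d))⁻¹).b)

theorem code_injective : Function.Injective code := by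
  intro g g' h
  have h1 : (g.c, g.d) = (g'.c, g'.d) := congrArg (fun z => z.1) h
  have h2 : (g * (base (g.c, g.d))⁻¹).b = (g' * (base (g'.c, g'.d))⁻¹).b :=
    congrArg (fun z => z.2) h
  have h3 := eq_un g (base (g.c, g.d)) (base_spec g).1 (base_spec g).2
  have h4 := eq_un g' (base (g'.c, g'.d)) (base_spec g').1 (base_spec g').2
  rw [h3, h4, h2, h1]

theorem card_G2 : Fintype.card G2 ≤ 262080 := by
  have h : (Finset.univ : Finset G2).card ≤ (rows ×ˢ (Finset.univ : Finset RR)).card := by
    refine Finset.card_le_card_of_injOn code ?_ (code_injective.injOn)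
    intro g _
    have h1 : (code g).1 = (g.c, g.d) := rfl
    have h2 := row_mem g
    rw [← h1] at h2
    rw [Finset.mem_coe, Finset.mem_product]
    exact And.intro h2 (Finset.mem_univ _)
  rw [Finset.card_product, card_rows, Finset.card_univ, Finset.card_univ, ZMod.card] at h
  exact h

end Pool.Agent.Folk330
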