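import Pool.Agent.Folk330.Comp

/-!
# The check of the table
-/

noncomputable section

namespace Pool.Agent.Folk330

/-- A neighbour: which component, and the group element. -/
structure NB where
  c : Bool
  m : MN

/-- Product of matrices. -/
def mmul (x y : MN) : MN :=
  ⟨Nat.add (Nat.mul x.a y.a) (Nat.mul x.b y.c), Nat.add (Nat.mul x.a y.b) (Nat.mul x.b y.d),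
   Nat.add (Nat.mul x.c y.a) (Nat.mul x.d y.c), Nat.add (Nat.mul x.c y.b) (Nat.mul x.d y.d)⟩

/-- Inverse, modulo 65. -/
def minv (x : MN) : MN := ⟨x.d, Nat.mul 64 x.b, Nat.mul 64 x.c, x.a⟩

/-- Divisibility by 65. -/
def zz (n : ℕ) : Bool := Nat.beq (Nat.mod n 65) 0

/-- Determinant one. -/
def detok (x : MN) : Bool :=
  zz (Nat.add 64 (Nat.add (Nat.mul x.a x.d) (Nat.mul 64 (Nat.mul x.b x.c))))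

/-- Membership in `H`. -/
def inH (n : ℕ) : Bool :=
  Nat.beq (Nat.mod (Nat.shiftRight 21041521284224450706 (Nat.mod n 65)) 2) 1

/-- Membership in the first stabiliser. -/
def ck1 (m : MN) : Bool :=
  or (and (zz m.b) (and (zz m.c) (inH m.a))) (and (zz m.a) (and (zz m.d) (inH m.b)))

/-- Membership in the second stabiliser. -/
def ck2 (m : MN) : Bool :=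
  and (zz (Nat.mul 5 m.c))
    (or (and (zz (Nat.mul 13 m.b)) (and (zz (Nat.mul 13 m.c))
        (and (zz (Nat.add (Nat.mul 13 m.a) (Nat.mul 52 m.d))) (inH m.a))))
      (and (zz (Nat.mul 13 m.a)) (and (zz (Nat.mul 13 m.d))
        (and (zz (Nat.add (Nat.mul 13 m.b) (Nat.mul 52 m.c)))
          (inH (Nat.add (Nat.mul 26 m.b) (Nat.mul 40 m.a)))))))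

/-- Check of an entry. -/
def ent (c : Bool) (x : MN) : Bool := Bool.rec (motive := fun _ => Bool) (ck2 x) (ck1 x) c

/-- Check of a range. -/
def rng (n1 off n2 : ℕ) (c : Bool) (i : ℕ) : Bool :=
  Bool.rec (motive := fun _ => Bool) (and (Nat.ble off i) (Nat.ble (Nat.succ i) n2))
    (Nat.ble (Nat.succ i) n1) c

/-- Lookup. -/
def lk {α : Type} (d : α) (K : List (List α)) (j : ℕ) : α :=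
  Nat.rec (motive := fun _ => α) (nthr d (Nat.mod j 16) (nthr [] 0 K))
    (fun n _ => nthr d (Nat.mod j 16) (nthr [] (Nat.succ n) K)) (Nat.div j 16)

/-- Default matrix. -/
def dM : MN := ⟨1, 0, 0, 1⟩
/-- Default witness. -/
def dW : Wit := ⟨⟨1, 0, 0, 1⟩, 0, 0, 0⟩
/-- Default row. -/
def dR : Row := ⟨0, [], [], []⟩

/-- Check of a list of neighbours. -/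
def chkl (W : List (List Wit)) (K : List (List MN)) (n1 off n2 : ℕ) (G : MN) (NL : List NB) :
    List ℕ → ℕ → Bool :=
  List.rec (motive := fun _ => List ℕ → ℕ → Bool)
    (fun is _ => List.rec (motive := fun _ => Bool) true (fun _ _ _ => false) is)
    (fun N _ ih is kk => List.rec (motive := fun _ => Bool) false
      (fun i is' _ => and (rng n1 off n2 N.c i)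
        (and (ent N.c (mmul (minv (mmul (lk dM K (Nat.mod kk 256)) (lk dW W i).m)) (mmul G N.m)))
          (ih is' (Nat.div kk 256)))) is) NL

/-- Check of a row. -/
def chkr (W : List (List Wit)) (K : List (List MN)) (n1 off n2 : ℕ) (NP NQ NR : List NB) (r : Row)
    (u : Wit) (i : ℕ) : Bool :=
  and (Nat.beq r.z i) (and (detok u.m) (and (chkl W K n1 off n2 u.m NP r.p u.kp)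
    (and (chkl W K n1 off n2 u.m NQ r.q u.kq) (chkl W K n1 off n2 u.m NR r.r u.kr))))

/-- Check of a range of indices. -/
def allr (lo n : ℕ) (p : ℕ → Bool) : Bool :=
  Nat.rec (motive := fun _ => Bool) true (fun k ih => and (p (Nat.add lo k)) ih) n

/-- Neighbours of weight 17. -/
def nP1 : List NB := [
  ⟨true, ⟨1, 1, 0, 1⟩⟩, ⟨true, ⟨1, 4, 0, 1⟩⟩, ⟨true, ⟨1, 16, 0, 1⟩⟩,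
  ⟨true, ⟨1, 64, 0, 1⟩⟩, ⟨true, ⟨1, 61, 0, 1⟩⟩, ⟨true, ⟨1, 49, 0, 1⟩⟩,
  ⟨true, ⟨0, 1, 64, 64⟩⟩, ⟨true, ⟨0, 1, 64, 61⟩⟩, ⟨true, ⟨0, 1, 64, 49⟩⟩,
  ⟨true, ⟨0, 1, 64, 1⟩⟩, ⟨true, ⟨0, 1, 64, 4⟩⟩, ⟨true, ⟨0, 1, 64, 16⟩⟩]

/-- Neighbours of weight 18. -/
def nQ1 : List NB := [
  ⟨true, ⟨1, 28, 0, 1⟩⟩, ⟨true, ⟨1, 47, 0, 1⟩⟩, ⟨true, ⟨1, 58, 0, 1⟩⟩,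
  ⟨true, ⟨1, 37, 0, 1⟩⟩, ⟨true, ⟨1, 18, 0, 1⟩⟩, ⟨true, ⟨1, 7, 0, 1⟩⟩,
  ⟨true, ⟨0, 1, 64, 37⟩⟩, ⟨true, ⟨0, 1, 64, 18⟩⟩, ⟨true, ⟨0, 1, 64, 7⟩⟩,
  ⟨true, ⟨0, 1, 64, 28⟩⟩, ⟨true, ⟨0, 1, 64, 47⟩⟩, ⟨true, ⟨0, 1, 64, 58⟩⟩]

/-- Neighbours of weight 7. -/
def nR1 : List NB := [
  ⟨true, ⟨1, 26, 0, 1⟩⟩, ⟨true, ⟨1, 39, 0, 1⟩⟩, ⟨true, ⟨0, 1, 64, 39⟩⟩,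
  ⟨true, ⟨0, 1, 64, 26⟩⟩, ⟨false, ⟨1, 26, 0, 1⟩⟩, ⟨false, ⟨1, 26, 39, 40⟩⟩,
  ⟨false, ⟨0, 1, 64, 39⟩⟩, ⟨false, ⟨39, 40, 64, 39⟩⟩]

/-- Neighbours of weight 6. -/
def nP2 : List NB := [
  ⟨false, ⟨1, 26, 0, 1⟩⟩, ⟨false, ⟨1, 26, 39, 40⟩⟩, ⟨false, ⟨1, 39, 0, 1⟩⟩,
  ⟨false, ⟨15, 13, 13, 33⟩⟩, ⟨false, ⟨2, 0, 13, 33⟩⟩, ⟨false, ⟨15, 13, 13, 7⟩⟩]

/-- Neighbours of weight 2. -/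
def nQ2 : List NB := [
  ⟨false, ⟨14, 26, 39, 40⟩⟩, ⟨false, ⟨2, 0, 52, 33⟩⟩]

/-- Neighbours of weight 7. -/
def nR2 : List NB := [
  ⟨true, ⟨1, 4, 0, 1⟩⟩, ⟨true, ⟨1, 9, 0, 1⟩⟩, ⟨true, ⟨1, 14, 0, 1⟩⟩,
  ⟨true, ⟨1, 19, 0, 1⟩⟩, ⟨true, ⟨1, 24, 0, 1⟩⟩, ⟨true, ⟨1, 29, 0, 1⟩⟩,
  ⟨true, ⟨1, 34, 0, 1⟩⟩, ⟨true, ⟨1, 39, 0, 1⟩⟩, ⟨true, ⟨1, 44, 0, 1⟩⟩,
  ⟨true, ⟨1, 49, 0, 1⟩⟩, ⟨true, ⟨1, 54, 0, 1⟩⟩, ⟨true, ⟨1, 59, 0, 1⟩⟩,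
  ⟨true, ⟨1, 64, 0, 1⟩⟩, ⟨true, ⟨15, 8, 13, 7⟩⟩, ⟨true, ⟨15, 18, 13, 7⟩⟩,
  ⟨true, ⟨15, 28, 13, 7⟩⟩, ⟨true, ⟨15, 38, 13, 7⟩⟩, ⟨true, ⟨15, 48, 13, 7⟩⟩,
  ⟨true, ⟨15, 58, 13, 7⟩⟩, ⟨true, ⟨15, 3, 13, 7⟩⟩, ⟨true, ⟨15, 13, 13, 7⟩⟩,
  ⟨true, ⟨15, 23, 13, 7⟩⟩, ⟨true, ⟨15, 33, 13, 7⟩⟩, ⟨true, ⟨15, 43, 13, 7⟩⟩,
  ⟨true, ⟨15, 53, 13, 7⟩⟩, ⟨true, ⟨15, 63, 13, 7⟩⟩]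

/-- The first stabiliser. -/
def kA : List (List MN) := [
  [⟨1, 0, 0, 1⟩, ⟨28, 0, 0, 7⟩, ⟨0, 1, 64, 0⟩, ⟨4, 0, 0, 49⟩,
   ⟨0, 28, 58, 0⟩, ⟨0, 7, 37, 0⟩, ⟨64, 0, 0, 64⟩, ⟨47, 0, 0, 18⟩,
   ⟨0, 4, 16, 0⟩, ⟨37, 0, 0, 58⟩, ⟨0, 49, 61, 0⟩, ⟨58, 0, 0, 37⟩,
   ⟨0, 64, 1, 0⟩, ⟨16, 0, 0, 61⟩, ⟨0, 47, 47, 0⟩, ⟨61, 0, 0, 16⟩],
  [⟨0, 37, 7, 0⟩, ⟨0, 18, 18, 0⟩, ⟨0, 58, 28, 0⟩, ⟨0, 16, 4, 0⟩,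
   ⟨18, 0, 0, 47⟩, ⟨0, 61, 49, 0⟩, ⟨7, 0, 0, 28⟩, ⟨49, 0, 0, 4⟩]]

/-- The second stabiliser. -/
def kB : List (List MN) := [
  [⟨1, 0, 0, 1⟩, ⟨15, 13, 13, 20⟩, ⟨1, 40, 0, 1⟩, ⟨4, 0, 0, 49⟩,
   ⟨15, 28, 13, 20⟩, ⟨15, 33, 13, 20⟩, ⟨1, 15, 0, 1⟩, ⟨60, 52, 52, 5⟩,
   ⟨4, 30, 0, 49⟩, ⟨4, 40, 0, 49⟩, ⟨15, 43, 13, 20⟩, ⟨4, 10, 0, 49⟩,
   ⟨15, 48, 13, 20⟩, ⟨15, 53, 13, 20⟩, ⟨1, 55, 0, 1⟩, ⟨16, 0, 0, 61⟩],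
  [⟨60, 47, 52, 5⟩, ⟨60, 2, 52, 5⟩, ⟨4, 60, 0, 49⟩, ⟨60, 7, 52, 5⟩,
   ⟨4, 5, 0, 49⟩, ⟨4, 15, 0, 49⟩, ⟨15, 58, 13, 20⟩, ⟨60, 57, 52, 5⟩,
   ⟨4, 50, 0, 49⟩, ⟨15, 63, 13, 20⟩, ⟨4, 20, 0, 49⟩, ⟨15, 3, 13, 20⟩,
   ⟨15, 8, 13, 20⟩, ⟨1, 30, 0, 1⟩, ⟨45, 13, 13, 50⟩, ⟨16, 55, 0, 61⟩],
  [⟨16, 30, 0, 61⟩, ⟨60, 42, 52, 5⟩, ⟨16, 40, 0, 61⟩, ⟨60, 62, 52, 5⟩,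
   ⟨60, 17, 52, 5⟩, ⟨4, 25, 0, 49⟩, ⟨16, 10, 0, 61⟩, ⟨60, 22, 52, 5⟩,
   ⟨4, 35, 0, 49⟩, ⟨60, 27, 52, 5⟩, ⟨4, 45, 0, 49⟩, ⟨4, 55, 0, 49⟩,
   ⟨16, 35, 0, 61⟩, ⟨60, 12, 52, 5⟩, ⟨15, 18, 13, 20⟩, ⟨15, 23, 13, 20⟩],
  [⟨1, 5, 0, 1⟩, ⟨64, 0, 0, 64⟩, ⟨45, 58, 13, 50⟩, ⟨45, 8, 13, 50⟩,
   ⟨16, 45, 0, 61⟩, ⟨45, 28, 13, 50⟩, ⟨16, 20, 0, 61⟩, ⟨16, 60, 0, 61⟩,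
   ⟨60, 37, 52, 5⟩, ⟨45, 33, 13, 50⟩, ⟨16, 5, 0, 61⟩, ⟨16, 15, 0, 61⟩,
   ⟨60, 32, 52, 5⟩, ⟨45, 18, 13, 50⟩, ⟨16, 50, 0, 61⟩, ⟨45, 63, 13, 50⟩],
  [⟨16, 25, 0, 61⟩, ⟨15, 38, 13, 20⟩, ⟨1, 45, 0, 1⟩, ⟨50, 52, 52, 45⟩,
   ⟨64, 25, 0, 64⟩, ⟨64, 55, 0, 64⟩, ⟨45, 38, 13, 50⟩, ⟨64, 30, 0, 64⟩,
   ⟨45, 53, 13, 50⟩, ⟨45, 3, 13, 50⟩, ⟨64, 40, 0, 64⟩, ⟨45, 23, 13, 50⟩,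
   ⟨45, 43, 13, 50⟩, ⟨64, 10, 0, 64⟩, ⟨45, 48, 13, 50⟩, ⟨64, 35, 0, 64⟩],
  [⟨1, 20, 0, 1⟩, ⟨61, 0, 0, 16⟩, ⟨50, 37, 52, 45⟩, ⟨50, 32, 52, 45⟩,
   ⟨64, 50, 0, 64⟩, ⟨50, 47, 52, 45⟩, ⟨64, 15, 0, 64⟩, ⟨64, 45, 0, 64⟩,
   ⟨50, 2, 52, 45⟩, ⟨64, 20, 0, 64⟩, ⟨64, 60, 0, 64⟩, ⟨50, 7, 52, 45⟩,
   ⟨64, 5, 0, 64⟩, ⟨50, 57, 52, 45⟩, ⟨1, 60, 0, 1⟩, ⟨5, 13, 13, 60⟩],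
  [⟨61, 35, 0, 16⟩, ⟨61, 25, 0, 16⟩, ⟨50, 22, 52, 45⟩, ⟨61, 55, 0, 16⟩,
   ⟨50, 17, 52, 45⟩, ⟨50, 12, 52, 45⟩, ⟨61, 30, 0, 16⟩, ⟨50, 27, 52, 45⟩,
   ⟨50, 42, 52, 45⟩, ⟨61, 40, 0, 16⟩, ⟨50, 62, 52, 45⟩, ⟨61, 10, 0, 16⟩,
   ⟨1, 35, 0, 1⟩, ⟨49, 0, 0, 4⟩, ⟨5, 18, 13, 60⟩, ⟨5, 63, 13, 60⟩],
  [⟨61, 5, 0, 16⟩, ⟨5, 58, 13, 60⟩, ⟨61, 60, 0, 16⟩, ⟨61, 50, 0, 16⟩,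
   ⟨5, 8, 13, 60⟩, ⟨61, 15, 0, 16⟩, ⟨61, 45, 0, 16⟩, ⟨5, 28, 13, 60⟩,
   ⟨61, 20, 0, 16⟩, ⟨5, 33, 13, 60⟩, ⟨1, 10, 0, 1⟩, ⟨20, 52, 52, 15⟩,
   ⟨49, 10, 0, 4⟩, ⟨49, 35, 0, 4⟩, ⟨5, 23, 13, 60⟩, ⟨49, 25, 0, 4⟩],
  [⟨5, 3, 13, 60⟩, ⟨5, 48, 13, 60⟩, ⟨49, 55, 0, 4⟩, ⟨5, 43, 13, 60⟩,
   ⟨5, 38, 13, 60⟩, ⟨49, 30, 0, 4⟩, ⟨5, 53, 13, 60⟩, ⟨49, 40, 0, 4⟩,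
   ⟨1, 50, 0, 1⟩, ⟨20, 7, 52, 15⟩, ⟨20, 57, 52, 15⟩, ⟨49, 20, 0, 4⟩,
   ⟨20, 37, 52, 15⟩, ⟨49, 45, 0, 4⟩, ⟨49, 5, 0, 4⟩, ⟨20, 32, 52, 15⟩],
  [⟨49, 60, 0, 4⟩, ⟨49, 50, 0, 4⟩, ⟨20, 47, 52, 15⟩, ⟨49, 15, 0, 4⟩,
   ⟨20, 2, 52, 15⟩, ⟨1, 25, 0, 1⟩, ⟨20, 27, 52, 15⟩, ⟨20, 12, 52, 15⟩,
   ⟨20, 62, 52, 15⟩, ⟨20, 42, 52, 15⟩, ⟨20, 22, 52, 15⟩, ⟨20, 17, 52, 15⟩]]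

end Pool.Agent.Folk330
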