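import Pool.Agent.Folk330.Ops
import Pool.Agent.Folk330.ChkDefs

/-!
# Soundness of the check of the table
-/

noncomputable section

namespace Pool.Agent.Folk330

open G2

/-- Determinant one, in the ring. -/
def Ok (m : MN) : Prop := (m.a : RR) * m.d - m.b * m.c = 1

instance : DecidablePred Ok := fun m => by unfold Ok; infer_instance

/-- The group element of a matrix. -/
def toG (m : MN) : G2 := if h : Ok m then ⟨m.a, m.b, m.c, m.d, h⟩ else 1

theorem toG_a {m : MN} (h : Ok m) : (toG m).a = m.a := by rw [toG, dif_pos h]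
theorem toG_b {m : MN} (h : Ok m) : (toG m).b = m.b := by rw [toG, dif_pos h]
theorem toG_c {m : MN} (h : Ok m) : (toG m).c = m.c := by rw [toG, dif_pos h]
theorem toG_d {m : MN} (h : Ok m) : (toG m).d = m.d := by rw [toG, dif_pos h]

theorem c64 : ((64 : ℕ) : RR) = -1 := by decide +kernel

theorem c65 : ((65 : ℕ) : RR) = 0 := by decide +kernel

theorem zz_iff (n : ℕ) : zz n = true ↔ (n : RR) = 0 := by
  unfold zz
  rw [ZMod.natCast_eq_zero_iff, Nat.dvd_iff_mod_eq_zero]
  exact ⟨Nat.eq_of_beq_eq_true, fun h => by rw [show Nat.mod n 65 = 0 from h]; rfl⟩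

theorem detok_iff (m : MN) : detok m = true ↔ Ok m := by
  unfold detok Ok
  rw [zz_iff]
  simp only [Nat.add_eq, Nat.mul_eq, Nat.cast_add, Nat.cast_mul, c64]
  constructor
  · intro h; linear_combination h
  · intro h; linear_combination h

theorem inH_aux : ∀ r < 65, Nat.beq (Nat.mod (Nat.shiftRight 21041521284224450706 r) 2) 1 = true ↔
    (r : RR) ∈ Hs := by
  decide +kernel

theorem inH_iff (n : ℕ) : inH n = true ↔ (n : RR) ∈ Hs := by
  have h := inH_aux (n % 65) (Nat.mod_lt _ (by norm_num))
  rw [ZMod.natCast_mod] at h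
  exact h

theorem mmul_ok {x y : MN} (hx : Ok x) (hy : Ok y) : Ok (mmul x y) := by
  unfold Ok at *
  simp only [mmul, Nat.add_eq, Nat.mul_eq, Nat.cast_add, Nat.cast_mul]
  linear_combination hy + ((y.a : RR) * y.d - y.b * y.c) * hx

theorem minv_ok {x : MN} (hx : Ok x) : Ok (minv x) := by
  unfold Ok at *
  simp only [minv, Nat.mul_eq, Nat.cast_mul, c64]
  linear_combination hx

theorem toG_mmul {x y : MN} (hx : Ok x) (hy : Ok y) : toG (mmul x y) = toG x * toG y := by
  have h := mmul_ok hx hy
  ext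
  · rw [toG_a h, mul_a, toG_a hx, toG_b hx, toG_a hy, toG_c hy]
    simp only [mmul, Nat.add_eq, Nat.mul_eq, Nat.cast_add, Nat.cast_mul]
  · rw [toG_b h, mul_b, toG_a hx, toG_b hx, toG_b hy, toG_d hy]
    simp only [mmul, Nat.add_eq, Nat.mul_eq, Nat.cast_add, Nat.cast_mul]
  · rw [toG_c h, mul_c, toG_c hx, toG_d hx, toG_a hy, toG_c hy]
    simp only [mmul, Nat.add_eq, Nat.mul_eq, Nat.cast_add, Nat.cast_mul]
  · rw [toG_d h, mul_d, toG_c hx, toG_d hx, toG_b hy, toG_d hy]
    simp only [mmul, Nat.add_eq, Nat.mul_eq, Nat.cast_add, Nat.cast_mul]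

theorem toG_minv {x : MN} (hx : Ok x) : toG (minv x) = (toG x)⁻¹ := by
  have h := minv_ok hx
  ext
  · rw [toG_a h, inv_a, toG_d hx]
    rfl
  · rw [toG_b h, inv_b, toG_b hx]
    simp only [minv, Nat.mul_eq, Nat.cast_mul, c64]
    ring
  · rw [toG_c h, inv_c, toG_c hx]
    simp only [minv, Nat.mul_eq, Nat.cast_mul, c64]
    ring
  · rw [toG_d h, inv_d, toG_a hx]
    rfl

theorem ck1_iff {m : MN} (h : Ok m) : ck1 m = true ↔ kk1 (toG m) := by
  unfold ck1 kk1
  rw [toG_a h, toG_b h, toG_c h, toG_d h]
  simp only [Bool.or_eq_true, Bool.and_eq_true, zz_iff, inH_iff]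

theorem ck2_iff {m : MN} (h : Ok m) : ck2 m = true ↔ kk2 (toG m) := by
  unfold ck2 kk2
  rw [toG_a h, toG_b h, toG_c h, toG_d h]
  simp only [Bool.or_eq_true, Bool.and_eq_true, zz_iff, inH_iff, Nat.add_eq, Nat.mul_eq,
    Nat.cast_add, Nat.cast_mul]
  have e1 : ∀ x y : RR, ((13 : ℕ) : RR) * x + ((52 : ℕ) : RR) * y = 0 ↔ 13 * x = 13 * y := by
    intro x y
    have h13 : ((13 : ℕ) : RR) = 13 := by decide +kernel
    have h52 : ((52 : ℕ) : RR) = -13 := by decide +kernel
    rw [h13, h52]
    constructor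
    · intro h; linear_combination h
    · intro h; linear_combination h
  simp only [e1]
  norm_num

/-- The value at a neighbour. -/
def vf (f f' : G2 → ℕ) (c : Bool) (g : G2) : ℕ := if c then f g else f' g

theorem ent_sound {f f' : G2 → ℕ} (hf : Inv1 f) (hf' : Inv2 f') {c : Bool} {x : MN} (hx : Ok x)
    (h : ent c x = true) (g : G2) : vf f f' c (g * toG x) = vf f f' c g := by
  cases c
  · have h' : ck2 x = true := h
    exact hf'.kk ((ck2_iff hx).1 h') g
  · have h' : ck1 x = true := h
    exact hf.kk ((ck1_iff hx).1 h') g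

theorem nthr_map {α β : Type} (g : α → β) (d : α) (n : ℕ) (l : List α) :
    nthr (g d) n (l.map g) = g (nthr d n l) := by
  induction n generalizing l with
  | zero => cases l <;> rfl
  | succ n ih =>
    cases l with
    | nil => rfl
    | cons a t => exact ih t

theorem lk_eq {α : Type} (d : α) (K : List (List α)) (j : ℕ) :
    lk d K j = nthr d (j % 16) (nthr [] (j / 16) K) := by
  show Nat.rec (motive := fun _ => α) (nthr d (j % 16) (nthr [] 0 K))
    (fun n _ => nthr d (j % 16) (nthr [] (Nat.succ n) K)) (j / 16) = _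
  generalize j / 16 = q
  cases q <;> rfl

theorem dg_eq (S : List (List ℕ)) (j : ℕ) : dg S j = nthr 0 (j % 16) (nthr [] (j / 16) S) := by
  show Nat.rec (motive := fun _ => ℕ) (nthr 0 (j % 16) (nthr [] 0 S))
    (fun n _ => nthr 0 (j % 16) (nthr [] (Nat.succ n) S)) (j / 16) = _
  generalize j / 16 = q
  cases q <;> rfl

/-- The state is correct. -/
def Good (W : List (List Wit)) (n1 off n2 : ℕ) (f f' : G2 → ℕ) (S : List (List ℕ)) : Prop :=
  ∀ c i, rng n1 off n2 c i = true → dg S i = vf f f' c (toG (lk dW W i).m)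

/-- The representatives have determinant one. -/
def WOk (W : List (List Wit)) : Prop := ∀ i, Ok (lk dW W i).m

/-- The left factors. -/
def KOk (P : G2 → Prop) (K : List (List MN)) : Prop := ∀ i, Ok (lk dM K i) ∧ P (toG (lk dM K i))

section

variable {W : List (List Wit)} {K : List (List MN)} {n1 off n2 : ℕ} {P : G2 → Prop}
  {f f' : G2 → ℕ} {S : List (List ℕ)}

theorem chkl_sound (hW : WOk W) (hK : KOk P K) (hf : Inv1 f) (hf' : Inv2 f') (hl : LInv P f)
    (hl' : LInv P f') (hS : Good W n1 off n2 f f' S) {G : MN} (hG : Ok G) :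
    ∀ (NL : List NB), (∀ N ∈ NL, Ok N.m) → ∀ (is : List ℕ) (kk : ℕ),
      chkl W K n1 off n2 G NL is kk = true →
      sumd S is = (NL.map fun N => vf f f' N.c (toG G * toG N.m)).sum := by
  intro NL
  induction NL with
  | nil =>
    intro _ is kk h
    cases is with
    | nil => rfl
    | cons i is => exact absurd (show false = true from h) (by decide)
  | cons N NL ih =>
    intro hN is kk h
    cases is with
    | nil => exact absurd (show false = true from h) (by decide)
    | cons i is =>
      have h' : (rng n1 off n2 N.c i && (ent N.c (mmul (minv (mmul (lk dM K (kk % 256))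
          (lk dW W i).m)) (mmul G N.m)) && chkl W K n1 off n2 G NL is (kk / 256))) = true := h
      rw [Bool.and_eq_true, Bool.and_eq_true] at h'
      obtain ⟨h1, h2, h3⟩ := h'
      have hN1 : Ok N.m := hN N (List.mem_cons_self ..)
      have e1 := ih (fun N hN' => hN N (List.mem_cons_of_mem _ hN')) is (kk / 256) h3
      have hk := hK (kk % 256)
      have hw := hW i
      have hz := mmul_ok hk.1 hw
      have hy := mmul_ok hG hN1
      have e2 := ent_sound hf hf' (mmul_ok (minv_ok hz) hy) h2
        (toG (lk dM K (kk % 256)) * toG (lk dW W i).m)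
      rw [toG_mmul (minv_ok hz) hy, toG_minv hz, toG_mmul hk.1 hw, toG_mmul hG hN1,
        mul_inv_cancel_left] at e2
      have e3 : vf f f' N.c (toG (lk dM K (kk % 256)) * toG (lk dW W i).m) =
          vf f f' N.c (toG (lk dW W i).m) := by
        cases N.c
        · exact hl' _ hk.2 _
        · exact hl _ hk.2 _
      show dg S i + sumd S is = _
      rw [List.map_cons, List.sum_cons, e1, e2, e3, hS N.c i h1]

theorem allr_iff (lo n : ℕ) (p : ℕ → Bool) (h : allr lo n p = true) :
    ∀ i, lo ≤ i → i < lo + n → p i = true := by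
  induction n with
  | zero => intro i h1 h2; omega
  | succ n ih =>
    have h' : (p (lo + n) && allr lo n p) = true := h
    rw [Bool.and_eq_true] at h'
    intro i h1 h2
    rcases Nat.lt_or_ge i (lo + n) with h3 | h3
    · exact ih h'.2 i h1 h3
    · have : i = lo + n := by omega
      rw [this]
      exact h'.1

end

end Pool.Agent.Folk330
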