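import Pool.Agent.Folk330.MomA6
import Pool.Agent.Folk330.StA7

/-!
# Moments, kernel computation, part 7 (generated)
-/

noncomputable section

namespace Pool.Agent.Folk330

theorem momA7 : mls tabA1 tabA2 0 11 stA7 = [
    554022468054172239088336348853126614932998829921203154589083477201526036161856512649700594266758884723677837266079731843188949944956507519210413237650499972745266091495192384282914901202332727287243870578219180316815611124171851332376403580897847000436,
    1162841570328252328260837464353960919586755220160401977048900621307718741384512800412256927386401833071715545507310237015634979269127273991188353630689919624924082454821365150812324178717188515002809102697313401017212714803661385475006444202243022634010636,
    2440696177472661809495398477953431294438254765436509471712204580515010384271253460035148958084687184198708598940444862975549008484776017732319108503572878016632267150393640562510798651298630486058990033125906238102992954693446856906193112647499169320661446468,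
    5122794016354216962787549262127521720903121067007946679197164893619237898419965467119558018227380458788138654431160503112130223382603405802140462029285018894626516118653017461115148872450202309922678803052698009586835521236982637970161427699994654691010340922452,
    10752267652879314793417044827254255321437315359334665702569987392872446360950222340062110544597430060640974484320264718961301221345633458406509895577286164406200833561382868977898817882163291089438107714144177911605915982550771899220259610990783279328197079236809684,
    22568008667671293531475629932385590857846047993222587130463454882117004444281312505541616519780655223783602066550497336379803561784089477427695698558661244095556033770507367786338928897056184242806105808155825176255047888411420889625551291945144360370413080161556408228,
    47368148928843859549175907069419004743875840710878083927073764395847965221673131494878531583052219147487236981101478000307521688868849192124187899863069974388653901782029691580419111337034124432271573887876820551795274050668576163417036645173857087903021736214688365732192,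
    99421334284039335316585971085265131927827976107001551206813395878711393265983934713413498532566108193653474553371334592524576840315669846099647977976469471770916553482151158067910170894258026502309525600879880314610980925029497053513337953812913353564854687190012730375283372,
    208676123881123228515214006919667218359835120280457978233217867636381150069876565096297359041581737773971858452297090318844240234807074191194943039011218206929749418519817662940205913736900732760290631030861449921224952535013582330490542200923685226050788774856971929765056868652,
    437991755007389893677628409350640259214635132924436400142762207951303337235015955204285107836444507849067656216297059553393996259105236075492842807367812590438319891732975728483850220484332705218855425434232087560539471816920605952840674593994801298147075865785265247374196509744384,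
    919303914220271431178054655315893890141595267971129135312819297885263534581724743752290928994318929862704186060111830212314622967672955886246433975440135991036922574838281160510133147025829051762185763514534717789564975513606425088542886266427650626893935644508555316489827970636599096] := by
  decide +kernel

end Pool.Agent.Folk330
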