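import Pool.Agent.Folk330.ChkDefs
import Pool.Agent.Folk330.MomA7
import Pool.Agent.Folk330.WitA

/-!
# The check of the table for the first base edge, part 1
-/

noncomputable section

namespace Pool.Agent.Folk330

theorem chkA1 : allr 0 480 (fun i =>
    chkr witA kA 947 960 1146 nP1 nQ1 nR1 (lk dR tabA1 i) (lk dW witA i) i) = true := by
  decide +kernel

end Pool.Agent.Folk330
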