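import Pool.Agent.Folk330.Iter
import Pool.Agent.Folk330.ChkA1
import Pool.Agent.Folk330.ChkA2

/-!
# The check of the table for the first base edge
-/

noncomputable section

namespace Pool.Agent.Folk330

open G2

theorem chkA3 : allr 960 186 (fun i =>
    chkr witA kA 947 960 1146 nP2 nQ2 nR2 (lk dR tabA2 (Nat.sub i 960)) (lk dW witA i) i) =
      true := by
  decide +kernel

theorem chkA4 : (witA.all fun l => l.all fun u => detok u.m) = true := by
  decide +kernel

theorem chkA5 : (kA.all fun l => l.all fun m => and (detok m) (ck1 m)) = true := by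
  decide +kernel

theorem chkA6 : allr 0 947 (fun i =>
    Nat.ble (Nat.succ (Nat.mod i 16)) (nthr [] (Nat.div i 16) tabA1).length) = true := by
  decide +kernel

theorem chkA7 : allr 0 186 (fun i =>
    Nat.ble (Nat.succ (Nat.mod i 16)) (nthr [] (Nat.div i 16) tabA2).length) = true := by
  decide +kernel

theorem tabOkA : TabOk witA kA 947 960 1146 kk1 tabA1 tabA2 where
  w := by
    refine lk_prop (fun u : Wit => Ok u.m) dW (by decide +kernel) witA ?_
    intro l hl u hu
    have h := List.all_eq_true.1 chkA4 l hl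
    exact (detok_iff _).1 (List.all_eq_true.1 h u hu)
  k := by
    refine lk_prop (fun m : MN => Ok m ∧ kk1 (toG m)) dM ⟨by decide +kernel, by decide +kernel⟩ kA ?_
    intro l hl m hm
    have h := List.all_eq_true.1 chkA5 l hl
    have h2 := List.all_eq_true.1 h m hm
    rw [Bool.and_eq_true] at h2
    have h3 := (detok_iff _).1 h2.1
    exact ⟨h3, (ck1_iff h3).1 h2.2⟩
  r1 := by
    intro i hi
    rcases Nat.lt_or_ge i 480 with h | h
    · exact allr_iff _ _ _ chkA1 i (Nat.zero_le i) (by omega)
    · exact allr_iff _ _ _ chkA2 i h (by omega)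
  r2 := fun i h1 h2 => allr_iff _ _ _ chkA3 i h1 (by omega)
  l1 := fun i h => by
    have h1 := allr_iff _ _ _ chkA6 i (Nat.zero_le i) (by omega)
    rw [Nat.ble_eq] at h1
    exact h1
  l2 := fun i h => by
    have h1 := allr_iff _ _ _ chkA7 i (Nat.zero_le i) (by omega)
    rw [Nat.ble_eq] at h1
    exact h1
  ln := by norm_num
  lo := by decide +kernel

theorem chkA8 : allr 0 947 (fun i => Nat.beq (dg [[1]] i)
    (Bool.rec (motive := fun _ => ℕ) 0 1 (ck1 (lk dW witA i).m))) = true := by
  decide +kernel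

theorem chkA9 : allr 960 186 (fun i => Nat.beq (dg [[1]] i) 0) = true := by
  decide +kernel

theorem goodA0 : Good witA 947 960 1146 (y1 0).1 (y1 0).2 [[1]] := by
  intro c i hi
  cases c
  · have h0 : (Nat.ble 960 i && Nat.ble (i + 1) 1146) = true := hi
    rw [Bool.and_eq_true, Nat.ble_eq, Nat.ble_eq] at h0
    exact Nat.eq_of_beq_eq_true (allr_iff _ _ _ chkA9 i h0.1 (by omega))
  · have h0 : Nat.ble (i + 1) 947 = true := hi
    rw [Nat.ble_eq] at h0
    have h1 := Nat.eq_of_beq_eq_true (allr_iff _ _ _ chkA8 i (Nat.zero_le i) (by omega))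
    rw [h1]
    have h2 := ck1_iff (tabOkA.w i)
    show _ = if kk1 (toG (lk dW witA i).m) then 1 else 0
    cases h3 : ck1 (lk dW witA i).m
    · rw [h3] at h2
      rw [if_neg (fun h => absurd (h2.2 h) (by decide))]
    · rw [if_pos (h2.1 h3)]

theorem idA : toG (lk dW witA 0).m = 1 := by decide +kernel

end Pool.Agent.Folk330
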