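import Pool.Agent.Folk330.Iter
import Pool.Agent.Folk330.TabB
import Pool.Agent.Folk330.WitB

/-!
# The check of the table for the second base edge
-/

noncomputable section

namespace Pool.Agent.Folk330

open G2

theorem chkB1 : allr 0 186 (fun i =>
    chkr witB kB 186 192 316 nP1 nQ1 nR1 (lk dR tabB1 i) (lk dW witB i) i) = true := by
  decide +kernel

theorem chkB3 : allr 192 124 (fun i =>
    chkr witB kB 186 192 316 nP2 nQ2 nR2 (lk dR tabB2 (Nat.sub i 192)) (lk dW witB i) i) =
      true := by
  decide +kernel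

theorem chkB4 : (witB.all fun l => l.all fun u => detok u.m) = true := by
  decide +kernel

theorem chkB5 : (kB.all fun l => l.all fun m => and (detok m) (ck2 m)) = true := by
  decide +kernel

theorem chkB6 : allr 0 186 (fun i =>
    Nat.ble (Nat.succ (Nat.mod i 16)) (nthr [] (Nat.div i 16) tabB1).length) = true := by
  decide +kernel

theorem chkB7 : allr 0 124 (fun i =>
    Nat.ble (Nat.succ (Nat.mod i 16)) (nthr [] (Nat.div i 16) tabB2).length) = true := by
  decide +kernel

theorem tabOkB : TabOk witB kB 186 192 316 kk2 tabB1 tabB2 where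
  w := by
    refine lk_prop (fun u : Wit => Ok u.m) dW (by decide +kernel) witB ?_
    intro l hl u hu
    have h := List.all_eq_true.1 chkB4 l hl
    exact (detok_iff _).1 (List.all_eq_true.1 h u hu)
  k := by
    refine lk_prop (fun m : MN => Ok m ∧ kk2 (toG m)) dM ⟨by decide +kernel, by decide +kernel⟩ kB ?_
    intro l hl m hm
    have h := List.all_eq_true.1 chkB5 l hl
    have h2 := List.all_eq_true.1 h m hm
    rw [Bool.and_eq_true] at h2
    have h3 := (detok_iff _).1 h2.1
    exact ⟨h3, (ck2_iff h3).1 h2.2⟩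
  r1 := fun i h => allr_iff _ _ _ chkB1 i (Nat.zero_le i) (by omega)
  r2 := fun i h1 h2 => allr_iff _ _ _ chkB3 i h1 (by omega)
  l1 := fun i h => by
    have h1 := allr_iff _ _ _ chkB6 i (Nat.zero_le i) (by omega)
    rw [Nat.ble_eq] at h1
    exact h1
  l2 := fun i h => by
    have h1 := allr_iff _ _ _ chkB7 i (Nat.zero_le i) (by omega)
    rw [Nat.ble_eq] at h1
    exact h1
  ln := by norm_num
  lo := by decide +kernel

/-- The initial state. -/
def sB0 : List (List ℕ) := [[], [], [], [], [], [], [], [], [], [], [], [], [1]]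

theorem chkB8 : allr 192 124 (fun i => Nat.beq (dg sB0 i)
    (Bool.rec (motive := fun _ => ℕ) 0 1 (ck2 (lk dW witB i).m))) = true := by
  decide +kernel

theorem chkB9 : allr 0 186 (fun i => Nat.beq (dg sB0 i) 0) = true := by
  decide +kernel

theorem goodB0 : Good witB 186 192 316 (y2 0).1 (y2 0).2 sB0 := by
  intro c i hi
  cases c
  · have h0 : (Nat.ble 192 i && Nat.ble (i + 1) 316) = true := hi
    rw [Bool.and_eq_true, Nat.ble_eq, Nat.ble_eq] at h0
    have h1 := Nat.eq_of_beq_eq_true (allr_iff _ _ _ chkB8 i h0.1 (by omega))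
    rw [h1]
    have h2 := ck2_iff (tabOkB.w i)
    show _ = if kk2 (toG (lk dW witB i).m) then 1 else 0
    cases h3 : ck2 (lk dW witB i).m
    · rw [h3] at h2
      rw [if_neg (fun h => absurd (h2.2 h) (by decide))]
    · rw [if_pos (h2.1 h3)]
  · have h0 : Nat.ble (i + 1) 186 = true := hi
    rw [Nat.ble_eq] at h0
    exact Nat.eq_of_beq_eq_true (allr_iff _ _ _ chkB9 i (Nat.zero_le i) (by omega))

theorem idB : toG (lk dW witB 192).m = 1 := by decide +kernel

end Pool.Agent.Folk330
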