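import Pool.Agent.Folk330.Graph

/-!
# Classes of vectors (job FK-13)
-/

noncomputable section

namespace Pool.Agent.Folk330

open G2

instance Classes_fact5 : Fact (Nat.Prime 5) := ⟨by norm_num⟩

instance Classes_fact13 : Fact (Nat.Prime 13) := ⟨by norm_num⟩

theorem Classes_Hs : ∀ h ∈ Hs, r5 h = phi (r13 h) ∧ r13 h ≠ 0 := by decide +kernel

theorem Classes_cancel {K : Type*} [Field K] {a : K} (ha : a ≠ 0) (b c : K) :
    (a * b)⁻¹ * (a * c) = b⁻¹ * c := by
  rw [mul_inv, mul_mul_mul_comm, inv_mul_cancel₀ ha, one_mul]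

/-- For `h` in the subgroup `H`: `r5 h = phi (r13 h)` and `r13 h ≠ 0`, by `decide` over `Hs`. -/
theorem cl_smul {h : RR} (hh : h ∈ Hs) (x y : RR) : cl (h * x) (h * y) = cl x y := by
  obtain ⟨h5, h13⟩ := Classes_Hs h hh
  have hp := phi_ne_zero _ h13
  unfold cl
  rw [map_mul r13, map_mul r13, map_mul r5, map_mul r5, h5, phi_mul, phi_mul,
    Classes_cancel hp, Classes_cancel hp, Classes_cancel hp, Classes_cancel hp]
  have e : r13 h * r13 x * (r13 h * r13 y)⁻¹ = r13 x * (r13 y)⁻¹ := by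
    rw [mul_comm, Classes_cancel h13, mul_comm]
  rw [e]
  by_cases hy : r13 y = 0
  · rw [if_pos hy, if_pos (by rw [hy, mul_zero])]
  · rw [if_neg hy, if_neg (mul_ne_zero h13 hy)]

/-- Columns of a matrix of determinant one are primitive. -/
theorem prim_of_det {x y x' y' : RR} (h : x * y' - x' * y = 1) : Prim x y ∧ Prim x' y' := by
  have h5 : r5 x * r5 y' - r5 x' * r5 y = 1 := by
    rw [← map_mul, ← map_mul, ← map_sub, h, map_one]
  have h13 : r13 x * r13 y' - r13 x' * r13 y = 1 := by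
    rw [← map_mul, ← map_mul, ← map_sub, h, map_one]
  refine ⟨⟨?_, ?_⟩, ⟨?_, ?_⟩⟩
  · intro h0
    obtain ⟨h1, h2⟩ := Prod.ext_iff.1 h0
    have h1' : r5 x = 0 := h1
    have h2' : r5 y = 0 := h2
    rw [h1', h2', zero_mul, mul_zero, sub_zero] at h5
    exact zero_ne_one h5
  · intro h0
    obtain ⟨h1, h2⟩ := Prod.ext_iff.1 h0
    have h1' : r13 x = 0 := h1
    have h2' : r13 y = 0 := h2
    rw [h1', h2', zero_mul, mul_zero, sub_zero] at h13
    exact zero_ne_one h13
  · intro h0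
    obtain ⟨h1, h2⟩ := Prod.ext_iff.1 h0
    have h1' : r5 x' = 0 := h1
    have h2' : r5 y' = 0 := h2
    rw [h1', h2', zero_mul, mul_zero, sub_zero] at h5
    exact zero_ne_one h5
  · intro h0
    obtain ⟨h1, h2⟩ := Prod.ext_iff.1 h0
    have h1' : r13 x' = 0 := h1
    have h2' : r13 y' = 0 := h2
    rw [h1', h2', zero_mul, mul_zero, sub_zero] at h13
    exact zero_ne_one h13

/-- the scalar of a vector -/
def Classes_b (x y : RR) : ZMod 13 := if r13 y = 0 then r13 x else r13 y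

theorem Classes_mkV {x y : RR} (h : (r5 x, r5 y) ≠ 0) {c : ZMod 5} (hc : c ≠ 0) :
    r5 x = c * (mkV (c⁻¹ * r5 x, c⁻¹ * r5 y)).1.1 ∧ r5 y = c * (mkV (c⁻¹ * r5 x, c⁻¹ * r5 y)).1.2 := by
  have h0 : (c⁻¹ * r5 x, c⁻¹ * r5 y) ≠ 0 := by
    intro h1
    apply h
    obtain ⟨h2, h3⟩ := Prod.ext_iff.1 h1
    have h2' : c⁻¹ * r5 x = 0 := h2
    have h3' : c⁻¹ * r5 y = 0 := h3
    have h4 := (mul_eq_zero.1 h2').resolve_left (inv_ne_zero hc)
    have h5 := (mul_eq_zero.1 h3').resolve_left (inv_ne_zero hc)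
    rw [h4, h5]
    rfl
  have h1 : (mkV (c⁻¹ * r5 x, c⁻¹ * r5 y)).1 = (c⁻¹ * r5 x, c⁻¹ * r5 y) := by
    unfold mkV
    rw [dif_pos h0]
  rw [h1]
  constructor
  · show r5 x = c * (c⁻¹ * r5 x)
    rw [← mul_assoc, mul_inv_cancel₀ hc, one_mul]
  · show r5 y = c * (c⁻¹ * r5 y)
    rw [← mul_assoc, mul_inv_cancel₀ hc, one_mul]

theorem Classes_spec {x y : RR} (h : Prim x y) : Classes_b x y ≠ 0 ∧
    r13 x = Classes_b x y * (zv (cl x y).1).1 ∧ r13 y = Classes_b x y * (zv (cl x y).1).2 ∧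
    r5 x = phi (Classes_b x y) * (cl x y).2.1.1 ∧
    r5 y = phi (Classes_b x y) * (cl x y).2.1.2 := by
  by_cases hy : r13 y = 0
  · have hx : r13 x ≠ 0 := by
      intro hx
      apply h.2
      rw [hx, hy]
      rfl
    have hb : Classes_b x y = r13 x := if_pos hy
    have hc : cl x y = (none, mkV ((phi (r13 x))⁻¹ * r5 x, (phi (r13 x))⁻¹ * r5 y)) := by
      unfold cl
      rw [if_pos hy]
    rw [hb, hc]
    obtain ⟨h1, h2⟩ := Classes_mkV h.1 (phi_ne_zero _ hx)
    refine ⟨hx, ?_, ?_, h1, h2⟩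
    · show r13 x = r13 x * 1
      rw [mul_one]
    · show r13 y = r13 x * 0
      rw [mul_zero, hy]
  · have hb : Classes_b x y = r13 y := if_neg hy
    have hc : cl x y = (some (r13 x * (r13 y)⁻¹),
        mkV ((phi (r13 y))⁻¹ * r5 x, (phi (r13 y))⁻¹ * r5 y)) := by
      unfold cl
      rw [if_neg hy]
    rw [hb, hc]
    obtain ⟨h1, h2⟩ := Classes_mkV h.1 (phi_ne_zero _ hy)
    refine ⟨hy, ?_, ?_, h1, h2⟩
    · show r13 x = r13 y * (r13 x * (r13 y)⁻¹)
      rw [mul_left_comm, mul_inv_cancel₀ hy, mul_one]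
    · show r13 y = r13 y * 1
      rw [mul_one]

theorem Classes_det {x y x' y' : RR} (h1 : Prim x y) (h2 : Prim x' y') :
    r13 (x * y' - x' * y) = Classes_b x y * Classes_b x' y' * dt13 (cl x y).1 (cl x' y').1 ∧
    r5 (x * y' - x' * y) = phi (Classes_b x y) * phi (Classes_b x' y') *
      dt5 (cl x y).2 (cl x' y').2 := by
  obtain ⟨-, a1, a2, a3, a4⟩ := Classes_spec h1
  obtain ⟨-, b1, b2, b3, b4⟩ := Classes_spec h2
  constructor
  · rw [map_sub, map_mul, map_mul, a1, a2, b1, b2]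
    unfold dt13
    ring
  · rw [map_sub, map_mul, map_mul, a3, a4, b3, b4]
    unfold dt5
    ring

/-- Adjacency of classes, first kind. Write `(r13 x, r13 y) = b * zv P` and
`(r5 x, r5 y) = phi b * p` with `cl x y = (P, p)`, `b ≠ 0`, and the same for the other vector. -/
theorem adj_H {x y x' y' : RR} (h1 : Prim x y) (h2 : Prim x' y') (h : x * y' - x' * y ∈ Hs) :
    GG.Adj (cl x y) (cl x' y') := by
  obtain ⟨h5, h13⟩ := Classes_Hs _ h
  obtain ⟨d13, d5⟩ := Classes_det h1 h2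
  have hb := (Classes_spec h1).1
  have hb' := (Classes_spec h2).1
  left
  constructor
  · intro h0
    apply h13
    rw [d13, (dt13_eq_zero _ _).2 h0, mul_zero]
  · rw [d13, d5, phi_mul, phi_mul] at h5
    exact mul_left_cancel₀ (mul_ne_zero (phi_ne_zero _ hb) (phi_ne_zero _ hb')) h5

theorem Classes_five : ∀ s d : ZMod 5, (s ^ 2 = 1 ∨ s ^ 2 = 4) → (s * s * d = 1 ∨ s * s * d = 4) →
    (d = 1 ∨ d = 4) := by decide +kernel

theorem Classes_26 : r5 26 = 1 ∧ r5 39 = 4 := by decide +kernel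

/-- Adjacency of classes, second kind: the vectors agree modulo 13. -/
theorem adj_26 {x y x' y' : RR} (h1 : Prim x y) (h2 : Prim x' y') (hx : r13 x = r13 x')
    (hy : r13 y = r13 y') (h : x * y' - x' * y = 26 ∨ x * y' - x' * y = 39) :
    GG.Adj (cl x y) (cl x' y') := by
  obtain ⟨-, d5⟩ := Classes_det h1 h2
  have hb := (Classes_spec h1).1
  have hbb : Classes_b x' y' = Classes_b x y := by
    unfold Classes_b
    rw [hx, hy]
  right
  constructor
  · unfold cl
    rw [hx, hy]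
    split_ifs <;> rfl
  · rw [hbb] at d5
    refine Classes_five _ _ (phi_sq _ hb) ?_
    rw [← d5]
    rcases h with h | h
    · left
      rw [h]
      exact Classes_26.1
    · right
      rw [h]
      exact Classes_26.2

end Pool.Agent.Folk330
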