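import Pool.Agent.Folk330.Graph

/-!
# The graph is `K_4`-free (job FK-12)
-/

noncomputable section

namespace Pool.Agent.Folk330

open G2

theorem clq_pl5 (p q r s : ZMod 5 × ZMod 5) :
    dt5 p q * dt5 r s - dt5 p r * dt5 q s + dt5 p s * dt5 q r = 0 := by
  unfold dt5; ring

theorem clq_pl13 (P Q R S : Pt) :
    dt13 P Q * dt13 R S - dt13 P R * dt13 Q S + dt13 P S * dt13 Q R = 0 := by
  unfold dt13; ring

theorem clq_three : ∀ a b c : ZMod 5, (a = 1 ∨ a = 4) → (b = 1 ∨ b = 4) → (c = 1 ∨ c = 4) →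
    a - b + c ≠ 0 := by decide +kernel

theorem clq_six : ∀ a b c d e f : ZMod 5, (a = 1 ∨ a = 4) → (b = 1 ∨ b = 4) → (c = 1 ∨ c = 4) →
    (d = 1 ∨ d = 4) → (e = 1 ∨ e = 4) → (f = 1 ∨ f = 4) → a * b - c * d + e * f ≠ 0 := by
  intro a b c d e f ha hb hc hd he hf
  rcases ha with rfl | rfl <;> rcases hb with rfl | rfl <;> rcases hc with rfl | rfl <;>
    rcases hd with rfl | rfl <;> rcases he with rfl | rfl <;> rcases hf with rfl | rfl <;> decide

theorem clq_pm : ∀ a : ZMod 5, (a = 1 ∨ a = 4) → a ≠ 0 := by decide +kernel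

theorem clq_of_ne {u v : VV} (h : GG.Adj u v) (hne : u.1 ≠ v.1) :
    dt5 u.2 v.2 = phi (dt13 u.1 v.1) := by
  rcases h with ⟨-, h⟩ | ⟨h, -⟩
  · exact h
  · exact absurd h hne

theorem clq_of_eq {u v : VV} (h : GG.Adj u v) (he : u.1 = v.1) :
    dt5 u.2 v.2 = 1 ∨ dt5 u.2 v.2 = 4 := by
  rcases h with ⟨h, -⟩ | ⟨-, h⟩
  · exact absurd he h
  · exact h

theorem clq_dt_ne {u v : VV} (h : GG.Adj u v) : dt5 u.2 v.2 ≠ 0 := by
  by_cases he : u.1 = v.1
  · exact clq_pm _ (clq_of_eq h he)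
  · rw [clq_of_ne h he]
    exact phi_ne_zero _ (fun h0 => he ((dt13_eq_zero _ _).1 h0))

theorem clq_triple {u v x y : VV} (huv : u.1 = v.1) (hux : u.1 = x.1) (h12 : GG.Adj u v)
    (h13 : GG.Adj u x) (h14 : GG.Adj u y) (h23 : GG.Adj v x) (h24 : GG.Adj v y)
    (h34 : GG.Adj x y) : False := by
  have hvx : v.1 = x.1 := huv.symm.trans hux
  have e12 := clq_of_eq h12 huv
  have e13 := clq_of_eq h13 hux
  have e23 := clq_of_eq h23 hvx
  have hp := clq_pl5 u.2 v.2 x.2 y.2
  by_cases huy : u.1 = y.1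
  · exact clq_six _ _ _ _ _ _ e12 (clq_of_eq h34 (hux.symm.trans huy)) e13
      (clq_of_eq h24 (huv.symm.trans huy)) (clq_of_eq h14 huy) e23 hp
  · have f14 := clq_of_ne h14 huy
    have f24 := clq_of_ne h24 (fun h => huy (huv.trans h))
    have f34 := clq_of_ne h34 (fun h => huy (hux.trans h))
    rw [← huv, ← f14] at f24
    rw [← hux, ← f14] at f34
    rw [f24, f34] at hp
    have h0 : dt5 u.2 y.2 * (dt5 u.2 v.2 - dt5 u.2 x.2 + dt5 v.2 x.2) = 0 := by
      linear_combination hp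
    haveI : Fact (Nat.Prime 5) := ⟨by norm_num⟩
    rcases mul_eq_zero.1 h0 with h | h
    · exact clq_dt_ne h14 h
    · exact clq_three _ _ _ e12 e13 e23 h

theorem clq_pair {u v x y : VV} (huv : u.1 = v.1) (h12 : GG.Adj u v)
    (h13 : GG.Adj u x) (h14 : GG.Adj u y) (h23 : GG.Adj v x) (h24 : GG.Adj v y)
    (h34 : GG.Adj x y) : False := by
  by_cases hux : u.1 = x.1
  · exact clq_triple huv hux h12 h13 h14 h23 h24 h34
  by_cases huy : u.1 = y.1
  · exact clq_triple huv huy h12 h14 h13 h24 h23 h34.symm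
  have f13 := clq_of_ne h13 hux
  have f14 := clq_of_ne h14 huy
  have f23 := clq_of_ne h23 (fun h => hux (huv.trans h))
  have f24 := clq_of_ne h24 (fun h => huy (huv.trans h))
  rw [← huv, ← f13] at f23
  rw [← huv, ← f14] at f24
  have hp := clq_pl5 u.2 v.2 x.2 y.2
  rw [f23, f24] at hp
  have h0 : dt5 u.2 v.2 * dt5 x.2 y.2 = 0 := by linear_combination hp
  haveI : Fact (Nat.Prime 5) := ⟨by norm_num⟩
  rcases mul_eq_zero.1 h0 with h | h
  · exact clq_dt_ne h12 h
  · exact clq_dt_ne h34 h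

theorem clq_diff {u v x y : VV} (h12 : GG.Adj u v)
    (h13 : GG.Adj u x) (h14 : GG.Adj u y) (h23 : GG.Adj v x) (h24 : GG.Adj v y)
    (h34 : GG.Adj x y) (g12 : u.1 ≠ v.1) (g13 : u.1 ≠ x.1) (g14 : u.1 ≠ y.1) (g23 : v.1 ≠ x.1)
    (g24 : v.1 ≠ y.1) (g34 : x.1 ≠ y.1) : False := by
  haveI : Fact (Nat.Prime 13) := ⟨by norm_num⟩
  have n : ∀ {a b : Pt}, a ≠ b → dt13 a b ≠ 0 := fun {a b} h h0 => h ((dt13_eq_zero _ _).1 h0)
  have hp := clq_pl5 u.2 v.2 x.2 y.2
  rw [clq_of_ne h12 g12, clq_of_ne h13 g13, clq_of_ne h14 g14, clq_of_ne h23 g23,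
    clq_of_ne h24 g24, clq_of_ne h34 g34, ← phi_mul, ← phi_mul, ← phi_mul] at hp
  have hq := clq_pl13 u.1 v.1 x.1 y.1
  have hs : dt13 u.1 v.1 * dt13 x.1 y.1 + dt13 u.1 y.1 * dt13 v.1 x.1 =
      dt13 u.1 x.1 * dt13 v.1 y.1 := by linear_combination hq
  refine phi_add _ _ (mul_ne_zero (n g12) (n g34)) (mul_ne_zero (n g14) (n g23)) ?_ ?_
  · rw [hs]; exact mul_ne_zero (n g13) (n g24)
  · rw [hs]; linear_combination hp

theorem clq_four {u v x y : VV} (h12 : GG.Adj u v)
    (h13 : GG.Adj u x) (h14 : GG.Adj u y) (h23 : GG.Adj v x) (h24 : GG.Adj v y)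
    (h34 : GG.Adj x y) : False := by
  by_cases g12 : u.1 = v.1
  · exact clq_pair g12 h12 h13 h14 h23 h24 h34
  by_cases g13 : u.1 = x.1
  · exact clq_pair g13 h13 h12 h14 h23.symm h34 h24
  by_cases g14 : u.1 = y.1
  · exact clq_pair g14 h14 h12 h13 h24.symm h34.symm h23
  by_cases g23 : v.1 = x.1
  · exact clq_pair g23 h23 h12.symm h24 h13.symm h34 h14
  by_cases g24 : v.1 = y.1
  · exact clq_pair g24 h24 h12.symm h23 h14.symm h34.symm h13
  by_cases g34 : x.1 = y.1
  · exact clq_pair g34 h34 h13.symm h23.symm h14.symm h24.symm h12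
  exact clq_diff h12 h13 h14 h23 h24 h34 g12 g13 g14 g23 g24 g34

/-- The graph has no complete subgraph on four vertices.

Proof. Let `(P i, p i)`, `i = 1, .., 4`, be pairwise adjacent, `d i j = dt5 (p i) (p j)`,
`e i j = dt13 (P i) (P j)`. Both satisfy the Plücker relation
`d12 * d34 - d13 * d24 + d14 * d23 = 0`, `e12 * e34 - e13 * e24 + e14 * e23 = 0` (by `ring`), all
`d i j` are nonzero (`d i j = phi (e i j)` if `P i ≠ P j`, and then `e i j ≠ 0`; `d i j = ± 1` if
`P i = P j`), and `phi` is multiplicative.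
* All `P i` different: with `x = e12 * e34`, `y = e14 * e23` one has `x + y = e13 * e24 ≠ 0`, and
  the Plücker relation for `d` says `phi x + phi y = phi (x + y)`: contradiction (`phi_add`).
* `P 1 = P 2`, and `P 3, P 4` both different from it: `d13 = phi (e13) = phi (e23) = d23` and
  `d14 = d24`, so the relation for `d` gives `d12 * d34 = 0`: contradiction.
* `P 1 = P 2 = P 3 ≠ P 4`: `d14 = d24 = d34 = c ≠ 0` and the relation gives
  `d12 - d13 + d23 = 0`, a sum of three elements `± 1` modulo 5: contradiction.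
* all equal: a sum of three elements `± 1`: contradiction.
(Up to a permutation of the four vertices these are all cases; the statement is symmetric, so state
the first lemma for four pairwise adjacent vertices with an assumption on the `P i`, and use it for
the permuted vertices.) -/
theorem GG_cliqueFree : GG.CliqueFree 4 := by
  intro t ht
  obtain ⟨hc, h4⟩ := ht
  obtain ⟨a, s, has, rfl, hs⟩ := Finset.card_eq_succ.1 h4
  obtain ⟨b, c, d, hbc, hbd, hcd, rfl⟩ := Finset.card_eq_three.1 hs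
  have hab : a ≠ b := by rintro rfl; exact has (by simp)
  have hac : a ≠ c := by rintro rfl; exact has (by simp)
  have had : a ≠ d := by rintro rfl; exact has (by simp)
  have k : ∀ x y : VV, x ∈ insert a ({b, c, d} : Finset VV) →
      y ∈ insert a ({b, c, d} : Finset VV) → x ≠ y → GG.Adj x y :=
    fun x y hx hy hxy => hc (Finset.mem_coe.2 hx) (Finset.mem_coe.2 hy) hxy
  exact clq_four (k a b (by simp) (by simp) hab) (k a c (by simp) (by simp) hac)
    (k a d (by simp) (by simp) had) (k b c (by simp) (by simp) hbc)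
    (k b d (by simp) (by simp) hbd) (k c d (by simp) (by simp) hcd)

end Pool.Agent.Folk330
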