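import Pool.Agent.Folk330.ColDefs
import Pool.Agent.Folk330.Classes

/-!
# Invariance and norm of a colouring (job FK-14)
-/

noncomputable section

namespace Pool.Agent.Folk330

open G2

private theorem c65 : (65 : RR) = 0 := rfl

private theorem cl_neg (x y : RR) : cl (-x) (-y) = cl x y := by
  have h := cl_smul (h := 64) (by decide) x y
  rw [← h]
  congr 1
  · linear_combination -x * c65
  · linear_combination -y * c65

private theorem va_T (g : G2) : va (g * T) = va g := by
  unfold va
  rw [← cl_smul (h := 28) (by decide) g.a g.c]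
  congr 1 <;> simp <;> ring

private theorem vb_T (g : G2) : vb (g * T) = vb g := by
  unfold vb
  rw [← cl_smul (h := 7) (by decide) g.b g.d]
  congr 1 <;> simp <;> ring

private theorem va_w (g : G2) : va (g * w) = vb g := by
  unfold va vb
  rw [← cl_neg g.b g.d]
  congr 1 <;> simp

private theorem vb_w (g : G2) : vb (g * w) = va g := by
  unfold va vb
  congr 1 <;> simp

private theorem va_sg (g : G2) : va (g * sg) = vc g := by
  unfold va vc
  rw [← cl_smul (h := 28) (by decide) (40 * g.a + 26 * g.b)]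
  congr 1
  · simp only [mul_a, sg_a, sg_c]
    linear_combination (-17 * g.a - 11 * g.b) * c65
  · simp only [mul_c, sg_a, sg_c]
    linear_combination (-17 * g.c - 11 * g.d) * c65

private theorem vc_sg (g : G2) : vc (g * sg) = va g := by
  unfold va vc
  rw [← cl_smul (h := 28) (by decide) g.a]
  congr 1
  · simp only [mul_a, mul_b, sg_a, sg_b, sg_c, sg_d]
    linear_combination (14 * g.a + 16 * g.b) * c65
  · simp only [mul_c, mul_d, sg_a, sg_b, sg_c, sg_d]
    linear_combination (14 * g.c + 16 * g.d) * c65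

private theorem va_U (g : G2) : va (g * U) = va g := by
  unfold va U
  congr 1 <;> simp

private theorem vc_U (g : G2) : vc (g * U) = vc g := by
  unfold vc U
  congr 1
  · simp only [mul_a, mul_b, un_a, un_b, un_c, un_d]
    linear_combination (16 * g.a) * c65
  · simp only [mul_c, mul_d, un_a, un_b, un_c, un_d]
    linear_combination (16 * g.c) * c65

/-- Proof: `va (g * T) = va g`, `vb (g * T) = vb g` by `cl_smul` with `28, 7 ∈ Hs`;
`va (g * w) = vb g`, `vb (g * w) = va g` by `cl_smul` with `-1 = 64 ∈ Hs`. -/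
theorem ff_inv (X : Finset VV) (col : VV → VV → ℝ) (hs : ∀ p q, col p q = col q p) :
    Inv1 (ff X col) := by
  refine ⟨fun g => ?_, fun g => ?_⟩
  · unfold ff
    rw [va_T, vb_T]
  · unfold ff
    rw [va_w, vb_w, hs (vb g) (va g)]
    simp only [or_comm]

/-- Proof: `va (g * sg) = vc g` because `15 * a + 13 * b = 28 * (40 * a + 26 * b)`;
`vc (g * sg) = va g` because `40 * (15 * a + 13 * b) + 26 * (13 * a + 20 * b) = 28 * a`;
`va (g * U) = va g`, `vc (g * U) = vc g`. -/
theorem ff'_inv (X : Finset VV) (col : VV → VV → ℝ) (hs : ∀ p q, col p q = col q p) :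
    Inv2 (ff' X col) := by
  refine ⟨fun g => ?_, fun g => ?_⟩
  · unfold ff'
    rw [va_sg, vc_sg, hs (vc g) (va g)]
    simp only [or_comm]
  · unfold ff'
    rw [va_U, vc_U]

/-- The norm is large if `X` is small.

Proof. `ff X col g ^ 2 = 1` unless `va g ∈ X` or `vb g ∈ X`. The number of `g` with `va g ∈ X` is
at most `|G2| / 56` by hypothesis, and the numbers of `g` with `vb g ∈ X`, resp. `vc g ∈ X`, are the
same, by the bijections `g ↦ g * w` (`va (g * w) = vb g`) and `g ↦ g * sg` (`va (g * sg) = vc g`). -/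
theorem norm_bound (X : Finset VV) (col : VV → VV → ℝ) (h1 : ∀ p q, col p q = 1 ∨ col p q = -1)
    (hX : 56 * (Finset.univ.filter (fun g => va g ∈ X)).card ≤ Fintype.card G2) :
    29 * (27 / 28 * (Fintype.card G2 : ℝ)) ≤
      26 * ∑ g, ff X col g ^ 2 + 3 * ∑ g, ff' X col g ^ 2 := by
  set S : ℝ := ∑ g : G2, (if va g ∈ X then (1 : ℝ) else 0) with hS
  have hSc : S = ((Finset.univ.filter (fun g => va g ∈ X)).card : ℝ) := by
    rw [hS, Finset.sum_boole]
  have hS' : 56 * S ≤ (Fintype.card G2 : ℝ) := by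
    rw [hSc]; exact_mod_cast hX
  have hb : ∑ g : G2, (if vb g ∈ X then (1 : ℝ) else 0) = S := by
    rw [hS, ← Equiv.sum_comp (Equiv.mulRight w) (fun g : G2 => if va g ∈ X then (1 : ℝ) else 0)]
    refine Finset.sum_congr rfl fun g _ => ?_
    simp only [Equiv.coe_mulRight, va_w]
  have hc : ∑ g : G2, (if vc g ∈ X then (1 : ℝ) else 0) = S := by
    rw [hS, ← Equiv.sum_comp (Equiv.mulRight sg) (fun g : G2 => if va g ∈ X then (1 : ℝ) else 0)]
    refine Finset.sum_congr rfl fun g _ => ?_
    simp only [Equiv.coe_mulRight, va_sg]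
  have hN : (Fintype.card G2 : ℝ) = ∑ _g : G2, (1 : ℝ) := by simp
  have sq1 : ∀ p q, col p q ^ 2 = 1 := by
    intro p q
    rcases h1 p q with h | h <;> rw [h] <;> norm_num
  have k1 : (Fintype.card G2 : ℝ) - 2 * S ≤ ∑ g, ff X col g ^ 2 := by
    have e : (Fintype.card G2 : ℝ) - 2 * S = ∑ g : G2, ((1 : ℝ) -
        ((if va g ∈ X then (1 : ℝ) else 0) + (if vb g ∈ X then (1 : ℝ) else 0))) := by
      rw [Finset.sum_sub_distrib, Finset.sum_add_distrib, hb, ← hS, ← hN]
      ring
    rw [e]
    refine Finset.sum_le_sum fun g _ => ?_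
    unfold ff
    by_cases ha : va g ∈ X <;> by_cases hb' : vb g ∈ X <;> simp [ha, hb', sq1]
  have k2 : (Fintype.card G2 : ℝ) - 2 * S ≤ ∑ g, ff' X col g ^ 2 := by
    have e : (Fintype.card G2 : ℝ) - 2 * S = ∑ g : G2, ((1 : ℝ) -
        ((if va g ∈ X then (1 : ℝ) else 0) + (if vc g ∈ X then (1 : ℝ) else 0))) := by
      rw [Finset.sum_sub_distrib, Finset.sum_add_distrib, hc, ← hS, ← hN]
      ring
    rw [e]
    refine Finset.sum_le_sum fun g _ => ?_
    unfold ff'
    by_cases ha : va g ∈ X <;> by_cases hb' : vc g ∈ X <;> simp [ha, hb', sq1]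
  linarith

end Pool.Agent.Folk330
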