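import Pool.Agent.Folk330.Basic

/-!
# The triangles
-/

noncomputable section

namespace Pool.Agent.Folk330

open G2

/-- The other two edges of the triangle of the first kind. -/
def Nb3 : G2 := ⟨40, 39, 26, 1, by decide⟩
/-- The other two edges of the triangle of the first kind. -/
def Nb4 : G2 := ⟨40, 39, 26, 14, by decide⟩

/-- A triangle with three edges in the first orbit. -/
def L3 (f : G2 → ℝ) (h : RR) (g : G2) : ℝ := f g + f (g * un h) + f (g * lo h⁻¹)
/-- A triangle with two edges in the first orbit. -/
def Mp (f f' : G2 → ℝ) (g : G2) : ℝ := f g + f' (g * un 26) + f (g * lo 26)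
/-- A triangle with two edges in the first orbit. -/
def Mm (f f' : G2 → ℝ) (g : G2) : ℝ := f g + f' (g * xm) + f (g * lo 39)
/-- A triangle in the second orbit. -/
def N1 (f' : G2 → ℝ) (g : G2) : ℝ := f' g + f' (g * un 26) + f' (g * lo 26)
/-- A triangle in the second orbit. -/
def N2 (f' : G2 → ℝ) (g : G2) : ℝ := f' g + f' (g * xm) + f' (g * lo 39)
/-- A triangle in the second orbit. -/
def N3 (f' : G2 → ℝ) (g : G2) : ℝ := f' g + f' (g * un 39) + f' (g * Nb3)
/-- A triangle in the second orbit. -/
def N4 (f' : G2 → ℝ) (g : G2) : ℝ := f' g + f' (g * km) + f' (g * Nb4)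


end Pool.Agent.Folk330
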