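import Pool.Agent.Folk330.ColDefs
import Pool.Agent.Folk330.Classes
import Pool.Agent.Folk330.FormDefs

/-!
# Triangles of a colouring (job FK-15)
-/

noncomputable section

namespace Pool.Agent.Folk330

open G2

/-- The colouring, zero if an end is in `X`. -/
def cc (X : Finset VV) (col : VV → VV → ℝ) (P Q : VV) : ℝ :=
  if P ∈ X ∨ Q ∈ X then 0 else col P Q

theorem cc_symm (X : Finset VV) (col : VV → VV → ℝ) (hs : ∀ p q, col p q = col q p) (P Q : VV) :
    cc X col P Q = cc X col Q P := by
  unfold cc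
  rw [hs P Q]
  by_cases h1 : P ∈ X <;> by_cases h2 : Q ∈ X <;> simp [h1, h2]

theorem cc_core (X : Finset VV) (col : VV → VV → ℝ)
    (h1 : ∀ p q, col p q = 1 ∨ col p q = -1)
    (htri : ∀ p q r, p ∉ X → q ∉ X → r ∉ X → GG.Adj p q → GG.Adj p r → GG.Adj q r →
      ¬ (col p q = col p r ∧ col p q = col q r)) {P Q R : VV} (hPQ : GG.Adj P Q)
    (hPR : GG.Adj P R) (hQR : GG.Adj Q R) :
    (cc X col P Q + cc X col P R + cc X col Q R) ^ 2 ≤ 1 := by
  have sq1 : ∀ p q, col p q ^ 2 ≤ 1 := fun p q => by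
    rcases h1 p q with h | h <;> rw [h] <;> norm_num
  unfold cc
  by_cases hP : P ∈ X
  · by_cases hQ : Q ∈ X
    · simp [hP, hQ]
    · by_cases hR : R ∈ X
      · simp [hP, hR]
      · simpa [hP, hQ, hR] using sq1 Q R
  · by_cases hQ : Q ∈ X
    · by_cases hR : R ∈ X
      · simp [hQ, hR]
      · simpa [hP, hQ, hR] using sq1 P R
    · by_cases hR : R ∈ X
      · simpa [hP, hQ, hR] using sq1 P Q
      · have h := htri P Q R hP hQ hR hPQ hPR hQR
        simp only [hP, hQ, hR, or_self, if_false]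
        rcases h1 P Q with e1 | e1 <;> rcases h1 P R with e2 | e2 <;>
          rcases h1 Q R with e3 | e3 <;> rw [e1, e2, e3] at h ⊢ <;>
          first
          | (exfalso; exact h ⟨rfl, rfl⟩)
          | norm_num

theorem h65 : (65 : RR) = 0 := by decide

theorem one_mem_Hs : (1 : RR) ∈ Hs := by decide

theorem inv_Hs : ∀ h ∈ Hs, h⁻¹ ∈ Hs ∧ h⁻¹ * h = 1 := by decide +kernel

theorem r13_40 : r13 40 = 1 := by decide +kernel
theorem r13_26 : r13 26 = 0 := by decide +kernel
theorem r13_39 : r13 39 = 0 := by decide +kernel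
theorem r13_14 : r13 14 = 1 := by decide +kernel

theorem adj_1 {x y x' y' : RR} (h : x * y' - x' * y = 1) : GG.Adj (cl x y) (cl x' y') :=
  adj_H (prim_of_det h).1 (prim_of_det h).2 (by rw [h]; exact one_mem_Hs)

theorem ff_eq (X : Finset VV) (col : VV → VV → ℝ) (g : G2) :
    ff X col g = cc X col (va g) (vb g) := rfl

theorem ff'_eq (X : Finset VV) (col : VV → VV → ℝ) (g : G2) :
    ff' X col g = cc X col (va g) (vc g) := rfl

@[simp] theorem Nb3_a : Nb3.a = 40 := rfl
@[simp] theorem Nb3_b : Nb3.b = 39 := rfl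
@[simp] theorem Nb3_c : Nb3.c = 26 := rfl
@[simp] theorem Nb3_d : Nb3.d = 1 := rfl
@[simp] theorem Nb4_a : Nb4.a = 40 := rfl
@[simp] theorem Nb4_b : Nb4.b = 39 := rfl
@[simp] theorem Nb4_c : Nb4.c = 26 := rfl
@[simp] theorem Nb4_d : Nb4.d = 14 := rfl

section facts

variable (g : G2)

theorem prim_a : Prim g.a g.c := (prim_of_det (x' := g.b) (y' := g.d) g.h).1

theorem prim_b : Prim g.b g.d := (prim_of_det (x := g.a) (y := g.c) g.h).2

/-- A column of `g * m`, `m` of determinant one. -/
theorem prim_col (p q r s : RR) (h : p * s - r * q = 1) :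
    Prim (p * g.a + q * g.b) (p * g.c + q * g.d) := by
  refine (prim_of_det (x' := r * g.a + s * g.b) (y' := r * g.c + s * g.d) ?_).1
  linear_combination (p * s - r * q) * g.h + h

/-- Determinants of two columns. -/
theorem det_col (p q r s : RR) :
    (p * g.a + q * g.b) * (r * g.c + s * g.d) - (r * g.a + s * g.b) * (p * g.c + q * g.d) =
      p * s - r * q := by
  linear_combination (p * s - r * q) * g.h

theorem r13_a (p q : RR) (hp : r13 p = 1) (hq : r13 q = 0) (x y : RR) :
    r13 (p * x + q * y) = r13 x := by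
  rw [map_add, map_mul, map_mul, hp, hq]
  ring

/-- Adjacency of two columns which agree modulo 13. -/
theorem adj_col (p q r s : RR) (hp : r13 p = 1) (hq : r13 q = 0) (hr : r13 r = 1)
    (hs : r13 s = 0) (hpr : ∃ u v : RR, p * v - u * q = 1) (hrs : ∃ u v : RR, r * v - u * s = 1)
    (h : p * s - r * q = 26 ∨ p * s - r * q = 39) :
    GG.Adj (cl (p * g.a + q * g.b) (p * g.c + q * g.d))
      (cl (r * g.a + s * g.b) (r * g.c + s * g.d)) := by
  obtain ⟨u, v, h1⟩ := hpr
  obtain ⟨u', v', h2⟩ := hrs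
  refine adj_26 (prim_col g p q u v h1) (prim_col g r s u' v' h2) ?_ ?_ ?_
  · rw [r13_a p q hp hq, r13_a r s hr hs]
  · rw [r13_a p q hp hq, r13_a r s hr hs]
  · rw [det_col]
    exact h

end facts

/-- Each sum over a triangle has square at most one.

Proof. With `col` symmetric, values in `{1, -1}`, and no monochromatic triangle of `GG` outside `X`,
for pairwise adjacent `P, Q, R` the three values (zero if one of the two ends is in `X`) have sum
`s` with `s ^ 2 ≤ 1`: if one vertex is in `X`, at least two of the values are zero; otherwise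
the three values are not all equal. The third vertices are
* `L3 h`: `R = cl (h * a + b) (h * c + d) = vb (g * un h) = va (g * lo h⁻¹)`; determinants
  `(va, vb) = 1`, `(va, R) = 1`, `(R, vb) = h`;
* `Mp`: `R = cl (a + 26 * b) (c + 26 * d)`, `vc (g * un 26) = R`, `va (g * lo 26) = R`;
  determinants `(va, R) = 26` (and congruent modulo 13), `(R, vb) = 1`;
* `Mm`: `R = cl (a + 39 * b) (c + 39 * d)`, `va (g * xm) = R`, `vc (g * xm) = va g`,
  `va (g * lo 39) = R`; determinants `(va, R) = 39`, `(R, vb) = 1`;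
* `N1`: `R = cl (a + 26 * b) ..`, `vc (g * un 26) = R`, `va (g * lo 26) = R`,
  `vc (g * lo 26) = vc g`; determinants `(va, vc) = 26`, `(va, R) = 26`, `(R, vc) = 26`;
* `N2`: `R = cl (a + 39 * b) ..`, `va (g * xm) = R`, `vc (g * xm) = va g`, `va (g * lo 39) = R`,
  `vc (g * lo 39) = vc g`; determinants `(va, R) = 39`, `(R, vc) = 26`;
* `N3`: `R = cl (14 * a + 26 * b) ..`, `vc (g * un 39) = R`, `va (g * Nb3) = vc g`,
  `vc (g * Nb3) = R`; determinants `(va, R) = 26`, `(vc, R) = 26`;
* `N4`: `R = cl (14 * a + 39 * b) ..`, `va (g * km) = R`, `vc (g * km) = va g`,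
  `va (g * Nb4) = vc g`, `vc (g * Nb4) = R`; determinants `(va, R) = 39`, `(vc, R) = 26`. -/
theorem tri_bounds (X : Finset VV) (col : VV → VV → ℝ) (hs : ∀ p q, col p q = col q p)
    (h1 : ∀ p q, col p q = 1 ∨ col p q = -1)
    (htri : ∀ p q r, p ∉ X → q ∉ X → r ∉ X → GG.Adj p q → GG.Adj p r → GG.Adj q r →
      ¬ (col p q = col p r ∧ col p q = col q r)) (g : G2) :
    (∀ h ∈ Hs, L3 (ff X col) h g ^ 2 ≤ 1) ∧ Mp (ff X col) (ff' X col) g ^ 2 ≤ 1 ∧
      Mm (ff X col) (ff' X col) g ^ 2 ≤ 1 ∧ N1 (ff' X col) g ^ 2 ≤ 1 ∧ N2 (ff' X col) g ^ 2 ≤ 1 ∧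
      N3 (ff' X col) g ^ 2 ≤ 1 ∧ N4 (ff' X col) g ^ 2 ≤ 1 := by
  have cs := cc_symm X col hs
  have core : ∀ {P Q R : VV}, GG.Adj P Q → GG.Adj P R → GG.Adj Q R →
      (cc X col P Q + cc X col P R + cc X col Q R) ^ 2 ≤ 1 := fun a b c =>
    cc_core X col h1 htri a b c
  have ea : va g = cl g.a g.c := rfl
  have eb : vb g = cl g.b g.d := rfl
  have ec : vc g = cl (40 * g.a + 26 * g.b) (40 * g.c + 26 * g.d) := rfl
  have ea' : va g = cl (1 * g.a + 0 * g.b) (1 * g.c + 0 * g.d) := by
    rw [ea]; congr 1 <;> ring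
  have adj_ab : GG.Adj (va g) (vb g) := adj_1 g.h
  have n26 : r13 26 = 0 := r13_26
  have n1 : r13 1 = 1 := map_one _
  have n0 : r13 0 = 0 := map_zero _
  have adj_ac : GG.Adj (va g) (vc g) := by
    rw [ea', ec]
    exact adj_col g 1 0 40 26 n1 n0 r13_40 r13_26 ⟨0, 1, by decide⟩ ⟨39, 1, by decide⟩
      (Or.inl (by decide))
  refine ⟨?_, ?_, ?_, ?_, ?_, ?_, ?_⟩
  · intro h hh
    obtain ⟨hi, hi1⟩ := inv_Hs h hh
    unfold L3
    rw [ff_eq, ff_eq, ff_eq]
    have e1 : va (g * un h) = va g := by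
      unfold va; congr 1 <;> simp
    have e2 : vb (g * un h) = cl (h * g.a + g.b) (h * g.c + g.d) := by
      unfold vb; congr 1 <;> simp [mul_comm]
    have e3 : va (g * lo h⁻¹) = cl (h * g.a + g.b) (h * g.c + g.d) := by
      rw [← cl_smul hi (h * g.a + g.b) (h * g.c + g.d)]
      unfold va
      congr 1
      · simp only [mul_a, lo_a, lo_c]
        linear_combination (-g.a) * hi1
      · simp only [mul_c, lo_a, lo_c]
        linear_combination (-g.c) * hi1
    have e4 : vb (g * lo h⁻¹) = vb g := by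
      unfold vb; congr 1 <;> simp
    rw [e1, e2, e3, e4]
    have adj_aR : GG.Adj (va g) (cl (h * g.a + g.b) (h * g.c + g.d)) := by
      rw [ea]
      refine adj_1 ?_
      linear_combination g.h
    have adj_bR : GG.Adj (vb g) (cl (h * g.a + g.b) (h * g.c + g.d)) := by
      refine SimpleGraph.Adj.symm ?_
      rw [eb]
      refine adj_H ?_ (prim_b g) ?_
      · refine (prim_of_det (x := g.a) (y := g.c) ?_).2
        linear_combination g.h
      · have : (h * g.a + g.b) * g.d - g.b * (h * g.c + g.d) = h := by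
          linear_combination h * g.h
        rw [this]
        exact hh
    have := core adj_ab adj_aR adj_bR
    rw [cs (vb g)] at this
    exact this
  · unfold Mp
    rw [ff_eq, ff'_eq, ff_eq]
    have e1 : va (g * un 26) = va g := by
      unfold va; congr 1 <;> simp
    have e2 : vc (g * un 26) = cl (1 * g.a + 26 * g.b) (1 * g.c + 26 * g.d) := by
      unfold vc
      simp only [mul_a, mul_b, mul_c, mul_d, un_a, un_b, un_c, un_d]
      congr 1
      · linear_combination (11 * g.a) * h65
      · linear_combination (11 * g.c) * h65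
    have e3 : va (g * lo 26) = cl (1 * g.a + 26 * g.b) (1 * g.c + 26 * g.d) := by
      unfold va
      simp only [mul_a, mul_c, lo_a, lo_c]
      congr 1 <;> ring
    have e4 : vb (g * lo 26) = vb g := by
      unfold vb; congr 1 <;> simp
    rw [e1, e2, e3, e4]
    have adj_aR : GG.Adj (va g) (cl (1 * g.a + 26 * g.b) (1 * g.c + 26 * g.d)) := by
      rw [ea']
      exact adj_col g 1 0 1 26 n1 n0 n1 n26 ⟨0, 1, by decide⟩ ⟨0, 1, by decide⟩
        (Or.inl (by decide))
    have adj_bR : GG.Adj (vb g) (cl (1 * g.a + 26 * g.b) (1 * g.c + 26 * g.d)) := by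
      refine SimpleGraph.Adj.symm ?_
      rw [eb]
      refine adj_1 ?_
      linear_combination g.h
    have := core adj_ab adj_aR adj_bR
    rw [cs (vb g)] at this
    exact this
  · unfold Mm
    rw [ff_eq, ff'_eq, ff_eq]
    have e1 : va (g * xm) = cl (1 * g.a + 39 * g.b) (1 * g.c + 39 * g.d) := by
      unfold va
      simp only [mul_a, mul_c, xm_a, xm_c]
      congr 1 <;> ring
    have e2 : vc (g * xm) = va g := by
      unfold vc va
      simp only [mul_a, mul_b, mul_c, mul_d, xm_a, xm_b, xm_c, xm_d]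
      congr 1
      · linear_combination (11 * g.a + 40 * g.b) * h65
      · linear_combination (11 * g.c + 40 * g.d) * h65
    have e3 : va (g * lo 39) = cl (1 * g.a + 39 * g.b) (1 * g.c + 39 * g.d) := by
      unfold va
      simp only [mul_a, mul_c, lo_a, lo_c]
      congr 1 <;> ring
    have e4 : vb (g * lo 39) = vb g := by
      unfold vb; congr 1 <;> simp
    rw [e1, e2, e3, e4]
    have adj_aR : GG.Adj (va g) (cl (1 * g.a + 39 * g.b) (1 * g.c + 39 * g.d)) := by
      rw [ea']
      exact adj_col g 1 0 1 39 n1 n0 n1 r13_39 ⟨0, 1, by decide⟩ ⟨0, 1, by decide⟩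
        (Or.inr (by decide))
    have adj_bR : GG.Adj (vb g) (cl (1 * g.a + 39 * g.b) (1 * g.c + 39 * g.d)) := by
      refine SimpleGraph.Adj.symm ?_
      rw [eb]
      refine adj_1 ?_
      linear_combination g.h
    have := core adj_ab adj_aR adj_bR
    rw [cs (vb g), cs (va g) (cl _ _)] at this
    exact this
  · unfold N1
    rw [ff'_eq, ff'_eq, ff'_eq]
    have e1 : va (g * un 26) = va g := by
      unfold va; congr 1 <;> simp
    have e2 : vc (g * un 26) = cl (1 * g.a + 26 * g.b) (1 * g.c + 26 * g.d) := by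
      unfold vc
      simp only [mul_a, mul_b, mul_c, mul_d, un_a, un_b, un_c, un_d]
      congr 1
      · linear_combination (11 * g.a) * h65
      · linear_combination (11 * g.c) * h65
    have e3 : va (g * lo 26) = cl (1 * g.a + 26 * g.b) (1 * g.c + 26 * g.d) := by
      unfold va
      simp only [mul_a, mul_c, lo_a, lo_c]
      congr 1 <;> ring
    have e4 : vc (g * lo 26) = vc g := by
      unfold vc
      simp only [mul_a, mul_b, mul_c, mul_d, lo_a, lo_b, lo_c, lo_d]
      congr 1
      · linear_combination (16 * g.b) * h65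
      · linear_combination (16 * g.d) * h65
    rw [e1, e2, e3, e4]
    have adj_aR : GG.Adj (va g) (cl (1 * g.a + 26 * g.b) (1 * g.c + 26 * g.d)) := by
      rw [ea']
      exact adj_col g 1 0 1 26 n1 n0 n1 n26 ⟨0, 1, by decide⟩ ⟨0, 1, by decide⟩
        (Or.inl (by decide))
    have adj_cR : GG.Adj (vc g) (cl (1 * g.a + 26 * g.b) (1 * g.c + 26 * g.d)) := by
      refine SimpleGraph.Adj.symm ?_
      rw [ec]
      exact adj_col g 1 26 40 26 n1 n26 r13_40 n26 ⟨0, 1, by decide⟩ ⟨39, 1, by decide⟩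
        (Or.inl (by decide))
    have := core adj_ac adj_aR adj_cR
    rw [cs (vc g)] at this
    exact this
  · unfold N2
    rw [ff'_eq, ff'_eq, ff'_eq]
    have e1 : va (g * xm) = cl (1 * g.a + 39 * g.b) (1 * g.c + 39 * g.d) := by
      unfold va
      simp only [mul_a, mul_c, xm_a, xm_c]
      congr 1 <;> ring
    have e2 : vc (g * xm) = va g := by
      unfold vc va
      simp only [mul_a, mul_b, mul_c, mul_d, xm_a, xm_b, xm_c, xm_d]
      congr 1
      · linear_combination (11 * g.a + 40 * g.b) * h65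
      · linear_combination (11 * g.c + 40 * g.d) * h65
    have e3 : va (g * lo 39) = cl (1 * g.a + 39 * g.b) (1 * g.c + 39 * g.d) := by
      unfold va
      simp only [mul_a, mul_c, lo_a, lo_c]
      congr 1 <;> ring
    have e4 : vc (g * lo 39) = vc g := by
      unfold vc
      simp only [mul_a, mul_b, mul_c, mul_d, lo_a, lo_b, lo_c, lo_d]
      congr 1
      · linear_combination (24 * g.b) * h65
      · linear_combination (24 * g.d) * h65
    rw [e1, e2, e3, e4]
    have adj_aR : GG.Adj (va g) (cl (1 * g.a + 39 * g.b) (1 * g.c + 39 * g.d)) := by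
      rw [ea']
      exact adj_col g 1 0 1 39 n1 n0 n1 r13_39 ⟨0, 1, by decide⟩ ⟨0, 1, by decide⟩
        (Or.inr (by decide))
    have adj_cR : GG.Adj (vc g) (cl (1 * g.a + 39 * g.b) (1 * g.c + 39 * g.d)) := by
      refine SimpleGraph.Adj.symm ?_
      rw [ec]
      exact adj_col g 1 39 40 26 n1 r13_39 r13_40 n26 ⟨0, 1, by decide⟩ ⟨39, 1, by decide⟩
        (Or.inl (by decide))
    have := core adj_ac adj_aR adj_cR
    rw [cs (vc g), cs (va g) (cl _ _)] at this
    exact this
  · unfold N3
    rw [ff'_eq, ff'_eq, ff'_eq]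
    have e1 : va (g * un 39) = va g := by
      unfold va; congr 1 <;> simp
    have e2 : vc (g * un 39) = cl (14 * g.a + 26 * g.b) (14 * g.c + 26 * g.d) := by
      unfold vc
      simp only [mul_a, mul_b, mul_c, mul_d, un_a, un_b, un_c, un_d]
      congr 1
      · linear_combination (16 * g.a) * h65
      · linear_combination (16 * g.c) * h65
    have e3 : va (g * Nb3) = vc g := by
      unfold va vc
      simp only [mul_a, mul_c, Nb3_a, Nb3_c]
      congr 1 <;> ring
    have e4 : vc (g * Nb3) = cl (14 * g.a + 26 * g.b) (14 * g.c + 26 * g.d) := by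
      unfold vc
      simp only [mul_a, mul_b, mul_c, mul_d, Nb3_a, Nb3_b, Nb3_c, Nb3_d]
      congr 1
      · linear_combination (40 * g.a + 16 * g.b) * h65
      · linear_combination (40 * g.c + 16 * g.d) * h65
    rw [e1, e2, e3, e4]
    have adj_aR : GG.Adj (va g) (cl (14 * g.a + 26 * g.b) (14 * g.c + 26 * g.d)) := by
      rw [ea']
      exact adj_col g 1 0 14 26 n1 n0 r13_14 n26 ⟨0, 1, by decide⟩ ⟨3, 1, by decide⟩
        (Or.inl (by decide))
    have adj_cR : GG.Adj (vc g) (cl (14 * g.a + 26 * g.b) (14 * g.c + 26 * g.d)) := by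
      rw [ec]
      exact adj_col g 40 26 14 26 r13_40 n26 r13_14 n26 ⟨39, 1, by decide⟩ ⟨3, 1, by decide⟩
        (Or.inl (by decide))
    exact core adj_ac adj_aR adj_cR
  · unfold N4
    rw [ff'_eq, ff'_eq, ff'_eq]
    have e1 : va (g * km) = cl (14 * g.a + 39 * g.b) (14 * g.c + 39 * g.d) := by
      unfold va
      simp only [mul_a, mul_c, km_a, km_c]
      congr 1 <;> ring
    have e2 : vc (g * km) = va g := by
      unfold vc va
      simp only [mul_a, mul_b, mul_c, mul_d, km_a, km_b, km_c, km_d]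
      congr 1
      · linear_combination (19 * g.a + 40 * g.b) * h65
      · linear_combination (19 * g.c + 40 * g.d) * h65
    have e3 : va (g * Nb4) = vc g := by
      unfold va vc
      simp only [mul_a, mul_c, Nb4_a, Nb4_c]
      congr 1 <;> ring
    have e4 : vc (g * Nb4) = cl (14 * g.a + 39 * g.b) (14 * g.c + 39 * g.d) := by
      unfold vc
      simp only [mul_a, mul_b, mul_c, mul_d, Nb4_a, Nb4_b, Nb4_c, Nb4_d]
      congr 1
      · linear_combination (40 * g.a + 21 * g.b) * h65
      · linear_combination (40 * g.c + 21 * g.d) * h65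
    rw [e1, e2, e3, e4]
    have adj_aR : GG.Adj (va g) (cl (14 * g.a + 39 * g.b) (14 * g.c + 39 * g.d)) := by
      rw [ea']
      exact adj_col g 1 0 14 39 n1 n0 r13_14 r13_39 ⟨0, 1, by decide⟩ ⟨2, 1, by decide⟩
        (Or.inr (by decide))
    have adj_cR : GG.Adj (vc g) (cl (14 * g.a + 39 * g.b) (14 * g.c + 39 * g.d)) := by
      rw [ec]
      exact adj_col g 40 26 14 39 r13_40 n26 r13_14 r13_39 ⟨39, 1, by decide⟩ ⟨2, 1, by decide⟩
        (Or.inl (by decide))
    have := core adj_ac adj_aR adj_cR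
    rw [cs (va g) (cl _ _)] at this
    exact this

end Pool.Agent.Folk330
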