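import Pool.Agent.Folk330.Graph

/-!
# Colourings

The vertices of the two base edges, moved by `g`: `va g`, `vb g`, `vc g`. For a set `X` of deleted
vertices and a colouring `col` with values `1, -1`, the functions `ff`, `ff'` on the group.
-/

noncomputable section

namespace Pool.Agent.Folk330

open G2

/-- First vertex. -/
def va (g : G2) : VV := cl g.a g.c
/-- Second vertex of an edge of the first orbit. -/
def vb (g : G2) : VV := cl g.b g.d
/-- Second vertex of an edge of the second orbit. -/
def vc (g : G2) : VV := cl (40 * g.a + 26 * g.b) (40 * g.c + 26 * g.d)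

/-- The colouring on the first orbit, zero on edges which touch `X`. -/
def ff (X : Finset VV) (col : VV → VV → ℝ) (g : G2) : ℝ :=
  if va g ∈ X ∨ vb g ∈ X then 0 else col (va g) (vb g)

/-- The colouring on the second orbit, zero on edges which touch `X`. -/
def ff' (X : Finset VV) (col : VV → VV → ℝ) (g : G2) : ℝ :=
  if va g ∈ X ∨ vc g ∈ X then 0 else col (va g) (vc g)

end Pool.Agent.Folk330
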