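import Pool.Agent.Folk330.Ops
import Pool.Agent.Folk330.FormDefs

/-!
# The quadratic form, one type of triangles (job FK-7)
-/

noncomputable section

namespace Pool.Agent.Folk330

open G2

theorem tri2_shift (F : G2 → ℝ) (a : G2) : ∑ g, F (g * a) = ∑ g, F g :=
  Fintype.sum_equiv (Equiv.mulRight a) _ _ (fun _ => rfl)

theorem tri2_kk1 {k : G2 → ℝ} (hk : Inv1 k) {a b : G2} (h : kk1 (a⁻¹ * b)) (g : G2) :
    k (g * b) = k (g * a) := by
  rw [← hk.kk h (g * a), mul_assoc, mul_inv_cancel_left]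

theorem tri2_kk2 {k : G2 → ℝ} (hk : Inv2 k) {a b : G2} (h : kk2 (a⁻¹ * b)) (g : G2) :
    k (g * b) = k (g * a) := by
  rw [← hk.kk h (g * a), mul_assoc, mul_inv_cancel_left]

theorem tri2_Ts (F : RR → ℝ) : ∑ t ∈ Ts, F (36 * t) = ∑ t ∈ Ts, F t := by
  have h1 : Ts.image (fun t => 36 * t) = Ts := by decide +kernel
  have h2 : Function.Injective (fun t : RR => 36 * t) := by decide +kernel
  conv_rhs => rw [← h1]
  rw [Finset.sum_image (fun x _ y _ h => h2 h)]

theorem tri2_Mm_lo {k k' : G2 → ℝ} (hk' : Inv2 k') (g : G2) :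
    Mm k k' (g * lo 26) = Mp k k' g := by
  unfold Mm Mp
  have h1 : g * lo 26 * lo 39 = g := by
    rw [mul_assoc, show lo 26 * lo 39 = 1 by decide +kernel, mul_one]
  have h2 : k' (g * lo 26 * xm) = k' (g * un 26) := by
    rw [mul_assoc]
    exact tri2_kk2 hk' (by decide +kernel) g
  rw [h1, h2]
  ring

theorem tri2_Mp_lo {k k' : G2 → ℝ} (hk' : Inv2 k') (g : G2) :
    Mp k k' (g * lo 39) = Mm k k' g := by
  unfold Mm Mp
  have h1 : g * lo 39 * lo 26 = g := by
    rw [mul_assoc, show lo 39 * lo 26 = 1 by decide +kernel, mul_one]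
  have h2 : k' (g * lo 39 * un 26) = k' (g * xm) := by
    rw [mul_assoc]
    exact tri2_kk2 hk' (by decide +kernel) g
  rw [h1, h2]
  ring

/-- The part with `f`. -/
theorem tri2_f {f k k' : G2 → ℝ} (hf : Inv1 f) (hk : Inv1 k) :
    2 * ∑ g, f g * (Mp k k' g + Mm k k' g) =
      ∑ g, f g * (4 * k g + ((k (g * un 26) + k (g * un 39)) + (k' (g * un 26) + k' (g * xm)) +
        ((k (g * w * un 26) + k (g * w * un 39)) + (k' (g * w * un 26) + k' (g * w * xm))))) := by
  have h1 : ∑ g, f g * (Mp k k' g + Mm k k' g) =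
      ∑ g, f g * (Mp k k' (g * w) + Mm k k' (g * w)) := by
    rw [← tri2_shift (fun g => f g * (Mp k k' g + Mm k k' g)) w]
    refine Finset.sum_congr rfl (fun g _ => ?_)
    rw [hf.2 g]
  rw [two_mul]
  nth_rw 2 [h1]
  rw [← Finset.sum_add_distrib]
  refine Finset.sum_congr rfl (fun g _ => ?_)
  have a1 : k (g * lo 26) = k (g * w * un 39) := by
    rw [mul_assoc]; exact tri2_kk1 hk (by decide +kernel) g
  have a2 : k (g * lo 39) = k (g * w * un 26) := by
    rw [mul_assoc]; exact tri2_kk1 hk (by decide +kernel) g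
  have a3 : k (g * w * lo 26) = k (g * un 39) := by
    rw [mul_assoc]; exact tri2_kk1 hk (by decide +kernel) g
  have a4 : k (g * w * lo 39) = k (g * un 26) := by
    rw [mul_assoc]; exact tri2_kk1 hk (by decide +kernel) g
  have a5 : k (g * w) = k g := hk.2 g
  unfold Mp Mm
  rw [a1, a2, a3, a4, a5]
  ring

/-- The averaging over thirteen unipotent elements. -/
theorem tri2_avg {f' F : G2 → ℝ} (hf' : Inv2 f') :
    13 * ∑ g, f' g * F g = ∑ g, f' g * ∑ t ∈ Ts, F (g * un (t + 26)) := by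
  have h1 : ∀ t ∈ Ts, ∑ g, f' g * F g = ∑ g, f' g * F (g * un (t + 26)) := by
    intro t ht
    have hk : ∀ t ∈ Ts, kk2 (un (t + 26)) := by decide +kernel
    rw [← tri2_shift (fun g => f' g * F g) (un (t + 26))]
    refine Finset.sum_congr rfl (fun g _ => ?_)
    rw [hf'.kk (hk t ht) g]
  have h2 : ∑ t ∈ Ts, ∑ g, f' g * F g = ∑ t ∈ Ts, ∑ g, f' g * F (g * un (t + 26)) :=
    Finset.sum_congr rfl h1
  rw [Finset.sum_const, card_Ts, nsmul_eq_mul, Finset.sum_comm] at h2
  push_cast at h2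
  rw [h2]
  refine Finset.sum_congr rfl (fun g _ => ?_)
  rw [Finset.mul_sum]

theorem tri2_f1 {f' k k' : G2 → ℝ} (hf' : Inv2 f') (hk : Inv1 k) (hk' : Inv2 k') :
    13 * ∑ g, f' (g * un 26) * Mp k k' g =
      ∑ g, f' g * (13 * k' g + (∑ t ∈ Ts, k (g * un t) + ∑ t ∈ Ts, k (g * sg * un t))) := by
  have h0 : ∑ g, f' (g * un 26) * Mp k k' g = ∑ g, f' g * Mp k k' (g * un 39) := by
    rw [← tri2_shift (fun g => f' g * Mp k k' (g * un 39)) (un 26)]
    refine Finset.sum_congr rfl (fun g _ => ?_)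
    rw [mul_assoc g, show un 26 * un 39 = 1 by decide +kernel, mul_one]
  rw [h0, tri2_avg (F := fun g => Mp k k' (g * un 39)) hf']
  refine Finset.sum_congr rfl (fun g _ => ?_)
  congr 1
  have h1 : ∀ t ∈ Ts, Mp k k' (g * un (t + 26) * un 39) =
      k' g + (k (g * un t) + k (g * sg * un (36 * t))) := by
    intro t ht
    have hk2 : ∀ t ∈ Ts, kk2 (un (t + 26) * un 39 * un 26) := by decide +kernel
    have e1 : ∀ t ∈ Ts, un (t + 26) * un 39 = un t := by decide +kernel
    have e2 : ∀ t ∈ Ts, kk1 ((sg * un (36 * t))⁻¹ * (un t * lo 26)) := by decide +kernel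
    have b1 : k' (g * un (t + 26) * un 39 * un 26) = k' g := by
      rw [mul_assoc, mul_assoc, ← mul_assoc (un (t + 26))]
      exact hk'.kk (hk2 t ht) g
    have b2 : k (g * un (t + 26) * un 39) = k (g * un t) := by
      rw [mul_assoc, e1 t ht]
    have b3 : k (g * un (t + 26) * un 39 * lo 26) = k (g * sg * un (36 * t)) := by
      rw [mul_assoc g, e1 t ht, mul_assoc, mul_assoc g sg]
      exact tri2_kk1 hk (e2 t ht) g
    unfold Mp
    rw [b1, b2, b3]
    ring
  rw [Finset.sum_congr rfl h1, Finset.sum_add_distrib, Finset.sum_add_distrib, Finset.sum_const,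
    card_Ts, nsmul_eq_mul, tri2_Ts (fun t => k (g * sg * un t))]
  push_cast
  ring

theorem tri2_f2 {f' k k' : G2 → ℝ} (hf' : Inv2 f') (hk : Inv1 k) (hk' : Inv2 k') :
    13 * ∑ g, f' (g * xm) * Mm k k' g =
      ∑ g, f' g * (13 * k' g + (∑ t ∈ Ts, k (g * un t) + ∑ t ∈ Ts, k (g * sg * un t))) := by
  have h0 : ∑ g, f' (g * xm) * Mm k k' g = ∑ g, f' g * Mm k k' (g * xm⁻¹) := by
    rw [← tri2_shift (fun g => f' g * Mm k k' (g * xm⁻¹)) xm]
    refine Finset.sum_congr rfl (fun g _ => ?_)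
    rw [mul_inv_cancel_right]
  rw [h0, tri2_avg (F := fun g => Mm k k' (g * xm⁻¹)) hf']
  refine Finset.sum_congr rfl (fun g _ => ?_)
  congr 1
  have h1 : ∀ t ∈ Ts, Mm k k' (g * un (t + 26) * xm⁻¹) =
      k' g + (k (g * un t) + k (g * sg * un (36 * t))) := by
    intro t ht
    have hk2 : ∀ t ∈ Ts, kk2 (un (t + 26)) := by decide +kernel
    have e1 : ∀ t ∈ Ts, kk1 ((sg * un (36 * t))⁻¹ * (un (t + 26) * xm⁻¹)) := by decide +kernel
    have e2 : ∀ t ∈ Ts, kk1 ((un t)⁻¹ * (un (t + 26) * xm⁻¹ * lo 39)) := by decide +kernel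
    have b1 : k' (g * un (t + 26) * xm⁻¹ * xm) = k' g := by
      rw [inv_mul_cancel_right]
      exact hk'.kk (hk2 t ht) g
    have b2 : k (g * un (t + 26) * xm⁻¹) = k (g * sg * un (36 * t)) := by
      rw [mul_assoc, mul_assoc g sg]
      exact tri2_kk1 hk (e1 t ht) g
    have b3 : k (g * un (t + 26) * xm⁻¹ * lo 39) = k (g * un t) := by
      rw [mul_assoc, mul_assoc, ← mul_assoc (un (t + 26))]
      exact tri2_kk1 hk (e2 t ht) g
    unfold Mm
    rw [b1, b2, b3]
    ring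
  rw [Finset.sum_congr rfl h1, Finset.sum_add_distrib, Finset.sum_add_distrib, Finset.sum_const,
    card_Ts, nsmul_eq_mul, tri2_Ts (fun t => k (g * sg * un t))]
  push_cast
  ring

/-- The triangles with two edges in the first orbit.

Proof. Expand the first factors.
* `f g * Mp k k' g` is as it stands.
* `f (g * lo 26) * Mp k k' g`: one has `Mm k k' (g * lo 26) = Mp k k' g` (because
  `lo 26 * lo 39 = 1` and `(un 26)⁻¹ * lo 26 * xm` lies in `kk2`), so after the translation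
  `g ↦ g * lo 26` this becomes `∑_g f g * Mm k k' g`. Similarly `Mp k k' (g * lo 39) = Mm k k' g`.
* So the `f` part is `2 ∑_g f g * (Mp k k' g + Mm k k' g)`, and since `f` is invariant under `w`
  this is `∑_g f g * (Mp k k' g + Mm k k' g + Mp k k' (g * w) + Mm k k' (g * w))`; finally
  `k (g * lo a) = k (g * w * un (-a))`, i.e. `lo 26 * w = w * un 39`, `lo 39 * w = w * un 26`.
* `f' (g * un 26) * Mp k k' g`: after the translation this is `∑_g f' g * Mp k k' (g * un 39)`
  (`(un 26)⁻¹ = un 39`), and `Mp k k' (g * un 39) = k (g * un 39) + k' g + k (g * un 39 * lo 26)`.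
  For every `s` with `5 ∣ s`, `f'` is invariant under `un s` (`un s` is in `kk2`), so the sum is also
  `∑_g f' g * Mp k k' (g * un s * un 39)`, and `Mp k k' (g * un s * un 39) =
  k' g + k (g * un t) + k (g * un t * lo 26)` with `t = s + 39`, which runs over `Ts`. Average over
  the thirteen values of `s`. Finally `k (g * un t * lo 26) = k (g * sg * un (36 * t))` for
  `t ∈ Ts` (`(sg * un (36 * t))⁻¹ * un t * lo 26` is in `kk1`, by `decide` for the thirteen `t`), and
  multiplication by `36` permutes `Ts`.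
* `f' (g * xm) * Mm k k' g`: the same with `xm⁻¹` in place of `un 39`: for `5 ∣ s` and `t = s + 39`
  one has `k (g * un s * xm⁻¹) = k (g * sg * un (36 * t))` and
  `k (g * un s * xm⁻¹ * lo 39) = k (g * un t)`. -/
theorem form_tri2 {f f' k k' : G2 → ℝ} (hf : Inv1 f) (hf' : Inv2 f') (hk : Inv1 k)
    (hk' : Inv2 k') :
    13 * ∑ g, (Mp f f' g * Mp k k' g + Mm f f' g * Mm k k' g) =
      13 * ∑ g, f g * (4 * k g + ((k (g * un 26) + k (g * un 39)) + (k' (g * un 26) + k' (g * xm)) +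
        ((k (g * w * un 26) + k (g * w * un 39)) + (k' (g * w * un 26) + k' (g * w * xm))))) +
      2 * ∑ g, f' g * (13 * k' g + (∑ t ∈ Ts, k (g * un t) + ∑ t ∈ Ts, k (g * sg * un t))) := by
  have c1 : ∑ g, f (g * lo 26) * Mp k k' g = ∑ g, f g * Mm k k' g := by
    rw [← tri2_shift (fun g => f g * Mm k k' g) (lo 26)]
    exact Finset.sum_congr rfl (fun g _ => by rw [tri2_Mm_lo hk'])
  have c2 : ∑ g, f (g * lo 39) * Mm k k' g = ∑ g, f g * Mp k k' g := by
    rw [← tri2_shift (fun g => f g * Mp k k' g) (lo 39)]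
    exact Finset.sum_congr rfl (fun g _ => by rw [tri2_Mp_lo hk'])
  have c3 := tri2_f (k' := k') hf hk
  have c4 := tri2_f1 hf' hk hk'
  have c5 := tri2_f2 hf' hk hk'
  have c0 : ∑ g, (Mp f f' g * Mp k k' g + Mm f f' g * Mm k k' g) =
      (∑ g, f g * (Mp k k' g + Mm k k' g) + ∑ g, f (g * lo 26) * Mp k k' g +
        ∑ g, f (g * lo 39) * Mm k k' g) +
      (∑ g, f' (g * un 26) * Mp k k' g + ∑ g, f' (g * xm) * Mm k k' g) := by
    rw [← Finset.sum_add_distrib, ← Finset.sum_add_distrib, ← Finset.sum_add_distrib,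
      ← Finset.sum_add_distrib]
    refine Finset.sum_congr rfl (fun g _ => ?_)
    rw [Mp, Mm]
    ring
  have c6 : ∑ g, f g * (Mp k k' g + Mm k k' g) = ∑ g, f g * Mp k k' g + ∑ g, f g * Mm k k' g := by
    rw [← Finset.sum_add_distrib]
    exact Finset.sum_congr rfl (fun g _ => by ring)
  rw [← c3, c0, c1, c2]
  rw [two_mul (∑ g, f' g * (13 * k' g + (∑ t ∈ Ts, k (g * un t) + ∑ t ∈ Ts, k (g * sg * un t))))]
  nth_rw 1 [← c4]
  rw [← c5, c6]
  ring

end Pool.Agent.Folk330
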