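import Pool.Agent.Folk330.Ops
import Pool.Agent.Folk330.FormDefs

/-!
# The quadratic form, one type of triangles (job FK-6)
-/

noncomputable section

namespace Pool.Agent.Folk330

open G2

theorem tri3_pow : ∀ h ∈ Hs, h ^ 12 = 1 := by decide +kernel

theorem tri3_pow_mem : ∀ h ∈ Hs, h ^ 11 ∈ Hs := by decide +kernel

theorem tri3_neg_mem : ∀ h ∈ Hs, -h ∈ Hs := by decide +kernel

theorem tri3_om_pow : ∀ h ∈ Hs, om (h ^ 11) = om h := by decide +kernel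

theorem tri3_om_neg (h : RR) : om (-h) = om h := by
  unfold om
  rw [show (-h) ^ 6 = h ^ 6 by ring]

theorem tri3_mul_inv {h : RR} (hh : h ∈ Hs) : h * h⁻¹ = 1 := by
  have h1 := tri3_pow h hh
  refine ZMod.mul_inv_of_unit h ?_
  refine IsUnit.of_mul_eq_one (h ^ 11) ?_
  rw [← h1]
  ring

theorem tri3_inv_eq {h : RR} (hh : h ∈ Hs) : h⁻¹ = h ^ 11 := by
  have h1 := tri3_pow h hh
  have h2 := tri3_mul_inv hh
  calc h⁻¹ = h ^ 12 * h⁻¹ := by rw [h1, one_mul]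
    _ = h ^ 11 * (h * h⁻¹) := by ring
    _ = h ^ 11 := by rw [h2, mul_one]

theorem tri3_inv_mem {h : RR} (hh : h ∈ Hs) : h⁻¹ ∈ Hs := by
  rw [tri3_inv_eq hh]
  exact tri3_pow_mem h hh

theorem tri3_sig_mem {h : RR} (hh : h ∈ Hs) : -h⁻¹ ∈ Hs := tri3_neg_mem _ (tri3_inv_mem hh)

theorem tri3_om_inv {h : RR} (hh : h ∈ Hs) : om h⁻¹ = om h := by
  rw [tri3_inv_eq hh]
  exact tri3_om_pow h hh

theorem tri3_om_sig {h : RR} (hh : h ∈ Hs) : om (-h⁻¹) = om h := by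
  rw [tri3_om_neg, tri3_om_inv hh]

theorem tri3_eq_inv {a b : RR} (ha : a ∈ Hs) (h : a * b = 1) : b = a⁻¹ := by
  have h2 := tri3_mul_inv ha
  calc b = (a * a⁻¹) * b := by rw [h2, one_mul]
    _ = (a * b) * a⁻¹ := by ring
    _ = a⁻¹ := by rw [h, one_mul]

theorem tri3_inv_neg {h : RR} (hh : h ∈ Hs) : (-h)⁻¹ = -h⁻¹ := by
  symm
  refine tri3_eq_inv (tri3_neg_mem h hh) ?_
  rw [neg_mul_neg, tri3_mul_inv hh]

theorem tri3_sig_inv {h : RR} (hh : h ∈ Hs) : (-h⁻¹)⁻¹ = -h := by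
  symm
  refine tri3_eq_inv (tri3_sig_mem hh) ?_
  rw [neg_mul_neg, mul_comm, tri3_mul_inv hh]

theorem tri3_sum_comp (σ : RR → RR) (h1 : ∀ h ∈ Hs, σ h ∈ Hs) (h2 : ∀ h ∈ Hs, σ (σ h) = h)
    (F : RR → ℝ) : ∑ h ∈ Hs, F (σ h) = ∑ h ∈ Hs, F h :=
  Finset.sum_nbij' σ σ h1 h1 h2 h2 (fun _ _ => rfl)

theorem tri3_sum_neg (F : RR → ℝ) : ∑ h ∈ Hs, F (-h) = ∑ h ∈ Hs, F h :=
  tri3_sum_comp (fun h => -h) tri3_neg_mem (fun h _ => neg_neg h) F

theorem tri3_sum_sig (F : RR → ℝ) : ∑ h ∈ Hs, F (-h⁻¹) = ∑ h ∈ Hs, F h :=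
  tri3_sum_comp (fun h => -h⁻¹) (fun _ hh => tri3_sig_mem hh)
    (fun h hh => by
      show -(-h⁻¹)⁻¹ = h
      rw [tri3_sig_inv hh, neg_neg]) F

theorem tri3_sum_mul (x : G2) (F : G2 → ℝ) : ∑ g, F (g * x) = ∑ g, F g :=
  Fintype.sum_equiv (Equiv.mulRight x) _ _ (fun _ => rfl)

theorem tri3_lo_w (a : RR) : lo a * w = w * un (-a) := by
  ext <;> simp

theorem tri3_w_un (h : RR) : w * un h = lo (-h) * w := by
  rw [tri3_lo_w, neg_neg]

theorem tri3_w_lo (a : RR) : w * lo a = un (-a) * w := by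
  ext <;> simp

theorem tri3_un_un (h : RR) : un h * un (-h) = 1 := by
  rw [← un_add, add_neg_cancel]
  rfl

theorem tri3_kk {h : RR} (hh : h ∈ Hs) : kk1 ((lo h⁻¹)⁻¹ * (un h * lo (-h)⁻¹)) := by
  have h2 := tri3_mul_inv hh
  have h3 := tri3_inv_neg hh
  right
  refine ⟨?_, ?_, ?_⟩
  · simp [h3, h2]
  · simp [h3]
    rw [mul_comm, h2]
    ring
  · simpa using hh

/-- Second summand. -/
theorem tri3_L3_un {k : G2 → ℝ} (hk : Inv1 k) {h : RR} (hh : h ∈ Hs) (g : G2) :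
    L3 k (-h) (g * un h) = L3 k h g := by
  unfold L3
  have e1 : g * un h * un (-h) = g := by rw [mul_assoc, tri3_un_un, mul_one]
  have e2 : k (g * un h * lo (-h)⁻¹) = k (g * lo h⁻¹) := by
    rw [← Inv1.kk hk (tri3_kk hh) (g * lo h⁻¹)]
    congr 1
    group
  rw [e1, e2]
  ring

/-- Third summand. -/
theorem tri3_L3_w {k : G2 → ℝ} (hk : Inv1 k) {h : RR} (hh : h ∈ Hs) (g : G2) :
    L3 k h (g * w) = L3 k (-h⁻¹) g := by
  unfold L3
  have e1 : k (g * w * un h) = k (g * lo (-h)) := by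
    rw [mul_assoc, tri3_w_un, ← mul_assoc, hk.2]
  have e2 : k (g * w * lo h⁻¹) = k (g * un (-h⁻¹)) := by
    rw [mul_assoc, tri3_w_lo, ← mul_assoc, hk.2]
  rw [e1, e2, hk.2, tri3_sig_inv hh]
  ring

theorem tri3_S2 {f k : G2 → ℝ} (hk : Inv1 k) :
    ∑ h ∈ Hs, (om h : ℝ) * ∑ g, f (g * un h) * L3 k h g =
      ∑ h ∈ Hs, (om h : ℝ) * ∑ g, f g * L3 k h g := by
  rw [← tri3_sum_neg (fun h => (om h : ℝ) * ∑ g, f g * L3 k h g)]
  refine Finset.sum_congr rfl fun h hh => ?_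
  show _ = (om (-h) : ℝ) * ∑ g, f g * L3 k (-h) g
  rw [tri3_om_neg, ← tri3_sum_mul (un h) (fun g => f g * L3 k (-h) g)]
  congr 1
  refine Finset.sum_congr rfl fun g _ => ?_
  show _ = f (g * un h) * L3 k (-h) (g * un h)
  rw [tri3_L3_un hk hh]

theorem tri3_S3 {f k : G2 → ℝ} (hf : Inv1 f) (hk : Inv1 k) :
    ∑ h ∈ Hs, (om h : ℝ) * ∑ g, f (g * lo h⁻¹) * L3 k h g =
      ∑ h ∈ Hs, (om h : ℝ) * ∑ g, f (g * un h) * L3 k h g := by
  rw [← tri3_sum_sig (fun h => (om h : ℝ) * ∑ g, f (g * un h) * L3 k h g)]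
  refine Finset.sum_congr rfl fun h hh => ?_
  show _ = (om (-h⁻¹) : ℝ) * ∑ g, f (g * un (-h⁻¹)) * L3 k (-h⁻¹) g
  rw [tri3_om_sig hh, ← tri3_sum_mul w (fun g => f (g * lo h⁻¹) * L3 k h g)]
  congr 1
  refine Finset.sum_congr rfl fun g _ => ?_
  show f (g * w * lo h⁻¹) * L3 k h (g * w) = _
  rw [tri3_L3_w hk hh, mul_assoc g w, tri3_w_lo, ← mul_assoc, hf.2]

theorem tri3_om_sum : ∑ h ∈ Hs, om h = 210 := by decide +kernel

theorem tri3_S1 {f k : G2 → ℝ} (hk : Inv1 k) :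
    ∑ h ∈ Hs, (om h : ℝ) * ∑ g, f g * L3 k h g =
      ∑ g, f g * (210 * k g + (∑ h ∈ Hs, (om h : ℝ) * k (g * un h) +
        ∑ h ∈ Hs, (om h : ℝ) * k (g * w * un h))) := by
  have e1 : ∀ g, ∑ h ∈ Hs, (om h : ℝ) * k (g * lo h⁻¹) =
      ∑ h ∈ Hs, (om h : ℝ) * k (g * w * un h) := by
    intro g
    rw [← tri3_sum_sig (fun h => (om h : ℝ) * k (g * w * un h))]
    refine Finset.sum_congr rfl fun h hh => ?_
    show _ = (om (-h⁻¹) : ℝ) * k (g * w * un (-h⁻¹))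
    rw [tri3_om_sig hh, mul_assoc g w, ← tri3_lo_w, ← mul_assoc, hk.2]
  have e2 : ((∑ h ∈ Hs, (om h : ℝ)) : ℝ) = 210 := by
    have := tri3_om_sum
    exact_mod_cast this
  have e3 : ∀ g, ∑ h ∈ Hs, (om h : ℝ) * L3 k h g = 210 * k g +
      (∑ h ∈ Hs, (om h : ℝ) * k (g * un h) + ∑ h ∈ Hs, (om h : ℝ) * k (g * w * un h)) := by
    intro g
    rw [← e1 g, ← e2, Finset.sum_mul, ← Finset.sum_add_distrib, ← Finset.sum_add_distrib]
    refine Finset.sum_congr rfl fun h _ => ?_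
    unfold L3
    ring
  calc ∑ h ∈ Hs, (om h : ℝ) * ∑ g, f g * L3 k h g
      = ∑ h ∈ Hs, ∑ g, f g * ((om h : ℝ) * L3 k h g) := by
        refine Finset.sum_congr rfl fun h _ => ?_
        rw [Finset.mul_sum]
        refine Finset.sum_congr rfl fun g _ => ?_
        ring
    _ = ∑ g, ∑ h ∈ Hs, f g * ((om h : ℝ) * L3 k h g) := Finset.sum_comm
    _ = _ := by
        refine Finset.sum_congr rfl fun g _ => ?_
        rw [← Finset.mul_sum, e3]

/-- The triangles with three edges in the first orbit.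

Proof. Write `S = ∑_g ∑_h om h * L3 f h g * L3 k h g` and expand the first factor in three
summands; it is enough to show that each of the three contributes
`∑_g ∑_h om h * f g * L3 k h g`, because then
`S = 3 ∑_g f g * ∑_h om h * (k g + k (g * un h) + k (g * lo h⁻¹))`, where `∑_h om h = 210` and
`∑_h om h * k (g * lo h⁻¹) = ∑_h om h * k (g * w * un h)` by `lo a * w = w * un (-a)`,
invariance of `k` under `w`, and the substitution `h ↦ -h⁻¹` (which permutes `Hs` and preserves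
`om`).
* Second summand: `L3 k (-h) (g * un h) = L3 k h g`, because
  `un h * un (-h) = 1` and `un h * lo (-h)⁻¹ = lo h⁻¹ * w * diag(h⁻¹, h)` (the last factor is in
  `kk1`); so `∑_g f (g * un h) * L3 k h g = ∑_g f (g * un h) * L3 k (-h) (g * un h) =
  ∑_g f g * L3 k (-h) g`, and `om (-h) = om h`.
* Third summand: `L3 k h (g * w) = L3 k (-h⁻¹) g` for `k` invariant under `w` (`w * un h =
  lo (-h) * w`, `w * lo h⁻¹ = un (-h⁻¹) * w`), and `f (g * lo h⁻¹) = f (g * w * un (-h⁻¹) )` up to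
  invariance; so this summand equals the second one after `g ↦ g * w` and `h ↦ -h⁻¹`. -/
theorem form_tri3 {f k : G2 → ℝ} (hf : Inv1 f) (hk : Inv1 k) :
    ∑ g, ∑ h ∈ Hs, (om h : ℝ) * (L3 f h g * L3 k h g) =
      3 * ∑ g, f g * (210 * k g + (∑ h ∈ Hs, (om h : ℝ) * k (g * un h) +
        ∑ h ∈ Hs, (om h : ℝ) * k (g * w * un h))) := by
  rw [← tri3_S1 (f := f) hk]
  have h3 := tri3_S3 hf hk
  have h2 := tri3_S2 (f := f) hk
  have e : ∑ g, ∑ h ∈ Hs, (om h : ℝ) * (L3 f h g * L3 k h g) =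
      ∑ h ∈ Hs, (om h : ℝ) * ∑ g, f g * L3 k h g +
      ∑ h ∈ Hs, (om h : ℝ) * ∑ g, f (g * un h) * L3 k h g +
      ∑ h ∈ Hs, (om h : ℝ) * ∑ g, f (g * lo h⁻¹) * L3 k h g := by
    rw [Finset.sum_comm, ← Finset.sum_add_distrib, ← Finset.sum_add_distrib]
    refine Finset.sum_congr rfl fun h _ => ?_
    rw [← mul_add, ← mul_add, ← Finset.sum_add_distrib, ← Finset.sum_add_distrib, Finset.mul_sum]
    refine Finset.sum_congr rfl fun g _ => ?_
    unfold L3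
    ring
  rw [e, h3, h2]
  ring

end Pool.Agent.Folk330
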