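import Pool.Agent.Folk330.Tri1
import Pool.Agent.Folk330.Tri2
import Pool.Agent.Folk330.Tri3

/-!
# The quadratic form

The weighted sum over the triangles of the graph, written as a sum over the group.
-/

noncomputable section

namespace Pool.Agent.Folk330

open G2

/-- The polarised identity. -/
theorem form_eq {f f' k k' : G2 → ℝ} (hf : Inv1 f) (hf' : Inv2 f') (hk : Inv1 k)
    (hk' : Inv2 k') :
    26 * ∑ g, f g * A1 k k' g + 3 * ∑ g, f' g * A2 k k' g =
      26 * ∑ g, ∑ h ∈ Hs, (om h : ℝ) * (L3 f h g * L3 k h g) +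
      546 * ∑ g, (Mp f f' g * Mp k k' g + Mm f f' g * Mm k k' g) +
      4 * ∑ g, (6 * (N1 f' g * N1 k' g + N2 f' g * N2 k' g + N3 f' g * N3 k' g) +
        2 * (N4 f' g * N4 k' g)) := by
  have h3 := form_tri3 hf hk
  have h2 := form_tri2 hf hf' hk hk'
  have h1 := form_tri1 hf' hk'
  have e1 : ∑ g, f g * A1 k k' g = 3 * ∑ g, f g * (210 * k g +
      (∑ h ∈ Hs, (om h : ℝ) * k (g * un h) + ∑ h ∈ Hs, (om h : ℝ) * k (g * w * un h))) +
      21 * ∑ g, f g * (4 * k g + ((k (g * un 26) + k (g * un 39)) + (k' (g * un 26) + k' (g * xm)) +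
        ((k (g * w * un 26) + k (g * w * un 39)) + (k' (g * w * un 26) + k' (g * w * xm))))) := by
    rw [Finset.mul_sum, Finset.mul_sum, ← Finset.sum_add_distrib]
    refine Finset.sum_congr rfl fun g _ => ?_
    simp only [A1, Ap]
    ring
  have e2 : ∑ g, f' g * A2 k k' g = 4 * ∑ g, f' g * (20 * k' g +
      ((6 * (k' (g * un 26) + k' (g * xm) + k' (g * un 39)) +
        2 * k' (g * km)) + (6 * (k' (g * sg * un 26) + k' (g * sg * xm) + k' (g * sg * un 39)) +
        2 * k' (g * sg * km)))) +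
      28 * ∑ g, f' g * (13 * k' g + (∑ t ∈ Ts, k (g * un t) + ∑ t ∈ Ts, k (g * sg * un t))) := by
    rw [Finset.mul_sum, Finset.mul_sum, ← Finset.sum_add_distrib]
    refine Finset.sum_congr rfl fun g _ => ?_
    simp only [A2, Bp]
    ring
  rw [e1, e2, h3, h1]
  linarith

/-- The operator is symmetric for the weighted inner product. -/
theorem form_symm {f f' k k' : G2 → ℝ} (hf : Inv1 f) (hf' : Inv2 f') (hk : Inv1 k)
    (hk' : Inv2 k') :
    26 * ∑ g, f g * A1 k k' g + 3 * ∑ g, f' g * A2 k k' g =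
      26 * ∑ g, k g * A1 f f' g + 3 * ∑ g, k' g * A2 f f' g := by
  rw [form_eq hf hf' hk hk', form_eq hk hk' hf hf']
  simp only [mul_comm (L3 f _ _), mul_comm (Mp f _ _), mul_comm (Mm f _ _), mul_comm (N1 f' _),
    mul_comm (N2 f' _), mul_comm (N3 f' _), mul_comm (N4 f' _)]

end Pool.Agent.Folk330
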