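import Pool.Agent.Folk330.ColA
import Pool.Agent.Folk330.ColB
import Pool.Agent.Folk330.Form

/-!
# The energy of a colouring
-/

noncomputable section

namespace Pool.Agent.Folk330

open G2

/-- The energy is small: `form_eq` with equal arguments, and `tri_bounds`;
`26 * 210 + 546 * 2 + 4 * 20 = 6632`. -/
theorem energy_bound (X : Finset VV) (col : VV → VV → ℝ) (hs : ∀ p q, col p q = col q p)
    (h1 : ∀ p q, col p q = 1 ∨ col p q = -1)
    (htri : ∀ p q r, p ∉ X → q ∉ X → r ∉ X → GG.Adj p q → GG.Adj p r → GG.Adj q r →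
      ¬ (col p q = col p r ∧ col p q = col q r)) :
    26 * ∑ g, ff X col g * A1 (ff X col) (ff' X col) g +
      3 * ∑ g, ff' X col g * A2 (ff X col) (ff' X col) g ≤ 6632 * (Fintype.card G2 : ℝ) := by
  have hf := ff_inv X col hs
  have hf' := ff'_inv X col hs
  rw [form_eq hf hf' hf hf']
  have hb := tri_bounds X col hs h1 htri
  have hom : ∑ h ∈ Hs, (om h : ℝ) = 210 := by
    have h : ∑ h ∈ Hs, om h = 210 := by decide +kernel
    exact_mod_cast h
  have e1 : ∑ g, ∑ h ∈ Hs, (om h : ℝ) * (L3 (ff X col) h g * L3 (ff X col) h g) ≤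
      ∑ g : G2, (210 : ℝ) := by
    refine Finset.sum_le_sum fun g _ => ?_
    rw [← hom]
    refine Finset.sum_le_sum fun h hh => ?_
    have := (hb g).1 h hh
    have h0 : (0 : ℝ) ≤ om h := Nat.cast_nonneg _
    nlinarith
  have e2 : ∑ g, (Mp (ff X col) (ff' X col) g * Mp (ff X col) (ff' X col) g +
      Mm (ff X col) (ff' X col) g * Mm (ff X col) (ff' X col) g) ≤ ∑ g : G2, (2 : ℝ) := by
    refine Finset.sum_le_sum fun g _ => ?_
    obtain ⟨-, h2, h3, -⟩ := hb g
    nlinarith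
  have e3 : ∑ g, (6 * (N1 (ff' X col) g * N1 (ff' X col) g + N2 (ff' X col) g * N2 (ff' X col) g +
      N3 (ff' X col) g * N3 (ff' X col) g) + 2 * (N4 (ff' X col) g * N4 (ff' X col) g)) ≤
      ∑ g : G2, (20 : ℝ) := by
    refine Finset.sum_le_sum fun g _ => ?_
    obtain ⟨-, -, -, h4, h5, h6, h7⟩ := hb g
    nlinarith
  rw [Finset.sum_const, Finset.card_univ, nsmul_eq_mul] at e1 e2 e3
  linarith

end Pool.Agent.Folk330
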