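import Mathlib

/-!
# Definitions for the kernel computation
-/

noncomputable section

namespace Pool.Agent.Folk330

/-- A matrix with natural entries. -/
structure MN where
  a : ℕ
  b : ℕ
  c : ℕ
  d : ℕ

/-- A row of the table of the operator: indices of double cosets. -/
structure Row where
  z : ℕ
  p : List ℕ
  q : List ℕ
  r : List ℕ

/-- The witness of a row: a representative and the indices of left factors (packed). -/
structure Wit where
  m : MN
  kp : ℕ
  kq : ℕ
  kr : ℕ

/-- The entry at a position, for kernel evaluation. -/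
def nthr {α : Type} (d : α) (n : ℕ) : List α → α :=
  Nat.rec (motive := fun _ => List α → α)
    (fun l => List.rec (motive := fun _ => α) d (fun a _ _ => a) l)
    (fun _ ih l => List.rec (motive := fun _ => α) d (fun _ t _ => ih t) l) n

/-- The value of the state at an index (the case distinction forces the evaluation of the quotient). -/
def dg (S : List (List ℕ)) (i : ℕ) : ℕ :=
  Nat.rec (motive := fun _ => ℕ) (nthr 0 (Nat.mod i 16) (nthr [] 0 S))
    (fun n _ => nthr 0 (Nat.mod i 16) (nthr [] (Nat.succ n) S)) (Nat.div i 16)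

/-- Sum of the values of the state over a list of indices. -/
def sumd (S : List (List ℕ)) (l : List ℕ) : ℕ :=
  List.rec (motive := fun _ => ℕ) 0 (fun i _ ih => Nat.add (dg S i) ih) l

/-- The new value, first type. -/
def rv1 (S : List (List ℕ)) (r : Row) : ℕ :=
  Nat.add (Nat.mul 714 (dg S r.z)) (Nat.add (Nat.mul 51 (sumd S r.p))
    (Nat.add (Nat.mul 54 (sumd S r.q)) (Nat.mul 21 (sumd S r.r))))

/-- The new value, second type. -/
def rv2 (S : List (List ℕ)) (r : Row) : ℕ :=
  Nat.add (Nat.mul 444 (dg S r.z)) (Nat.add (Nat.mul 24 (sumd S r.p))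
    (Nat.add (Nat.mul 8 (sumd S r.q)) (Nat.mul 28 (sumd S r.r))))

/-- Map over a list, for kernel evaluation. -/
def mapr {α β : Type} (f : α → β) (t : List β) (l : List α) : List β :=
  List.rec (motive := fun _ => List β) t (fun a _ ih => f a :: ih) l

/-- One step. -/
def stp (R1 R2 : List (List Row)) (S : List (List ℕ)) : List (List ℕ) :=
  mapr (mapr (rv1 S) []) (mapr (mapr (rv2 S) []) [] R2) R1

/-- The list of the values at the index `i`. -/
def mls (R1 R2 : List (List Row)) (i n : ℕ) : List (List ℕ) → List ℕ :=
  Nat.rec (motive := fun _ => List (List ℕ) → List ℕ) (fun _ => [])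
    (fun _ ih S => dg S i :: ih (stp R1 R2 S)) n

/-- The iterated step. -/
def itr (R1 R2 : List (List Row)) (n : ℕ) : List (List ℕ) → List (List ℕ) :=
  Nat.rec (motive := fun _ => List (List ℕ) → List (List ℕ)) (fun S => S)
    (fun _ ih S => ih (stp R1 R2 S)) n

end Pool.Agent.Folk330
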