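import Mathlib

/-!
# Existence of a small eigenvalue (job FK-9)

A general lemma of linear algebra, see `eigen_exists` in `Pool/Agent/Folk588/Spectral.lean` for the
same argument in a Euclidean space.

Proof. Make `V` an inner product space with inner product `I` (`InnerProductSpace.Core`; positive
definiteness is `hp`), then `A` is symmetric, take its orthonormal basis of eigenvectors
(`LinearMap.IsSymmetric.eigenvectorBasis`) and expand: `I (A x) x = ∑ λ_i x_i ^ 2`,
`I x x = ∑ x_i ^ 2`; if all `λ_i > c` then `I (A x) x > c * I x x`.
-/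

namespace Pool.Agent.Folk330

theorem eigen_exists {V : Type*} [AddCommGroup V] [Module ℝ V] [FiniteDimensional ℝ V]
    (I : V →ₗ[ℝ] V →ₗ[ℝ] ℝ) (hs : ∀ x y, I x y = I y x) (hp : ∀ x, x ≠ 0 → 0 < I x x)
    (A : V →ₗ[ℝ] V) (hA : ∀ x y, I (A x) y = I x (A y)) (x : V) (hx : x ≠ 0) (c : ℝ)
    (hc : I (A x) x ≤ c * I x x) :
    ∃ lam : ℝ, lam ≤ c ∧ ∃ v : V, v ≠ 0 ∧ A v = lam • v := by
  classical
  let core : InnerProductSpace.Core ℝ V :=
    { inner := fun u v => I u v
      conj_inner_symm := fun u v => by
        simp only [conj_trivial]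
        exact hs v u
      re_inner_nonneg := fun u => by
        simp only [RCLike.re_to_real]
        by_cases hu : u = 0
        · subst hu
          simp
        · exact (hp u hu).le
      add_left := fun u v w => by simp
      smul_left := fun u v r => by simp
      definite := fun u hu => by
        by_contra h
        exact absurd hu (hp u h).ne' }
  let _ : NormedAddCommGroup V := core.toNormedAddCommGroup
  let _ : InnerProductSpace ℝ V := InnerProductSpace.ofCore core.toCore
  have hin : ∀ u v : V, inner ℝ u v = I u v := fun _ _ => rfl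
  have hsym : A.IsSymmetric := fun u v => hA u v
  by_contra hcon
  push Not at hcon
  let b := hsym.eigenvectorBasis rfl
  have hlam : ∀ i, c < hsym.eigenvalues rfl i := by
    intro i
    by_contra h
    push Not at h
    refine hcon _ h (b i) ?_ ?_
    · exact b.toBasis.ne_zero i |> fun h => by simpa using h
    · exact hsym.apply_eigenvectorBasis rfl i
  have h1 : I (A x) x = ∑ i, hsym.eigenvalues rfl i * (inner ℝ (b i) x) ^ 2 := by
    rw [← hin, ← b.sum_inner_mul_inner (A x) x]
    refine Finset.sum_congr rfl fun i _ => ?_
    have : inner ℝ (A x) (b i) = hsym.eigenvalues rfl i * inner ℝ (b i) x := by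
      rw [hsym x (b i), hsym.apply_eigenvectorBasis rfl i, inner_smul_right, real_inner_comm]
      rfl
    rw [this]
    ring
  have h2 : I x x = ∑ i, (inner ℝ (b i) x) ^ 2 := by
    rw [← hin, ← b.sum_inner_mul_inner x x]
    refine Finset.sum_congr rfl fun i _ => ?_
    rw [real_inner_comm x (b i)]
    ring
  have h3 : c * I x x < I (A x) x := by
    rw [h1, h2, Finset.mul_sum]
    refine Finset.sum_lt_sum (fun i _ => mul_le_mul_of_nonneg_right (hlam i).le (sq_nonneg _)) ?_
    by_contra hall
    push Not at hall
    have h0 : ∀ i, inner ℝ (b i) x = 0 := by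
      intro i
      have := hall i (Finset.mem_univ i)
      by_contra hne
      have hpos : 0 < (inner ℝ (b i) x) ^ 2 := by positivity
      nlinarith [hlam i]
    have : I x x = 0 := by rw [h2]; simp [h0]
    exact absurd this (hp x hx).ne'
  linarith

end Pool.Agent.Folk330
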