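import Pool.Agent.Folk330.ColDefs

/-!
# A small set of six vertices (job FK-16)
-/

noncomputable section

namespace Pool.Agent.Folk330

open G2

/-- There is a set of six vertices with at most its share of the group.

Proof: `VV ≃ Fin 56 × Fin 6` (`Fintype.equivFinOfCardEq`, `finProdFinEquiv`); for `i : Fin 56` let
`X i` be the six vertices in block `i`; the sum over `i` of
`#{g | va g ∈ X i}` is `|G2|`, so some block has at most `|G2| / 56`
(`Finset.exists_le_of_sum_le`). -/
theorem exists_X : ∃ X : Finset VV, X.card = 6 ∧
    56 * (Finset.univ.filter (fun g => va g ∈ X)).card ≤ Fintype.card G2 := by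
  classical
  have hc : Fintype.card VV = Fintype.card (Fin 56 × Fin 6) := by
    rw [card_VV]; simp
  let e : VV ≃ Fin 56 × Fin 6 := Fintype.equivOfCardEq hc
  let X : Fin 56 → Finset VV := fun i => Finset.univ.filter (fun v => (e v).1 = i)
  have hX : ∀ i, (X i).card = 6 := by
    intro i
    have hinj : Function.Injective (fun j : Fin 6 => e.symm (i, j)) := by
      intro j j' h
      have h0 : (i, j) = (i, j') := Equiv.injective e.symm h
      exact (Prod.mk.inj h0).2
    have h1 : X i = (Finset.univ : Finset (Fin 6)).image (fun j => e.symm (i, j)) := by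
      ext v
      simp only [X, Finset.mem_filter, Finset.mem_univ, true_and, Finset.mem_image]
      constructor
      · intro h
        refine ⟨(e v).2, ?_⟩
        rw [Equiv.symm_apply_eq, ← h]
      · rintro ⟨j, rfl⟩
        rw [Equiv.apply_symm_apply]
    rw [h1, Finset.card_image_of_injective _ hinj]
    simp
  have hsum : ∑ i, (Finset.univ.filter (fun g => va g ∈ X i)).card = Fintype.card G2 := by
    have h2 := Finset.card_eq_sum_card_fiberwise (s := (Finset.univ : Finset G2))
      (t := (Finset.univ : Finset (Fin 56))) (f := fun g => (e (va g)).1)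
      (fun g _ => Finset.mem_univ _)
    rw [Finset.card_univ] at h2
    rw [h2]
    refine Finset.sum_congr rfl (fun i _ => ?_)
    congr 1
    ext g
    simp [X]
  by_contra hne
  push Not at hne
  have h3 : ∀ i, Fintype.card G2 < 56 * (Finset.univ.filter (fun g => va g ∈ X i)).card :=
    fun i => hne (X i) (hX i)
  have h4 : ∑ _i : Fin 56, Fintype.card G2
      < ∑ i, 56 * (Finset.univ.filter (fun g => va g ∈ X i)).card :=
    Finset.sum_lt_sum_of_nonempty ⟨0, Finset.mem_univ _⟩ (fun i _ => h3 i)
  rw [← Finset.mul_sum, hsum] at h4
  simp at h4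

end Pool.Agent.Folk330
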