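import Pool.Agent.Folk330.NotUnion
import Pool.Agent.Folk330.ExX
import Pool.Agent.Folk330.Clique

/-!
# The graph on 330 vertices (job FK-17)
-/

noncomputable section

namespace Pool.Agent.Folk330

open G2

/-- `G` is a union of two triangle-free graphs. -/
def IsUnionOfTwoTriangleFree {V : Type*} (G : SimpleGraph V) : Prop :=
  ∃ G₁ G₂ : SimpleGraph V, G₁.CliqueFree 3 ∧ G₂.CliqueFree 3 ∧ G₁ ⊔ G₂ = G

/-- Proof: `V' = {v // v ∉ X}` has 330 elements; take `e : V' ≃ Fin 330` and
`G = GG.comap (fun i => (e.symm i : VV))`. A decomposition `G₁, G₂` of `G` gives two graphs on `VV`: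
`SimpleGraph.map` under the embedding `i ↦ (e.symm i : VV)`; they are triangle-free, and cover the
edges of `GG` outside `X`; apply `not_union`. -/
theorem exists_graph :
    ∃ G : SimpleGraph (Fin 330), G.CliqueFree 4 ∧ ¬ IsUnionOfTwoTriangleFree G := by
  classical
  obtain ⟨X, hX6, hX⟩ := exists_X
  have hcard : Fintype.card {v : VV // v ∉ X} = 330 := by
    have h1 : Fintype.card {v : VV // v ∉ X} = Fintype.card VV - X.card := by
      rw [Fintype.card_subtype, ← Finset.card_compl]
      congr 1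
      ext v
      simp
    rw [h1, hX6, card_VV]
  let e : {v : VV // v ∉ X} ≃ Fin 330 := Fintype.equivFinOfCardEq hcard
  let emb : Fin 330 ↪ VV := e.symm.toEmbedding.trans (Function.Embedding.subtype _)
  have hemb : ∀ i, emb i = (e.symm i : VV) := fun i => rfl
  have hsurj : ∀ p, p ∉ X → ∃ i, emb i = p := by
    intro p hp
    refine ⟨e ⟨p, hp⟩, ?_⟩
    rw [hemb, Equiv.symm_apply_apply]
  refine ⟨GG.comap emb, GG_cliqueFree.comap ⟨(SimpleGraph.Embedding.comap emb GG).toCopy⟩, ?_⟩
  rintro ⟨G₁, G₂, h1, h2, h⟩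
  refine not_union X hX (G₁.map emb) (G₂.map emb) (SimpleGraph.cliqueFree_map_iff.2 h1)
    (SimpleGraph.cliqueFree_map_iff.2 h2) ?_
  intro p q hp hq hpq
  obtain ⟨i, rfl⟩ := hsurj p hp
  obtain ⟨j, rfl⟩ := hsurj q hq
  have h3 : (G₁ ⊔ G₂).Adj i j := by
    rw [h]
    exact hpq
  rcases h3 with h3 | h3
  · left
    exact (SimpleGraph.map_adj_apply).2 h3
  · right
    exact (SimpleGraph.map_adj_apply).2 h3

end Pool.Agent.Folk330
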