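import Pool.Agent.Folk330.Basic

/-!
# The graph on 336 vertices

A vertex is a point of the projective line over the field with 13 elements together with a nonzero
vector over the field with 5 elements. Vertices over different points are adjacent when the
determinant of their vectors is the image under `phi` of the determinant of the points; vertices
over the same point are adjacent when the determinant of their vectors is `1` or `-1`.
-/

noncomputable section

namespace Pool.Agent.Folk330

open G2

/-- The character of order 4 modulo 13 with values modulo 5, with `phi 2 = 3`. -/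
def phi (x : ZMod 13) : ZMod 5 :=
  if x = 0 then 0 else if x ^ 3 = 1 then 1 else if x ^ 3 = 8 then 3 else if x ^ 3 = 12 then 4 else 2

theorem phi_mul : ∀ x y, phi (x * y) = phi x * phi y := by decide +kernel

theorem phi_ne_zero : ∀ x, x ≠ 0 → phi x ≠ 0 := by decide +kernel

theorem phi_neg : ∀ x, phi (-x) = -phi x := by decide +kernel

theorem phi_sq : ∀ x, x ≠ 0 → phi x ^ 2 = 1 ∨ phi x ^ 2 = 4 := by decide +kernel

/-- The image of `phi` is sum-free in the twisted sense. -/
theorem phi_add : ∀ x y, x ≠ 0 → y ≠ 0 → x + y ≠ 0 → phi x + phi y ≠ phi (x + y) := by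
  decide +kernel

/-- Points of the projective line. -/
abbrev Pt := Option (ZMod 13)
/-- Nonzero vectors. -/
abbrev Vc := {p : ZMod 5 × ZMod 5 // p ≠ 0}
/-- The vertices. -/
abbrev VV := Pt × Vc

theorem card_VV : Fintype.card VV = 336 := by
  have h : Fintype.card Vc = 24 := by decide +kernel
  rw [Fintype.card_prod, h, Fintype.card_option, ZMod.card]

/-- The representative of a point. -/
def zv : Pt → ZMod 13 × ZMod 13
  | some t => (t, 1)
  | none => (1, 0)

/-- The determinant of two points. -/
def dt13 (P Q : Pt) : ZMod 13 := (zv P).1 * (zv Q).2 - (zv Q).1 * (zv P).2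

/-- The determinant of two vectors. -/
def dt5 (p q : ZMod 5 × ZMod 5) : ZMod 5 := p.1 * q.2 - q.1 * p.2

theorem dt13_eq_zero : ∀ P Q, dt13 P Q = 0 ↔ P = Q := by decide +kernel

/-- The adjacency relation. -/
def adjR (u v : VV) : Prop :=
  (u.1 ≠ v.1 ∧ dt5 u.2 v.2 = phi (dt13 u.1 v.1)) ∨
    (u.1 = v.1 ∧ (dt5 u.2 v.2 = 1 ∨ dt5 u.2 v.2 = 4))

/-- The graph. -/
def GG : SimpleGraph VV where
  Adj := adjR
  symm := by
    constructor
    rintro u v h
    have h5 : dt5 v.2 u.2 = -dt5 u.2 v.2 := by unfold dt5; ring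
    have h13 : dt13 v.1 u.1 = -dt13 u.1 v.1 := by unfold dt13; ring
    rcases h with ⟨h1, h2⟩ | ⟨h1, h2⟩
    · left
      exact ⟨h1.symm, by rw [h5, h13, phi_neg, h2]⟩
    · right
      refine ⟨h1.symm, ?_⟩
      rw [h5]
      rcases h2 with h2 | h2
      · right; rw [h2]; decide
      · left; rw [h2]; decide
  loopless := by
    constructor
    rintro u h
    rcases h with ⟨h1, -⟩ | ⟨-, h2⟩
    · exact h1 rfl
    · have h5 : dt5 u.2 u.2 = 0 := by unfold dt5; ring
      rw [h5] at h2
      revert h2
      decide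

/-! ### Classes of vectors -/

/-- Reduction modulo 13. -/
def r13 : RR →+* ZMod 13 := ZMod.castHom (by norm_num) (ZMod 13)
/-- Reduction modulo 5. -/
def r5 : RR →+* ZMod 5 := ZMod.castHom (by norm_num) (ZMod 5)

/-- A vector with a default value for zero. -/
def mkV (p : ZMod 5 × ZMod 5) : Vc := if h : p ≠ 0 then ⟨p, h⟩ else ⟨(1, 0), by decide⟩

/-- The vertex of a vector over `ℤ/65`. -/
def cl (x y : RR) : VV :=
  if r13 y = 0 then (none, mkV ((phi (r13 x))⁻¹ * r5 x, (phi (r13 x))⁻¹ * r5 y))
  else (some (r13 x * (r13 y)⁻¹), mkV ((phi (r13 y))⁻¹ * r5 x, (phi (r13 y))⁻¹ * r5 y))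

/-- Vectors which are nonzero modulo 5 and modulo 13. -/
def Prim (x y : RR) : Prop := (r5 x, r5 y) ≠ 0 ∧ (r13 x, r13 y) ≠ 0

end Pool.Agent.Folk330
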