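import Pool.Agent.Folk330.Step

/-!
# The iteration on the table computes the iterates of the operator
-/

noncomputable section

namespace Pool.Agent.Folk330

open G2

/-- The table is correct. -/
structure TabOk (W : List (List Wit)) (K : List (List MN)) (n1 off n2 : ℕ) (P : G2 → Prop)
    (R1 R2 : List (List Row)) : Prop where
  w : WOk W
  k : KOk P K
  r1 : ∀ i, i < n1 → chkr W K n1 off n2 nP1 nQ1 nR1 (lk dR R1 i) (lk dW W i) i = true
  r2 : ∀ i, off ≤ i → i < n2 →
    chkr W K n1 off n2 nP2 nQ2 nR2 (lk dR R2 (i - off)) (lk dW W i) i = true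
  l1 : ∀ i, i < n1 → i % 16 < (nthr [] (i / 16) R1).length
  l2 : ∀ i, i < n2 - off → i % 16 < (nthr [] (i / 16) R2).length
  ln : n1 ≤ off
  lo : off = 16 * R1.length

theorem mapr_eq {α β : Type} (f : α → β) (t : List β) (l : List α) :
    mapr f t l = l.map f ++ t := by
  induction l with
  | nil => rfl
  | cons a l ih => exact congrArg _ ih

theorem stp_eq (R1 R2 : List (List Row)) (S : List (List ℕ)) :
    stp R1 R2 S = R1.map (fun l => l.map (rv1 S)) ++ R2.map (fun l => l.map (rv2 S)) := by
  have h1 : mapr (rv1 S) [] = fun l => l.map (rv1 S) := by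
    funext l
    rw [mapr_eq, List.append_nil]
  have h2 : mapr (rv2 S) [] = fun l => l.map (rv2 S) := by
    funext l
    rw [mapr_eq, List.append_nil]
  unfold stp
  rw [h1, h2, mapr_eq, mapr_eq, List.append_nil]

theorem nthr_map_lt {α β : Type} (g : α → β) (b : β) (d : α) (n : ℕ) (l : List α)
    (h : n < l.length) : nthr b n (l.map g) = g (nthr d n l) := by
  induction n generalizing l with
  | zero =>
    cases l with
    | nil => exact absurd h (by simp)
    | cons a t => rfl
  | succ n ih =>
    cases l with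
    | nil => exact absurd h (by simp)
    | cons a t => exact ih t (by simpa using h)

theorem nthr_append_left {α : Type} (d : α) (n : ℕ) (l l' : List α) (h : n < l.length) :
    nthr d n (l ++ l') = nthr d n l := by
  induction n generalizing l with
  | zero =>
    cases l with
    | nil => exact absurd h (by simp)
    | cons a t => rfl
  | succ n ih =>
    cases l with
    | nil => exact absurd h (by simp)
    | cons a t => exact ih t (by simpa using h)

theorem nthr_append_right {α : Type} (d : α) (n : ℕ) (l l' : List α) :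
    nthr d (l.length + n) (l ++ l') = nthr d n l' := by
  induction l with
  | nil => rw [List.length_nil, Nat.zero_add]; rfl
  | cons a t ih =>
    rw [List.length_cons, show t.length + 1 + n = (t.length + n) + 1 by ring]
    exact ih

section

variable {W : List (List Wit)} {K : List (List MN)} {n1 off n2 : ℕ} {P : G2 → Prop}
  {R1 R2 : List (List Row)} {f f' : G2 → ℕ} {S : List (List ℕ)}

theorem dg_stp1 (hT : TabOk W K n1 off n2 P R1 R2) {i : ℕ} (hi : i < n1) :
    dg (stp R1 R2 S) i = rv1 S (lk dR R1 i) := by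
  have hl := hT.l1 i hi
  have h1 : i / 16 < R1.length := by
    have := hT.ln
    have := hT.lo
    omega
  rw [dg_eq, stp_eq, lk_eq, nthr_append_left _ _ _ _ (by rw [List.length_map]; exact h1),
    nthr_map_lt _ _ [] _ _ h1, nthr_map_lt _ _ dR _ _ hl]

theorem dg_stp2 (hT : TabOk W K n1 off n2 P R1 R2) {i : ℕ} (hi : off ≤ i) (hi' : i < n2) :
    dg (stp R1 R2 S) i = rv2 S (lk dR R2 (i - off)) := by
  obtain ⟨j, rfl⟩ : ∃ j, i = off + j := ⟨i - off, by omega⟩
  have hl := hT.l2 j (by omega)
  have ho := hT.lo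
  have e1 : (off + j) / 16 = R1.length + j / 16 := by omega
  have e2 : (off + j) % 16 = j % 16 := by omega
  have h1 : j / 16 < R2.length := by
    by_contra hcon
    have : nthr [] (j / 16) R2 = [] := by
      clear e1 e2 hl
      generalize j / 16 = q at hcon
      induction q generalizing R2 with
      | zero =>
        cases R2 with
        | nil => rfl
        | cons a t => exact absurd (by simp) hcon
      | succ q ih =>
        cases R2 with
        | nil => rfl
        | cons a t =>
          show nthr [] q t = []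
          clear hT
          have hc : ¬ q < t.length := by simpa using hcon
          clear hcon ih
          induction q generalizing t with
          | zero =>
            cases t with
            | nil => rfl
            | cons a t => exact absurd (by simp) hc
          | succ q ih =>
            cases t with
            | nil => rfl
            | cons a t => exact ih t (by simpa using hc)
    rw [this] at hl
    exact absurd hl (by simp)
  have e3 := nthr_append_right [] (j / 16) (R1.map (fun l => l.map (rv1 S)))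
    (R2.map (fun l => l.map (rv2 S)))
  rw [List.length_map] at e3
  rw [dg_eq, stp_eq, lk_eq, e1, e2, e3, Nat.add_sub_cancel_left,
    nthr_map_lt _ _ [] _ _ h1, nthr_map_lt _ _ dR _ _ hl]

theorem good_step (hT : TabOk W K n1 off n2 P R1 R2) (hf : Inv1 f) (hf' : Inv2 f')
    (hl : LInv P f) (hl' : LInv P f') (hS : Good W n1 off n2 f f' S) :
    Good W n1 off n2 (A1 f f') (A2 f f') (stp R1 R2 S) := by
  intro c i hi
  have hw := hT.w i
  cases c
  · have h0 : (Nat.ble off i && Nat.ble (i + 1) n2) = true := hi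
    rw [Bool.and_eq_true, Nat.ble_eq, Nat.ble_eq] at h0
    rw [dg_stp2 hT h0.1 h0.2]
    have h := hT.r2 i h0.1 h0.2
    unfold chkr at h
    simp only [Bool.and_eq_true] at h
    obtain ⟨a1, a2, a3, a4, a5⟩ := h
    have hz := Nat.eq_of_beq_eq_true a1
    show 444 * dg S _ + (24 * sumd S _ + (8 * sumd S _ + 28 * sumd S _)) = A2 f f' _
    rw [chkl_sound hT.w hT.k hf hf' hl hl' hS hw nP2 nP2_ok _ _ a3,
      chkl_sound hT.w hT.k hf hf' hl hl' hS hw nQ2 nQ2_ok _ _ a4,
      chkl_sound hT.w hT.k hf hf' hl hl' hS hw nR2 nR2_ok _ _ a5, hz, hS false i hi, A2_list]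
    rfl
  · have h0 : Nat.ble (i + 1) n1 = true := hi
    rw [Nat.ble_eq] at h0
    rw [dg_stp1 hT h0]
    have h := hT.r1 i h0
    unfold chkr at h
    simp only [Bool.and_eq_true] at h
    obtain ⟨a1, a2, a3, a4, a5⟩ := h
    have hz := Nat.eq_of_beq_eq_true a1
    show 714 * dg S _ + (51 * sumd S _ + (54 * sumd S _ + 21 * sumd S _)) = A1 f f' _
    rw [chkl_sound hT.w hT.k hf hf' hl hl' hS hw nP1 nP1_ok _ _ a3,
      chkl_sound hT.w hT.k hf hf' hl hl' hS hw nQ1 nQ1_ok _ _ a4,
      chkl_sound hT.w hT.k hf hf' hl hl' hS hw nR1 nR1_ok _ _ a5, hz, hS true i hi, A1_list]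
    rfl

/-- A sequence of iterates. -/
structure Seq (P : G2 → Prop) (y : ℕ → (G2 → ℕ) × (G2 → ℕ)) : Prop where
  s : ∀ n, y (n + 1) = (A1 (y n).1 (y n).2, A2 (y n).1 (y n).2)
  i : ∀ n, Inv1 (y n).1 ∧ Inv2 (y n).2
  l : ∀ n, LInv P (y n).1 ∧ LInv P (y n).2

theorem seq_y1 : Seq kk1 y1 := ⟨fun _ => rfl, y1_inv, y1_left⟩

theorem seq_y2 : Seq kk2 y2 := ⟨fun _ => rfl, y2_inv, y2_left⟩

theorem itr_good (hT : TabOk W K n1 off n2 P R1 R2) {y : ℕ → (G2 → ℕ) × (G2 → ℕ)} (hy : Seq P y)
    (n : ℕ) : ∀ (k : ℕ) (S : List (List ℕ)), Good W n1 off n2 (y k).1 (y k).2 S →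
      Good W n1 off n2 (y (k + n)).1 (y (k + n)).2 (itr R1 R2 n S) := by
  induction n with
  | zero => intro k S h; exact h
  | succ n ih =>
    intro k S h
    have h1 := good_step hT (hy.i k).1 (hy.i k).2 (hy.l k).1 (hy.l k).2 h
    have h2 := ih (k + 1) (stp R1 R2 S) (by rw [hy.s k]; exact h1)
    rw [show k + 1 + n = k + (n + 1) by ring] at h2
    exact h2

theorem mls_good (hT : TabOk W K n1 off n2 P R1 R2) {y : ℕ → (G2 → ℕ) × (G2 → ℕ)} (hy : Seq P y)
    {c : Bool} {i0 : ℕ} (hi : rng n1 off n2 c i0 = true)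
    (n : ℕ) : ∀ (k : ℕ) (S : List (List ℕ)), Good W n1 off n2 (y k).1 (y k).2 S →
      ∀ j, j < n → (mls R1 R2 i0 n S).getD j 0 =
        vf (y (k + j)).1 (y (k + j)).2 c (toG (lk dW W i0).m) := by
  induction n with
  | zero => intro k S h j hj; omega
  | succ n ih =>
    intro k S h j hj
    have h1 := good_step hT (hy.i k).1 (hy.i k).2 (hy.l k).1 (hy.l k).2 h
    cases j with
    | zero => exact h c i0 hi
    | succ j =>
      have h2 := ih (k + 1) (stp R1 R2 S) (by rw [hy.s k]; exact h1) j (by omega)
      rw [show k + 1 + j = k + (j + 1) by ring] at h2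
      exact h2

end

theorem nthr_prop {α : Type} (Q : α → Prop) (d : α) (hd : Q d) (n : ℕ) (l : List α)
    (h : ∀ x ∈ l, Q x) : Q (nthr d n l) := by
  induction n generalizing l with
  | zero =>
    cases l with
    | nil => exact hd
    | cons a t => exact h a (List.mem_cons_self ..)
  | succ n ih =>
    cases l with
    | nil => exact hd
    | cons a t => exact ih t fun x hx => h x (List.mem_cons_of_mem _ hx)

theorem lk_prop {α : Type} (Q : α → Prop) (d : α) (hd : Q d) (K : List (List α))
    (h : ∀ l ∈ K, ∀ x ∈ l, Q x) (j : ℕ) : Q (lk d K j) := by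
  rw [lk_eq]
  refine nthr_prop Q d hd _ _ ?_
  exact nthr_prop (fun l : List α => ∀ x ∈ l, Q x) [] (by simp) _ _ h

end Pool.Agent.Folk330
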