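import Pool.Agent.Folk330.TabA
import Pool.Agent.Folk330.StA1

/-!
# Moments, kernel computation, part 0 (generated)
-/

noncomputable section

namespace Pool.Agent.Folk330

theorem momA0 : mls tabA1 tabA2 0 11 [[1]] = [
    1, 714, 580116, 517564908, 499538079744, 520282267569876, 585334726096052448,
    710078252138805923772, 922565147562854374286352, 1270386266020010003455600968,
    1833560313252407555223139755324] ∧
    itr tabA1 tabA2 11 [[1]] = stA1 := by
  decide +kernel

end Pool.Agent.Folk330
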