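import Pool.Agent.Folk330.MomA0
import Pool.Agent.Folk330.StA1
import Pool.Agent.Folk330.StA2

/-!
# Moments, kernel computation, part 1 (generated)
-/

noncomputable section

namespace Pool.Agent.Folk330

theorem momA1 : mls tabA1 tabA2 0 11 stA1 = [
    2748037535002863189649139191001688, 4249024423412984133689168446081863132,
    6752369224815389713839207744247135213068, 11010449444894242160370654700393945905267336,
    18416114786490845673285787032904920139095212196,
    31604467441939104139948916337245664582177592813296,
    55659670593685533876525623530976334026827513399612944,
    100560326890816533940428409485323589002327471422797545172,
    186175644233118604137087120154928151278754873724476431201760,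
    352539226405527899940306290806421186420515414080237081061548300,
    681081064384342520827524202685062836929229357068469545577290264640] ∧
    itr tabA1 tabA2 11 stA1 = stA2 := by
  decide +kernel

end Pool.Agent.Folk330
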