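import Pool.Agent.Folk330.MomA1
import Pool.Agent.Folk330.StA2
import Pool.Agent.Folk330.StA3

/-!
# Moments, kernel computation, part 2 (generated)
-/

noncomputable section

namespace Pool.Agent.Folk330

theorem momA2 : mls tabA1 tabA2 0 11 stA2 = [
    1338673798592821705240312923639917874105193640074718111487764056286124,
    2669273339284023629981867022515350495495127495027199858314651076129854940,
    5385001088696854544849344315512237038435123123331436247408478933306070926900,
    10965233783067279355213082002692485830447389853907618812294141225235228863592340,
    22491169180485271387440604998624182355804841117211513281982906948944506607400700516,
    46392672840914125098803598328445006484196611660760122299010499611987768412938166843848,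
    96107189478215176164867253574491488744571512881978482103663395270637757758370640488284964,
    199747625097087585552959737484422387819797423986472706054227782937289873649870382037766431164,
    416177986176941574681965723414535575677137791486803808914381102296394313496949996391498922647376,
    868725615539129304538106906702114061394271917648536951030142206896627598208355361424249431240912168,
    1815894532949618012446980056867559324921605579702283041894159121904861822367554821028615759007439652176] ∧
    itr tabA1 tabA2 11 stA2 = stA3 := by
  decide +kernel

end Pool.Agent.Folk330
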