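import Pool.Agent.Folk330.MomA2
import Pool.Agent.Folk330.StA3
import Pool.Agent.Folk330.StA4

/-!
# Moments, kernel computation, part 3 (generated)
-/

noncomputable section

namespace Pool.Agent.Folk330

theorem momA3 : mls tabA1 tabA2 0 11 stA3 = [
    3799714815264735197712872682192861560696100531401681538921906165491542758191958227077313037637761549365244,
    7957002260539038014503875822953114090337560753970923071865615621660656847147117422498869779080625470011270000,
    16672487953730285365099164130542666479105732625703004658059774744833693065691953863514516497746325991607651155792,
    34949401058759461197375904966736631313239068429950723528878498813578879789784557963947466880926997026073591886940928,
    73285762321889016255270059390534965619347933099311440896078927194079688371217951534032243710302748395276769613107180660,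
    153710777884095105033155295417669853048970155528115721728732683219590158890231437890996103690179586318436272165094756981320,
    322453602526544118634206096057623598540224050747575333208582115097576137090529668419747652537116458924344201666120718110891496,
    676532220937355820282431057167565140522245305841943267200057310913844527473302560898211148729546233656221571360974061512944725156,
    1419558405284605522695585270664043362148194219240736521926750253805680308143432678138541707985372742743294286981296659684905419958608,
    2978862995013304108667805466554238950074384533034202153544806183857533551172170696656332045089548642340445311606397096948312989280791156,
    6251324462643304962717351656888987832021517989545575876198839071384216027418722970447366947243279036221160088781717993056778064584109487552] ∧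
    itr tabA1 tabA2 11 stA3 = stA4 := by
  decide +kernel

end Pool.Agent.Folk330
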