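import Pool.Agent.Folk330.MomA3
import Pool.Agent.Folk330.StA4
import Pool.Agent.Folk330.StA5

/-!
# Moments, kernel computation, part 4 (generated)
-/

noncomputable section

namespace Pool.Agent.Folk330

theorem momA4 : mls tabA1 tabA2 0 11 stA4 = [
    13119329981078510320344040032583975637528045390800860957261061487825807503446102123343926244453852342659088068735514853529723297046643330442720,
    27533713621276331850013006023550219347198041406724439079779513740777042406692997708737942699114753085452078845443473671719917389395247903922637676,
    57786717571939175348583866433108352158884105393643441251118090206825561062112631972738051935384987419804481958282489638561341872830092647733437056760,
    121282686432213025566807298310420892173635455788314393347476991405084455188477078966874966256749731022170236830547485108477898556644416753041774424000088,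
    254551247929526039375399495170771557186416147082085197397366399194632764694699694600544031510909488418164710751067660976984875383906370552738815683086345892,
    534263948746489501055987474881989467957776833744028981547271341287524446645601410376163420292822064407408200423940698602026110724810542074698726637438695721228,
    1121346061798473420759568639970727626961589212853278363189612471786916665160992878609462564609470521521230092959963219724574587163187671613615002276501645218078576,
    2353562919400512823673960931121856272121618920344939041853467209042981284018918133769614410669541152341660322806262710219405889412782617992893002180718861085052267448,
    4939849623373850014184878676774422064521193471959819305949918235879243925349279351555871305748637052957199172564145570388526016527871997482332861925701668216105387219988,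
    10368190410560079118373326387086272570104186987346279949671488670386320574135364292442297236680171625205856680593712879181323110003787438014817207192946223622960297735962780,
    21761718516035497929609760598045506467450185887974527379207866220391652344956914566351421066173186044283613582005228585220979359791700580913736652363021267328250044237588692744] ∧
    itr tabA1 tabA2 11 stA4 = stA5 := by
  decide +kernel

end Pool.Agent.Folk330
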