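import Pool.Agent.Folk330.MomA4
import Pool.Agent.Folk330.StA5
import Pool.Agent.Folk330.StA6

/-!
# Moments, kernel computation, part 5 (generated)
-/

noncomputable section

namespace Pool.Agent.Folk330

theorem momA5 : mls tabA1 tabA2 0 11 stA5 = [
    45675588583679335750166814712817469105428954209623814679961246675657032945911734945194658969382336158980217033074956310883496600471309293433831985256833296962220945149866317640028,
    95868442203235957140443766943953138672697453419972615115034454344091109628534324738101844363850487565940943006316739547029491768809967044280743203986119498647798872535609087995543748,
    201218359220765667321388928014759112018595122070722491472967086618731431759195978549023409556560130547957093701873045498446692978372754706964128068927734283340863369897150877137932056032,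
    422337696680592289422154677306471616912779270628045162451773752146133379659520806294222960784097505102144388876136344590797025809679003773786971160664992668675739048589963764149703593968036,
    886446079632245903300421547199516144218410526518689795926723336724618666196692807623294521100173562628923147378876318594537362164216962897371338524007560713974147143882970873566759871903794164,
    1860565547476143325974630395846160562139385963795866659850378414140339949324327285981357414397446947651374420494591017774720345876215789641167293283393201563646299259276293645754907749577212376760,
    3905150328447350325212952885386912987013322410166820322222283078202437014340755651960224679698286523432477742105924490138959524832708253457725771134931963005547180907747418802721225873015666218054324,
    8196541396531015122174387489001272914987794052959334620000697344203865862659848069196923209751363655234592965022850250379007892330130642830053286697250481781130770627113246911300251025343099445372001540,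
    17203768507526818844046811580762068020144736961887720696237800827430232290699120814040914867800494858501775418960532056632558796531916799635809397364462942754591388396304843944055305972388733938802972367220,
    36109094569642361894291581251574521210695214585925210550405056958040535910640207679140566737008309765225801264062210530792353302993765140613960650103900571220348332073310038956327154857968923447374630278254992,
    75789605876651142548262617408088917627531522533202100788729432912934827592874689455653976680682666605339862435748807295521450018524187958491680618802191349031246310154351015822248774156310724289565800471455761996] ∧
    itr tabA1 tabA2 11 stA5 = stA6 := by
  decide +kernel

end Pool.Agent.Folk330
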