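import Pool.Agent.Folk330.MomA5
import Pool.Agent.Folk330.StA6
import Pool.Agent.Folk330.StA7

/-!
# Moments, kernel computation, part 6 (generated)
-/

noncomputable section

namespace Pool.Agent.Folk330

theorem momA6 : mls tabA1 tabA2 0 11 stA6 = [
    159075292184333889168122514707675152420230432588397795208055390760440559297928268224619606911290839397413499259605278178674929265049473179305088460268163802896628847613790271694975200519539154383944290492581423422784,
    333884173782802866895130145965781666301017383116474014963554956443916698333038427046886215743749300868230012244174807460594241320105122800913086175505558705853245127833312308176322750651048873933539924350117041784425708,
    700791709725077682025239932415903535485387733203188965721073204995452515551873823681817510471806366772404559803035978011464492186217069760726464721909733187766115441925324638462953488209879717932959917511707348204903682596,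
    1470896417983651955573420155108576812610570071241797426622425976769765331063716312702805698997974239502088874412165972277301690576389477277886601598099203371933795039674353932651634047169792538026627164832764150666654551096368,
    3087274423220532853471750454222063094584927992203480904319275342231568441949760613014712625233605149285625051992748935230757355815314578371922079437953299592432344862139627585837977390676142192732809051451057530250166400028910996,
    6479901242396422838123296001004951471082723696656076575000533547003834254619619297869574908530921204852944291034440462381535330015598137976050798632729884415898729665594211222335570701154881516541301906253102881026587039589788127476,
    13600708874927620548799938464722920676256115973780676087491600861339017996954136832983336838558010681464982959803153544733260894980318645703817937777540278276187059373477905732732114479435549162634398064519104623160882279561360672464920,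
    28546620813209038375084348114318294582963945950369790625368312192433983133196478513109799155942184998568422938846497909349453848999868566648838244747715705035947855174295426461343143037350368017220433505183159989055788085297124405000555384,
    59916697961387507177627555843493350857884317272467953620938480368563994819968611228620655484247472909643949726039049545427855255394772675766985591069080016175271394404852133347056361148643732136733696186465118943213529226031567299253102771252,
    125759568444176089762154129493586383019926200998740290501347486813704756452743656313993176875685365899924543889102370606712314901549665521874577224298501127895557156246658241728371700622705681163649587164650000244316012730911991892425815014234020,
    263957622125661828817748651980158817362331508253981971178175231410215441921102979650397380238620681272094553850868759904562282539145292218046659601673302653931179812491790560215746830996536188077472624968392553840217134042850116363107138223358558564] ∧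
    itr tabA1 tabA2 11 stA6 = stA7 := by
  decide +kernel

end Pool.Agent.Folk330
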