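import Pool.Agent.Folk330.ChkA2
import Pool.Agent.Folk330.TabB
import Pool.Agent.Folk330.StB1

/-!
# Moments, kernel computation, part 0 (generated)
-/

noncomputable section

namespace Pool.Agent.Folk330

theorem momB0 : mls tabB1 tabB2 192 19 [[], [], [], [], [], [], [], [], [], [], [], [], [1]] = [
    1, 444, 216008, 117198664, 73808232480, 57089127996968, 55879964653213696, 66831002645472880944,
    91062395801441045021288, 133596854890194761452981000, 204567652677280905793935424272,
    322439998964351744994825398555672, 520555461003727559873500427061343504,
    859961985130191364781482286560282057992, 1454669261380390699527282397540188680395280,
    2521923424486963817238804514721904540196368376,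
    4483403194574211375359136992204311643253423879600,
    8170838598964546833081926748811610980322158416296552,
    15246976376665621624386027283181733476517653389250657152] ∧
    itr tabB1 tabB2 19 [[], [], [], [], [], [], [], [], [], [], [], [], [1]] = stB1 := by
  decide +kernel

end Pool.Agent.Folk330
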