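import Pool.Agent.Folk330.MomB0
import Pool.Agent.Folk330.StB1
import Pool.Agent.Folk330.StB2

/-!
# Moments, kernel computation, part 1 (generated)
-/

noncomputable section

namespace Pool.Agent.Folk330

theorem momB1 : mls tabB1 tabB2 192 19 stB1 = [
    29072558095510153923276921254335613515420277910909874868616,
    56500078951120510066208492733194717722012737372298842912720848,
    111598115169102575602569532397552997237121873723762035356034978136,
    223404764033607316436956329065486845416255148754337187723131685456416,
    452101799357317350822176480436346296281477997023961883830148690773625832,
    922806629176427523443728326069611459818928018002428196023044372030856483280,
    1896253727495686422202269409130122000207825426775238292399867717898900515607832,
    3916764473941820127377856177225004797373808976217307980614180044718984820992454976,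
    8122219637976783258473338217600172269075852325349453254347190041017375867025932508776,
    16893717069139599573560910397964831586678150294362138355524183348775435899495230648075056,
    35217657654502445916406308635010077389190112426598454959913770309749184020230917265281203704,
    73542304173204072725658049397487506528540332114809780227768168160240837997360493690879804034016,
    153769766920374438757985801231665191587540703227204781284147832636894648578986840135124001197773896,
    321826862495057890737804875353045330093751398025226203206884338434195216914526027648054038303835345808,
    674041118496320686116659770501428485660306230807708302013088463643805860883593861913269485397437086684632,
    1412487308134932357726644222127109969382008577770197503261581866309361883827027366779156979190931593388444480,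
    2961132269049669407163549648477415137152301813218668694735031253423935060254530421094959719266336103432122313448,
    6209576815410272990369844198450018839385365291626192584464424892233200010548562602987651855227311843802606297327216,
    13024591848050504069140090152982113015027403271026752281275119696849988076184228949295627224512148210815242688391839480] ∧
    itr tabB1 tabB2 19 stB1 = stB2 := by
  decide +kernel

end Pool.Agent.Folk330
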