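import Pool.Agent.Folk330.MomB1
import Pool.Agent.Folk330.StB2
import Pool.Agent.Folk330.StB3

/-!
# Moments, kernel computation, part 2 (generated)
-/

noncomputable section

namespace Pool.Agent.Folk330

theorem momB2 : mls tabB1 tabB2 192 19 stB2 = [
    27323697714120935322944955994368547966021601641253399325943777683396115383245824613337434176907403392878487719626062524064,
    57328369876013489001604537670590960631661865903898135007537815136881739607880766920818083953804389947145920293867485007404552,
    120293091392418603928353932113556088565997613611486982238755557440579172422217524228229402581507350934891413116213433006061587408,
    252430852914108621881081652469701653909566446683120837424043459116809511845656093832134458316025725632962174194843178230385194634648,
    529745316134061192482935591301877144430098731747613819602997615726202491833820161213713574446625376805434356937564222113245960676569600,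
    1111754739376392837062008411767006017518439992898990076748554377964024128704633785404145243124134878564782067619475221646847644589051173032,
    2333263093551667220190150777392830622589864386666170154792176803972920017385227589904389485732309273430370270024894731770713388587006823547696,
    4896976989489565707294612651148646684811622624104460454589705870642250192218895931114177789145704468179796005037040002785633979915070638334207544,
    10277787363580179761229770421405431021446042105521106199764962070592922038491175836863307235343376974071791584510948977309148175586221241952550754400,
    21571313875175940268308128601592096640356201779048618458240755496933354836628818677752363444411593332877279885733757433227009176514424925288840924652104,
    45274912362349237336438260749488781091169540100849865327436771073153633698128241938999851834458450674723429889253159909123021922523849618463435553828812944,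
    95025830691499933418904634809447076793871443658269564186348696102794032984172472881539511166930250234598608984942491510964765698607113321261530793123180915160,
    199447229374104113295295089722927082023346783170192164372475676552211945446616857960787044345055225114819899218965871659038329569387399541546647360012860866873024,
    418616216047649868836113165706518132209780758001230143918047655361698749379839012510492384866085516385496818540417432903645555049908780932608685814549718987149474792,
    878628665654803230118154769044731892489551029298232755601788625299417482374307740539100031884588129175226533579694111204322865911561941985228631582869710032320995397616,
    1844147479469892997863488564387957734540249396114486596046906461437419061885449922254814234217519510342730790524824619789698697895354251384736175215901155952211248407806328,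
    3870674499365695713442539556201266928680929125496026267519572781059270261953579066515649259013211827888628250001743181752109810178721418939122140028445129431560332212796881184,
    8124154878436763480222518426222887403439042142597886082084648690637412940362156666748568556469717681163159787621987290776844121081504957490224774857958461330078771132482384662920,
    17051796582282454743687386724261159428986730990093075090688033509026821901930652748952410408013519838346359492726687447260858912064249418162258759787812653210541973697136939862177616] ∧
    itr tabB1 tabB2 19 stB2 = stB3 := by
  decide +kernel

end Pool.Agent.Folk330
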