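import Pool.Agent.Folk330.Color
import Pool.Agent.Folk330.Cert

/-!
# The graph is not a union of two triangle-free graphs
-/

noncomputable section

namespace Pool.Agent.Folk330

open G2

/-- The graph remains good after deleting a small set of vertices. -/
theorem not_union (X : Finset VV)
    (hX : 56 * (Finset.univ.filter (fun g => va g ∈ X)).card ≤ Fintype.card G2)
    (G₁ G₂ : SimpleGraph VV) (h1 : G₁.CliqueFree 3) (h2 : G₂.CliqueFree 3)
    (hG : ∀ p q, p ∉ X → q ∉ X → GG.Adj p q → G₁.Adj p q ∨ G₂.Adj p q) : False := by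
  classical
  let col : VV → VV → ℝ := fun p q => if G₁.Adj p q then 1 else -1
  have hs : ∀ p q, col p q = col q p := by
    intro p q
    show (if G₁.Adj p q then (1 : ℝ) else -1) = if G₁.Adj q p then 1 else -1
    simp only [G₁.adj_comm p q]
  have hc : ∀ p q, col p q = 1 ∨ col p q = -1 := by
    intro p q
    show (if G₁.Adj p q then (1 : ℝ) else -1) = 1 ∨ (if G₁.Adj p q then (1 : ℝ) else -1) = -1
    by_cases h : G₁.Adj p q
    · left; rw [if_pos h]
    · right; rw [if_neg h]
  have hcol1 : ∀ p q, col p q = 1 → G₁.Adj p q := by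
    intro p q h
    by_contra hn
    have : (if G₁.Adj p q then (1 : ℝ) else -1) = 1 := h
    rw [if_neg hn] at this
    norm_num at this
  have hcol2 : ∀ p q, p ∉ X → q ∉ X → GG.Adj p q → col p q = -1 → G₂.Adj p q := by
    intro p q hp hq hpq h
    rcases hG p q hp hq hpq with h3 | h3
    · exfalso
      have : (if G₁.Adj p q then (1 : ℝ) else -1) = -1 := h
      rw [if_pos h3] at this
      norm_num at this
    · exact h3
  have htri : ∀ p q r, p ∉ X → q ∉ X → r ∉ X → GG.Adj p q → GG.Adj p r → GG.Adj q r →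
      ¬ (col p q = col p r ∧ col p q = col q r) := by
    rintro p q r hp hq hr a b c ⟨e1, e2⟩
    rcases hc p q with h | h
    · exact h1 {p, q, r} (SimpleGraph.is3Clique_triple_iff.2 ⟨hcol1 _ _ h,
        hcol1 _ _ (e1 ▸ h), hcol1 _ _ (e2 ▸ h)⟩)
    · exact h2 {p, q, r} (SimpleGraph.is3Clique_triple_iff.2 ⟨hcol2 _ _ hp hq a h,
        hcol2 _ _ hp hr b (e1 ▸ h), hcol2 _ _ hq hr c (e2 ▸ h)⟩)
  have hf := ff_inv X col hs
  have hf' := ff'_inv X col hs
  have hE := energy_bound X col hs hc htri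
  have hN := norm_bound X col hc hX
  have hcard : (0 : ℝ) < (Fintype.card G2 : ℝ) := by
    exact_mod_cast Fintype.card_pos_iff.2 ⟨(1 : G2)⟩
  have hne : ∃ g, ff X col g ≠ 0 ∨ ff' X col g ≠ 0 := by
    by_contra hcon
    push Not at hcon
    have e1 : ∑ g, ff X col g ^ 2 = 0 :=
      Finset.sum_eq_zero fun g _ => by rw [(hcon g).1]; norm_num
    have e2 : ∑ g, ff' X col g ^ 2 = 0 :=
      Finset.sum_eq_zero fun g _ => by rw [(hcon g).2]; norm_num
    rw [e1, e2] at hN
    linarith
  refine no_small hf hf' hne (le_trans hE ?_)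
  have : (6632 : ℝ) * (Fintype.card G2 : ℝ) =
      185696 / 783 * (29 * (27 / 28 * (Fintype.card G2 : ℝ))) := by ring
  rw [this]
  exact mul_le_mul_of_nonneg_left hN (by norm_num)

end Pool.Agent.Folk330
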