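import Pool.Agent.Folk330.Stab

/-!
# Invariance properties of the operator, second component (job FK-5)

The operator preserves pairs `(f, f')` with `f` right invariant under `T, w` and `f'` right
invariant under `sg, U`, and it commutes with left translations.

Relations used (all are equalities of quadruples over `ℤ/65`):

* `sg * sg = T * T`, `U * sg = sg * un 10`;
* `T * T * un t = un (16 * t) * (T * T)`, and multiplication by `16` permutes `Ts`;
* `un s * un t = un (s + t)`, and adding `40` or `10` permutes `Ts`;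
* `n⁻¹ * x * n` is in `kk2` for `x = sg * sg, U, un 10` and `n = un 26, xm, un 39, km`.
-/

noncomputable section

namespace Pool.Agent.Folk330

open G2

variable {R : Type*} [CommSemiring R]

/-- Moving an element through a neighbour. -/
theorem Inv2.conj {X : Type*} {f' : G2 → X} (h' : Inv2 f') (g x n : G2)
    (hk : kk2 (n⁻¹ * x * n)) : f' (g * x * n) = f' (g * n) := by
  have : g * x * n = g * n * (n⁻¹ * x * n) := by group
  rw [this, h'.kk hk]

theorem sum_perm (e : RR → RR) (he : Ts.image e = Ts) (F : RR → R) :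
    ∑ t ∈ Ts, F (e t) = ∑ t ∈ Ts, F t := by
  have hinj : Set.InjOn e (Ts : Set RR) := by
    rw [← Finset.card_image_iff, he]
  conv_rhs => rw [← he]
  rw [Finset.sum_image hinj]

/-- Invariance of the half operator from finitely many relations. -/
theorem Bp_conj {f f' : G2 → R} (h' : Inv2 f') (g x : G2)
    (h1 : kk2 ((un 26)⁻¹ * x * un 26)) (h2 : kk2 (xm⁻¹ * x * xm))
    (h3 : kk2 ((un 39)⁻¹ * x * un 39)) (h4 : kk2 (km⁻¹ * x * km))
    (hs : ∑ t ∈ Ts, f (g * x * un t) = ∑ t ∈ Ts, f (g * un t)) :
    Bp f f' (g * x) = Bp f f' g := by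
  unfold Bp
  rw [h'.conj g x _ h1, h'.conj g x _ h2, h'.conj g x _ h3, h'.conj g x _ h4, hs]

theorem sg_sg : sg * sg = T * T := by
  ext <;> decide +kernel

theorem U_sg : U * sg = sg * un 10 := by
  ext <;> decide +kernel

theorem TT_un (t : RR) : T * T * un t = un (16 * t) * (T * T) := by
  ext
  · simp
  · simp only [mul_b, mul_d, mul_a, un_a, un_b, un_d, T_a, T_b, T_c, T_d]
    have : (28 : RR) * 28 = 16 * (7 * 7) := by decide +kernel
    linear_combination t * this
  · simp
  · simp

theorem Bp_un {f f' : G2 → R} (h' : Inv2 f') (g : G2) (s : RR)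
    (h1 : kk2 ((un 26)⁻¹ * un s * un 26)) (h2 : kk2 (xm⁻¹ * un s * xm))
    (h3 : kk2 ((un 39)⁻¹ * un s * un 39)) (h4 : kk2 (km⁻¹ * un s * km))
    (hs : Ts.image (fun t => s + t) = Ts) :
    Bp f f' (g * un s) = Bp f f' g := by
  refine Bp_conj h' g _ h1 h2 h3 h4 ?_
  rw [← sum_perm (fun t => s + t) hs (fun t => f (g * un t))]
  refine Finset.sum_congr rfl fun t _ => ?_
  rw [un_add, mul_assoc]

theorem Bp_U {f f' : G2 → R} (h' : Inv2 f') (g : G2) : Bp f f' (g * U) = Bp f f' g := by
  have hU : U = un 40 := rfl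
  rw [hU]
  exact Bp_un h' g 40 (by decide +kernel) (by decide +kernel) (by decide +kernel)
    (by decide +kernel) (by decide +kernel)

theorem Bp_un10 {f f' : G2 → R} (h' : Inv2 f') (g : G2) :
    Bp f f' (g * un 10) = Bp f f' g :=
  Bp_un h' g 10 (by decide +kernel) (by decide +kernel) (by decide +kernel)
    (by decide +kernel) (by decide +kernel)

theorem Bp_sgsg {f f' : G2 → R} (h : Inv1 f) (h' : Inv2 f') (g : G2) :
    Bp f f' (g * sg * sg) = Bp f f' g := by
  rw [mul_assoc, sg_sg]
  refine Bp_conj h' g _ (by decide +kernel) (by decide +kernel) (by decide +kernel)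
    (by decide +kernel) ?_
  have hs : Ts.image (fun t => 16 * t) = Ts := by decide +kernel
  rw [← sum_perm (fun t => 16 * t) hs (fun t => f (g * un t))]
  refine Finset.sum_congr rfl fun t _ => ?_
  rw [mul_assoc, TT_un, ← mul_assoc, ← mul_assoc, h.1, h.1]

theorem A2_inv {f f' : G2 → R} (h : Inv1 f) (h' : Inv2 f') : Inv2 (A2 f f') := by
  constructor
  · intro g
    unfold A2
    rw [Bp_sgsg h h' g, h'.1, add_comm (Bp f f' (g * sg))]
  · intro g
    unfold A2
    rw [h'.2, Bp_U h' g, mul_assoc g U sg, U_sg, ← mul_assoc, Bp_un10 h' (g * sg)]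

theorem A2_left (f f' : G2 → R) (k g : G2) :
    A2 (fun x => f (k * x)) (fun x => f' (k * x)) g = A2 f f' (k * g) := by
  simp only [A2, Bp, mul_assoc]

theorem A2_add (f f' k k' : G2 → R) (g : G2) :
    A2 (fun x => f x + k x) (fun x => f' x + k' x) g = A2 f f' g + A2 k k' g := by
  simp only [A2, Bp, Finset.sum_add_distrib]
  ring

theorem A2_smul (c : R) (f f' : G2 → R) (g : G2) :
    A2 (fun x => c * f x) (fun x => c * f' x) g = c * A2 f f' g := by
  simp only [A2, Bp, ← Finset.mul_sum]
  ring

theorem A2_cast (f f' : G2 → ℕ) (g : G2) :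
    A2 (fun x => (f x : R)) (fun x => (f' x : R)) g = ((A2 f f' g : ℕ) : R) := by
  simp only [A2, Bp]
  push_cast
  rfl

end Pool.Agent.Folk330
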