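import Pool.Agent.Folk330.Ops1
import Pool.Agent.Folk330.Ops2

/-!
# Invariance of the iterates
-/

noncomputable section

namespace Pool.Agent.Folk330

open G2

variable {R : Type*} [CommSemiring R]





/-- Invariance of the iterates. -/
theorem y1_inv (n : ℕ) : Inv1 (y1 n).1 ∧ Inv2 (y1 n).2 := by
  induction n with
  | zero =>
    refine ⟨⟨fun g => ?_, fun g => ?_⟩, ⟨fun g => rfl, fun g => rfl⟩⟩
    · simp only [y1, kk1_mul' (g := g) (show kk1 T by decide +kernel)]
    · simp only [y1, kk1_mul' (g := g) (show kk1 w by decide +kernel)]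
  | succ n ih => exact ⟨A1_inv ih.1 ih.2, A2_inv ih.1 ih.2⟩

theorem y2_inv (n : ℕ) : Inv1 (y2 n).1 ∧ Inv2 (y2 n).2 := by
  induction n with
  | zero =>
    refine ⟨⟨fun g => rfl, fun g => rfl⟩, ⟨fun g => ?_, fun g => ?_⟩⟩
    · simp only [y2, kk2_mul' (g := g) (show kk2 sg by decide +kernel)]
    · simp only [y2, kk2_mul' (g := g) (show kk2 U by decide +kernel)]
  | succ n ih => exact ⟨A1_inv ih.1 ih.2, A2_inv ih.1 ih.2⟩

theorem y1_left (n : ℕ) : LInv kk1 (y1 n).1 ∧ LInv kk1 (y1 n).2 := by
  induction n with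
  | zero =>
    refine ⟨fun k hk g => ?_, fun k hk g => rfl⟩
    simp only [y1, kk1_mul hk]
  | succ n ih =>
    refine ⟨fun k hk g => ?_, fun k hk g => ?_⟩
    · show A1 _ _ (k * g) = A1 _ _ g
      rw [← A1_left]
      congr 1
      · funext x; exact ih.1 k hk x
      · funext x; exact ih.2 k hk x
    · show A2 _ _ (k * g) = A2 _ _ g
      rw [← A2_left]
      congr 1
      · funext x; exact ih.1 k hk x
      · funext x; exact ih.2 k hk x

theorem y2_left (n : ℕ) : LInv kk2 (y2 n).1 ∧ LInv kk2 (y2 n).2 := by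
  induction n with
  | zero =>
    refine ⟨fun k hk g => rfl, fun k hk g => ?_⟩
    simp only [y2, kk2_mul hk]
  | succ n ih =>
    refine ⟨fun k hk g => ?_, fun k hk g => ?_⟩
    · show A1 _ _ (k * g) = A1 _ _ g
      rw [← A1_left]
      congr 1
      · funext x; exact ih.1 k hk x
      · funext x; exact ih.2 k hk x
    · show A2 _ _ (k * g) = A2 _ _ g
      rw [← A2_left]
      congr 1
      · funext x; exact ih.1 k hk x
      · funext x; exact ih.2 k hk x







end Pool.Agent.Folk330
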