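import Pool.Agent.Folk330.Stab

/-!
# Invariance properties of the operator, first component (job FK-4)

The operator preserves pairs `(f, f')` with `f` right invariant under `T, w` and `f'` right
invariant under `sg, U`, and it commutes with left translations.

Relations used (all are equalities of quadruples over `ℤ/65`; prove them with
`G2.ext` and `decide`/`simp`/`ring`):

* `T * un a = un (4 * a) * T`; `4 * 26 = 39`, `4 * 39 = 26`; multiplication by `4` permutes `Hs`
  and preserves `om` (decidable);
* `T * un 26 = xm * κ` and `T * xm = un 26 * κ'` with `κ, κ'` in `kk2` (take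
  `κ = xm⁻¹ * T * un 26` and check `kk2 κ` by `decide`);
* `T * w * T = w`, `w * w = T ^ 6`;
* `sg * sg = T ^ 2`; `U * un t = un (t + 40)`; `t ↦ t + 40` permutes `Ts`;
  `U * n = n * U` for `n = un 26, xm, un 39, km`; `U * sg = sg * un 10`, `un 10 = U ^ 10`;
* `sg * sg * un t = un (3.. t) * (sg * sg)`: precisely `T ^ 2 * un t = un (16 * t) * T ^ 2`, and
  multiplication by `16` permutes `Ts`; `T ^ 2 * n = n * T ^ 2 * κ` with `κ` in `kk2` for
  `n = un 26, xm, un 39, km` (again check `kk2 (n⁻¹ * T ^ 2 * n)` by `decide`).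
-/

noncomputable section

namespace Pool.Agent.Folk330

open G2

variable {R : Type*} [CommSemiring R]

theorem ops1_T_un (a : RR) : T * un a = un (4 * a) * T := by
  ext <;> simp
  ring

theorem ops1_sum (F : RR → R) :
    ∑ h ∈ Hs, (om h : R) * F (4 * h) = ∑ h ∈ Hs, (om h : R) * F h := by
  refine Finset.sum_nbij' (fun x => 4 * x) (fun x => 49 * x) ?_ ?_ ?_ ?_ ?_
  · decide +kernel
  · decide +kernel
  · decide +kernel
  · decide +kernel
  · have : ∀ x ∈ Hs, om (4 * x) = om x := by decide +kernel
    intro x hx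
    rw [this x hx]

theorem ops1_Ap {f f' : G2 → R} (h : Inv1 f) (h' : Inv2 f') (g : G2) :
    Ap f f' (g * T) = Ap f f' g := by
  have e1 : ∀ a, f (g * T * un a) = f (g * un (4 * a)) := by
    intro a
    rw [mul_assoc, ops1_T_un, ← mul_assoc, h.1]
  have e2 : f' (g * T * un 26) = f' (g * xm) := by
    have hk : kk2 (xm⁻¹ * T * un 26) := by decide +kernel
    have := h'.kk hk (g * xm)
    rw [← this]
    congr 1
    group
  have e3 : f' (g * T * xm) = f' (g * un 26) := by
    have hk : kk2 ((un 26)⁻¹ * T * xm) := by decide +kernel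
    have := h'.kk hk (g * un 26)
    rw [← this]
    congr 1
    group
  have e4 : (4 * 26 : RR) = 39 := by decide +kernel
  have e5 : (4 * 39 : RR) = 26 := by decide +kernel
  unfold Ap
  simp only [e1]
  rw [e2, e3, e4, e5, ops1_sum (fun x => f (g * un x)), add_comm (f (g * un 39)),
    add_comm (f' (g * xm))]

theorem ops1_Ap_pow {f f' : G2 → R} (h : Inv1 f) (h' : Inv2 f') (g : G2) (n : ℕ) :
    Ap f f' (g * T ^ n) = Ap f f' g := by
  induction n with
  | zero => rw [pow_zero, mul_one]
  | succ n ih => rw [pow_succ, ← mul_assoc, ops1_Ap h h', ih]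

theorem A1_inv {f f' : G2 → R} (h : Inv1 f) (h' : Inv2 f') : Inv1 (A1 f f') := by
  refine ⟨fun g => ?_, fun g => ?_⟩
  · have h1 : Ap f f' (g * T * w) = Ap f f' (g * w) := by
      rw [← ops1_Ap h h' (g * T * w)]
      congr 1
      have : T * w * T = w := by
        ext <;> simp <;> decide +kernel
      rw [mul_assoc, mul_assoc, ← mul_assoc T w T, this]
    unfold A1
    rw [h.1, ops1_Ap h h', h1]
  · have h1 : Ap f f' (g * w * w) = Ap f f' g := by
      have e : w * w = T ^ 6 := by decide +kernel
      rw [mul_assoc, e, ops1_Ap_pow h h']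
    unfold A1
    rw [h.2, h1, add_comm (Ap f f' (g * w))]

theorem A1_left (f f' : G2 → R) (k g : G2) :
    A1 (fun x => f (k * x)) (fun x => f' (k * x)) g = A1 f f' (k * g) := by
  unfold A1 Ap
  simp only [mul_assoc]

/-- Linearity, additive part. -/
theorem A1_add (f f' k k' : G2 → R) (g : G2) :
    A1 (fun x => f x + k x) (fun x => f' x + k' x) g = A1 f f' g + A1 k k' g := by
  unfold A1 Ap
  simp only [mul_add, Finset.sum_add_distrib]
  ring

/-- Linearity, scalar part. -/
theorem A1_smul (c : R) (f f' : G2 → R) (g : G2) :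
    A1 (fun x => c * f x) (fun x => c * f' x) g = c * A1 f f' g := by
  have e : ∀ y, ∑ h ∈ Hs, (om h : R) * (c * f (y * un h)) =
      c * ∑ h ∈ Hs, (om h : R) * f (y * un h) := by
    intro y
    rw [Finset.mul_sum]
    exact Finset.sum_congr rfl fun h _ => by ring
  unfold A1 Ap
  simp only [e]
  ring

/-- Compatibility with casts. -/
theorem A1_cast (f f' : G2 → ℕ) (g : G2) :
    A1 (fun x => (f x : R)) (fun x => (f' x : R)) g = ((A1 f f' g : ℕ) : R) := by
  unfold A1 Ap
  push_cast
  rfl

end Pool.Agent.Folk330
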