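import Mathlib

/-!
# Polynomials as lists of integers
-/

noncomputable section

namespace Pool.Agent.Folk330

/-- Evaluation. -/
def ev (x : ℝ) : List ℤ → ℝ
  | [] => 0
  | a :: p => a + x * ev x p

/-- Multiplication by `a - b * x`, with a carry `c`. -/
def ml (a b : ℤ) : ℤ → List ℤ → List ℤ
  | c, [] => [-(b * c)]
  | c, q :: p => (a * q - b * c) :: ml a b q p

/-- Product of the linear factors with `q0`. -/
def prd (q0 : List ℤ) (r : List (ℤ × ℤ)) : List ℤ := r.foldr (fun ab p => ml ab.1 ab.2 0 p) q0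

theorem ev_ml (a b : ℤ) (x : ℝ) (p : List ℤ) :
    ∀ c : ℤ, ev x (ml a b c p) = (a - b * x) * ev x p - b * c := by
  induction p with
  | nil => intro c; simp only [ml, ev]; push_cast; ring
  | cons q p ih => intro c; simp only [ml, ev]; rw [ih q]; push_cast; ring

theorem ev_prd (q0 : List ℤ) (x : ℝ) (r : List (ℤ × ℤ)) :
    ev x (prd q0 r) = (r.map fun ab => (ab.1 : ℝ) - ab.2 * x).prod * ev x q0 := by
  induction r with
  | nil => simp [prd]
  | cons ab r ih =>
    have h : prd q0 (ab :: r) = ml ab.1 ab.2 0 (prd q0 r) := rfl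
    rw [h, ev_ml, ih, List.map_cons, List.prod_cons]
    push_cast
    ring

theorem sum_ev (x : ℝ) (p : List ℤ) :
    ∑ k ∈ Finset.range p.length, ((p.getD k 0 : ℤ) : ℝ) * x ^ k = ev x p := by
  induction p with
  | nil => simp [ev]
  | cons a p ih =>
    rw [List.length_cons, Finset.sum_range_succ', ev, ← ih, Finset.mul_sum]
    have h : ∀ k, ((((a :: p).getD (k + 1) 0 : ℤ)) : ℝ) * x ^ (k + 1) =
        x * (((p.getD k 0 : ℤ) : ℝ) * x ^ k) := by
      intro k
      rw [List.getD_cons_succ]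
      ring
    simp only [h, List.getD_cons_zero, pow_zero, mul_one]
    ring

/-- The dot product. -/
def dot : List ℤ → List ℕ → ℤ
  | a :: p, m :: M => a * m + dot p M
  | _, _ => 0

theorem dot_eq (p : List ℤ) : ∀ M : List ℕ,
    (dot p M : ℝ) = ∑ l ∈ Finset.range p.length, ((p.getD l 0 : ℤ) : ℝ) * ((M.getD l 0 : ℕ) : ℝ) := by
  induction p with
  | nil => intro M; cases M <;> simp [dot]
  | cons a p ih =>
    intro M
    cases M with
    | nil => simp [dot]
    | cons m M =>
      rw [List.length_cons, Finset.sum_range_succ']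
      simp only [List.getD_cons_succ, List.getD_cons_zero, ← ih]
      show ((a * m + dot p M : ℤ) : ℝ) = _
      push_cast
      ring

/-- The quadratic form. -/
def qf (p : List ℤ) : List ℤ → List ℕ → ℤ
  | [], _ => 0
  | a :: r, M => a * dot p M + qf p r M.tail

theorem getD_tail (M : List ℕ) (n : ℕ) : M.tail.getD n 0 = M.getD (n + 1) 0 := by
  cases M with
  | nil => rfl
  | cons m M => rfl

theorem qf_eq (p : List ℤ) (r : List ℤ) : ∀ M : List ℕ,
    (qf p r M : ℝ) = ∑ k ∈ Finset.range r.length, ∑ l ∈ Finset.range p.length,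
      ((r.getD k 0 : ℤ) : ℝ) * ((p.getD l 0 : ℤ) : ℝ) * ((M.getD (k + l) 0 : ℕ) : ℝ) := by
  induction r with
  | nil => intro M; simp [qf]
  | cons a r ih =>
    intro M
    rw [List.length_cons, Finset.sum_range_succ']
    have h1 := ih M.tail
    have h2 : ∀ k l, M.tail.getD (k + l) 0 = M.getD (k + 1 + l) 0 := by
      intro k l
      rw [getD_tail, show k + l + 1 = k + 1 + l by ring]
    simp only [List.getD_cons_succ, List.getD_cons_zero, h2] at h1 ⊢
    rw [← h1]
    show ((a * dot p M + qf p r M.tail : ℤ) : ℝ) = _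
    push_cast
    rw [dot_eq, Finset.mul_sum, add_comm]
    congr 1
    refine Finset.sum_congr rfl fun l _ => ?_
    rw [Nat.zero_add]
    ring

theorem prod_mono (x y : ℝ) (hxy : x ≤ y) (r : List (ℤ × ℤ))
    (h : ∀ ab ∈ r, 0 ≤ ab.2 ∧ 0 < (ab.1 : ℝ) - ab.2 * y) :
    0 < (r.map fun ab => (ab.1 : ℝ) - ab.2 * y).prod ∧
      (r.map fun ab => (ab.1 : ℝ) - ab.2 * y).prod ≤ (r.map fun ab => (ab.1 : ℝ) - ab.2 * x).prod := by
  induction r with
  | nil => simp
  | cons ab r ih =>
    have h1 := h ab (List.mem_cons_self ..)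
    obtain ⟨h2, h3⟩ := ih fun c hc => h c (List.mem_cons_of_mem _ hc)
    rw [List.map_cons, List.prod_cons, List.map_cons, List.prod_cons]
    refine ⟨mul_pos h1.2 h2, ?_⟩
    have hb : (0 : ℝ) ≤ ab.2 := by exact_mod_cast h1.1
    have h4 : (ab.1 : ℝ) - ab.2 * y ≤ ab.1 - ab.2 * x := by nlinarith
    exact mul_le_mul h4 h3 h2.le (h1.2.le.trans h4)

theorem prod_scale (n d : ℤ) (hd : (d : ℝ) ≠ 0) (r : List (ℤ × ℤ)) :
    (r.map fun ab => (ab.1 : ℝ) - ab.2 * ((n : ℝ) / d)).prod =
      ((r.map fun ab => d * ab.1 - n * ab.2).prod : ℤ) / (d : ℝ) ^ r.length := by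
  induction r with
  | nil => simp
  | cons ab r ih =>
    rw [List.map_cons, List.prod_cons, List.map_cons, List.prod_cons, ih, List.length_cons, pow_succ]
    push_cast
    field_simp

end Pool.Agent.Folk330
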