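import Pool.Agent.Folk330.Form
import Pool.Agent.Folk330.Eigen

/-!
# A small eigenvalue of the operator (job FK-10)

Proof of `small_eigen`. Let `V` be the submodule of `(G2 → ℝ) × (G2 → ℝ)` of pairs `(f, f')` with
`Inv1 f` and `Inv2 f'`, `I ((f, f'), (k, k')) = 26 * ∑ f g * k g + 3 * ∑ f' g * k' g`, and let `A` be
the restriction of `(f, f') ↦ (A1 f f', A2 f f')` (`A1_inv`, `A2_inv`, `A1_add`, ...). Apply
`eigen_exists`; symmetry is `form_symm`. (`V` is finite-dimensional as a submodule of a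
finite-dimensional space.)
-/

noncomputable section

namespace Pool.Agent.Folk330

open G2

/-- The space of pairs of invariant functions. -/
def specV : Submodule ℝ ((G2 → ℝ) × (G2 → ℝ)) where
  carrier := {p | Inv1 p.1 ∧ Inv2 p.2}
  add_mem' := by
    rintro p q ⟨⟨h1, h2⟩, h3, h4⟩ ⟨⟨k1, k2⟩, k3, k4⟩
    refine ⟨⟨fun g => ?_, fun g => ?_⟩, fun g => ?_, fun g => ?_⟩
    · show p.1 _ + q.1 _ = p.1 _ + q.1 _
      rw [h1, k1]
    · show p.1 _ + q.1 _ = p.1 _ + q.1 _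
      rw [h2, k2]
    · show p.2 _ + q.2 _ = p.2 _ + q.2 _
      rw [h3, k3]
    · show p.2 _ + q.2 _ = p.2 _ + q.2 _
      rw [h4, k4]
  zero_mem' := ⟨⟨fun _ => rfl, fun _ => rfl⟩, fun _ => rfl, fun _ => rfl⟩
  smul_mem' := by
    rintro c p ⟨⟨h1, h2⟩, h3, h4⟩
    refine ⟨⟨fun g => ?_, fun g => ?_⟩, fun g => ?_, fun g => ?_⟩
    · show c * p.1 _ = c * p.1 _
      rw [h1]
    · show c * p.1 _ = c * p.1 _
      rw [h2]
    · show c * p.2 _ = c * p.2 _
      rw [h3]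
    · show c * p.2 _ = c * p.2 _
      rw [h4]

/-- The operator on all pairs. -/
def specA : ((G2 → ℝ) × (G2 → ℝ)) →ₗ[ℝ] ((G2 → ℝ) × (G2 → ℝ)) where
  toFun p := (A1 p.1 p.2, A2 p.1 p.2)
  map_add' p q := by
    refine Prod.ext (funext fun g => ?_) (funext fun g => ?_)
    · exact A1_add p.1 p.2 q.1 q.2 g
    · exact A2_add p.1 p.2 q.1 q.2 g
  map_smul' c p := by
    refine Prod.ext (funext fun g => ?_) (funext fun g => ?_)
    · exact A1_smul c p.1 p.2 g
    · exact A2_smul c p.1 p.2 g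

/-- The weighted inner product. -/
def specI : ((G2 → ℝ) × (G2 → ℝ)) →ₗ[ℝ] ((G2 → ℝ) × (G2 → ℝ)) →ₗ[ℝ] ℝ :=
  LinearMap.mk₂ ℝ (fun p q => 26 * ∑ g, p.1 g * q.1 g + 3 * ∑ g, p.2 g * q.2 g)
    (by
      intro p p' q
      simp only [Prod.fst_add, Prod.snd_add, Pi.add_apply, add_mul, Finset.sum_add_distrib]
      ring)
    (by
      intro c p q
      simp only [Prod.smul_fst, Prod.smul_snd, Pi.smul_apply, smul_eq_mul, mul_assoc,
        ← Finset.mul_sum]
      ring)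
    (by
      intro p q q'
      simp only [Prod.fst_add, Prod.snd_add, Pi.add_apply, mul_add, Finset.sum_add_distrib]
      ring)
    (by
      intro c p q
      simp only [Prod.smul_fst, Prod.smul_snd, Pi.smul_apply, smul_eq_mul,
        mul_left_comm _ c, ← Finset.mul_sum]
      ring)

theorem specI_apply (p q : (G2 → ℝ) × (G2 → ℝ)) :
    specI p q = 26 * ∑ g, p.1 g * q.1 g + 3 * ∑ g, p.2 g * q.2 g := rfl

theorem small_eigen {f f' : G2 → ℝ} (hf : Inv1 f) (hf' : Inv2 f') (hne : ∃ g, f g ≠ 0 ∨ f' g ≠ 0)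
    (c : ℝ) (hc : 26 * ∑ g, f g * A1 f f' g + 3 * ∑ g, f' g * A2 f f' g ≤
      c * (26 * ∑ g, f g ^ 2 + 3 * ∑ g, f' g ^ 2)) :
    ∃ lam : ℝ, lam ≤ c ∧ ∃ v v' : G2 → ℝ, Inv1 v ∧ Inv2 v' ∧ (∀ g, A1 v v' g = lam * v g) ∧
      (∀ g, A2 v v' g = lam * v' g) ∧ ∃ g, v g ≠ 0 ∨ v' g ≠ 0 := by
  have hmem : ∀ p ∈ specV, specA p ∈ specV := fun p hp => ⟨A1_inv hp.1 hp.2, A2_inv hp.1 hp.2⟩
  have key := eigen_exists (V := specV) (specI.compl₁₂ specV.subtype specV.subtype)
    (by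
      intro x y
      show specI x.1 y.1 = specI y.1 x.1
      rw [specI_apply, specI_apply]
      simp only [mul_comm])
    (by
      intro x hx
      show 0 < specI x.1 x.1
      rw [specI_apply]
      have h1 : ∀ g, 0 ≤ x.1.1 g * x.1.1 g := fun g => mul_self_nonneg _
      have h2 : ∀ g, 0 ≤ x.1.2 g * x.1.2 g := fun g => mul_self_nonneg _
      have h3 : 0 ≤ ∑ g, x.1.1 g * x.1.1 g := Finset.sum_nonneg fun g _ => h1 g
      have h4 : 0 ≤ ∑ g, x.1.2 g * x.1.2 g := Finset.sum_nonneg fun g _ => h2 g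
      by_contra hcon
      have h5 : ∑ g, x.1.1 g * x.1.1 g = 0 := by linarith
      have h6 : ∑ g, x.1.2 g * x.1.2 g = 0 := by linarith
      rw [Finset.sum_eq_zero_iff_of_nonneg fun g _ => h1 g] at h5
      rw [Finset.sum_eq_zero_iff_of_nonneg fun g _ => h2 g] at h6
      refine hx (Subtype.ext (Prod.ext (funext fun g => ?_) (funext fun g => ?_)))
      · exact mul_self_eq_zero.1 (h5 g (Finset.mem_univ g))
      · exact mul_self_eq_zero.1 (h6 g (Finset.mem_univ g)))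
    (specA.restrict hmem)
    (by
      intro x y
      show specI (specA x.1) y.1 = specI x.1 (specA y.1)
      rw [specI_apply, specI_apply]
      have h := form_symm x.2.1 x.2.2 y.2.1 y.2.2
      show 26 * ∑ g, A1 x.1.1 x.1.2 g * y.1.1 g + 3 * ∑ g, A2 x.1.1 x.1.2 g * y.1.2 g =
        26 * ∑ g, x.1.1 g * A1 y.1.1 y.1.2 g + 3 * ∑ g, x.1.2 g * A2 y.1.1 y.1.2 g
      rw [h]
      simp only [mul_comm])
    ⟨(f, f'), hf, hf'⟩
    (by
      intro h
      obtain ⟨g, hg⟩ := hne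
      have h1 : ((f, f') : (G2 → ℝ) × (G2 → ℝ)) = 0 := congrArg Subtype.val h
      have h2 : f = 0 := congrArg Prod.fst h1
      have h3 : f' = 0 := congrArg Prod.snd h1
      rw [h2, h3] at hg
      rcases hg with hg | hg <;> exact hg rfl)
    c
    (by
      show specI (specA (f, f')) (f, f') ≤ c * specI (f, f') (f, f')
      rw [specI_apply, specI_apply]
      show 26 * ∑ g, A1 f f' g * f g + 3 * ∑ g, A2 f f' g * f' g ≤
        c * (26 * ∑ g, f g * f g + 3 * ∑ g, f' g * f' g)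
      simp only [← sq, mul_comm (A1 f f' _), mul_comm (A2 f f' _)]
      exact hc)
  obtain ⟨lam, hl, v, hv, hA⟩ := key
  have hA' : ((A1 v.1.1 v.1.2, A2 v.1.1 v.1.2) : (G2 → ℝ) × (G2 → ℝ)) = lam • v.1 :=
    congrArg Subtype.val hA
  refine ⟨lam, hl, v.1.1, v.1.2, v.2.1, v.2.2, fun g => ?_, fun g => ?_, ?_⟩
  · exact congrFun (congrArg Prod.fst hA') g
  · exact congrFun (congrArg Prod.snd hA') g
  · by_contra hcon
    push Not at hcon
    exact hv (Subtype.ext (Prod.ext (funext fun g => (hcon g).1) (funext fun g => (hcon g).2)))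

end Pool.Agent.Folk330
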