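import Pool.Agent.Folk330.Basic

/-!
# The second edge stabiliser (job FK-2)

`kk2` is the subgroup generated by `sg` and `U = un 40` (order 156).

Plan. Write `m` for an element satisfying `kk2`. `5 * m.c = 0` says that `m.c` vanishes modulo 13. In
the first case `m` is modulo 5 the scalar `m.a`, with `m.a ∈ Hs`; from `m.h` modulo 5 one gets
`m.a ^ 2 = 1` modulo 5, so `m.a` is one of the six elements `28 ^ (2 * i)` (`1, 4, 16, 64, 61, 49`);
then `m = un x * T ^ (2 * i)` with `x` divisible by 5, so `x = 40 * s`, `un x = U ^ s`, and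
`T ^ 2 = sg ^ 2` (note that `T ^ 2` is a power of `sg` although `T` is not in the group).
In the second case multiply by `sg` on the right to reduce to the first one.
Conversely `kk2` is closed under multiplication on the right by `sg`, `U` and their inverses
(`sg ^ 12 = 1`, `U ^ 13 = 1`, so inverses are powers and it is enough to treat `sg` and `U`).
Alternatively prove both directions entry by entry: only finitely many values of the entries are
possible (`g.c ∈ {0, 13, 26, 39, 52}`, `13 * g.b = 0` means `g.b ∈ {0, 5, .., 60}`, etc.), use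
`decide +kernel` after generalising, with the entries in `ZMod 65`.
-/

noncomputable section

namespace Pool.Agent.Folk330

open G2

/-- elements of the first kind -/
theorem st2_even : ∀ s ∈ Finset.range 13, ∀ i ∈ Finset.range 6,
    ((U ^ s * sg ^ (2 * i)).a = 4 ^ i ∧ (U ^ s * sg ^ (2 * i)).b = 40 * (s : RR) * 49 ^ i ∧
      (U ^ s * sg ^ (2 * i)).c = 0 ∧ (U ^ s * sg ^ (2 * i)).d = 49 ^ i) := by
  decide +kernel

/-- elements of the second kind -/
theorem st2_odd : ∀ s ∈ Finset.range 13, ∀ i ∈ Finset.range 6,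
    ((U ^ s * sg ^ (2 * i + 1)).a = 15 * 4 ^ i ∧
      (U ^ s * sg ^ (2 * i + 1)).b = 13 * 4 ^ i + 20 * (s : RR) * 49 ^ i ∧
      (U ^ s * sg ^ (2 * i + 1)).c = 13 * 49 ^ i ∧ (U ^ s * sg ^ (2 * i + 1)).d = 20 * 49 ^ i) := by
  decide +kernel

theorem st2_case1 : ∀ a ∈ Hs, ∀ d : RR, a * d = 1 → 13 * a = 13 * d → ∀ b : RR, 13 * b = 0 →
    ∃ i ∈ Finset.range 6, a = 4 ^ i ∧ d = 49 ^ i ∧ ∃ s ∈ Finset.range 13,
      b = 40 * (s : RR) * 49 ^ i := by
  decide +kernel

theorem st2_case2 : ∀ a : RR, 13 * a = 0 → ∀ d : RR, 13 * d = 0 → ∀ c : RR, 5 * c = 0 →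
    ∀ b : RR, 13 * b = 13 * c → a * d - b * c = 1 → 26 * b + 40 * a ∈ Hs →
    ∃ i ∈ Finset.range 6, a = 15 * 4 ^ i ∧ c = 13 * 49 ^ i ∧ d = 20 * 49 ^ i ∧
      ∃ s ∈ Finset.range 13, b = 13 * 4 ^ i + 20 * (s : RR) * 49 ^ i := by
  decide +kernel

theorem st2_c0 : ∀ c : RR, 5 * c = 0 → 13 * c = 0 → c = 0 := by
  decide +kernel

theorem st2_form {g : G2} (hg : kk2 g) : ∃ s ∈ Finset.range 13, ∃ i ∈ Finset.range 6,
    g = U ^ s * sg ^ (2 * i) ∨ g = U ^ s * sg ^ (2 * i + 1) := by
  obtain ⟨h5, h | h⟩ := hg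
  · obtain ⟨hb, hc, had, ha⟩ := h
    have hc0 := st2_c0 g.c h5 hc
    have hdet := g.h
    rw [hc0, mul_zero, sub_zero] at hdet
    obtain ⟨i, hi, ea, ed, s, hs, eb⟩ := st2_case1 g.a ha g.d hdet had g.b hb
    obtain ⟨f1, f2, f3, f4⟩ := st2_even s hs i hi
    refine ⟨s, hs, i, hi, Or.inl (G2.ext ?_ ?_ ?_ ?_)⟩
    · rw [f1, ea]
    · rw [f2, eb]
    · rw [f3, hc0]
    · rw [f4, ed]
  · obtain ⟨ha, hd, hbc, hH⟩ := h
    obtain ⟨i, hi, ea, ec, ed, s, hs, eb⟩ := st2_case2 g.a ha g.d hd g.c h5 g.b hbc g.h hH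
    obtain ⟨f1, f2, f3, f4⟩ := st2_odd s hs i hi
    refine ⟨s, hs, i, hi, Or.inr (G2.ext ?_ ?_ ?_ ?_)⟩
    · rw [f1, ea]
    · rw [f2, eb]
    · rw [f3, ec]
    · rw [f4, ed]

theorem st2_sg1 : ∀ s ∈ Finset.range 13, ∀ i ∈ Finset.range 6,
    kk2 (U ^ s * sg ^ (2 * i)) ∧ kk2 (U ^ s * sg ^ (2 * i + 1)) := by
  decide +kernel

theorem st2_sg2 : ∀ s ∈ Finset.range 13, ∀ i ∈ Finset.range 6,
    kk2 (U ^ s * sg ^ (2 * i) * sg) ∧ kk2 (U ^ s * sg ^ (2 * i + 1) * sg) := by
  decide +kernel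

theorem st2_U : ∀ s ∈ Finset.range 13, ∀ i ∈ Finset.range 6,
    kk2 (U ^ s * sg ^ (2 * i) * U) ∧ kk2 (U ^ s * sg ^ (2 * i + 1) * U) := by
  decide +kernel

theorem st2_mul_sg (g : G2) (hg : kk2 g) : kk2 (g * sg) := by
  obtain ⟨s, hs, i, hi, h | h⟩ := st2_form hg
  · rw [h]; exact (st2_sg2 s hs i hi).1
  · rw [h]; exact (st2_sg2 s hs i hi).2

theorem st2_mul_U (g : G2) (hg : kk2 g) : kk2 (g * U) := by
  obtain ⟨s, hs, i, hi, h | h⟩ := st2_form hg
  · rw [h]; exact (st2_U s hs i hi).1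
  · rw [h]; exact (st2_U s hs i hi).2

theorem st2_one : kk2 (1 : G2) := by
  have h := (st2_sg1 0 (by decide) 0 (by decide)).1
  simpa using h

theorem kk2_iff (g : G2) : kk2 g ↔ g ∈ Subgroup.closure ({sg, U} : Set G2) := by
  have hsg : sg ∈ Subgroup.closure ({sg, U} : Set G2) := Subgroup.subset_closure (by simp)
  have hU : U ∈ Subgroup.closure ({sg, U} : Set G2) := Subgroup.subset_closure (by simp)
  constructor
  · intro hg
    obtain ⟨s, _, i, _, h | h⟩ := st2_form hg
    · rw [h]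
      exact Subgroup.mul_mem _ (Subgroup.pow_mem _ hU _) (Subgroup.pow_mem _ hsg _)
    · rw [h]
      exact Subgroup.mul_mem _ (Subgroup.pow_mem _ hU _) (Subgroup.pow_mem _ hsg _)
  · intro hg
    have key : ∀ x ∈ Subgroup.closure ({sg, U} : Set G2), ∀ g : G2, kk2 g → kk2 (g * x) := by
      intro x hx
      induction hx using Subgroup.closure_induction with
      | mem x hx =>
        rcases hx with rfl | rfl
        · exact st2_mul_sg
        · exact st2_mul_U
      | one => intro g hg; rwa [mul_one]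
      | mul x y _ _ hx hy => intro g hg; rw [← mul_assoc]; exact hy _ (hx g hg)
      | inv x _ hx =>
        have hpow : ∀ n : ℕ, ∀ g : G2, kk2 g → kk2 (g * x ^ n) := by
          intro n
          induction n with
          | zero => intro g hg; rwa [pow_zero, mul_one]
          | succ n ih => intro g hg; rw [pow_succ, ← mul_assoc]; exact hx _ (ih g hg)
        have hinv : x⁻¹ = x ^ (Fintype.card G2 - 1) := by
          rw [inv_eq_iff_mul_eq_one, ← pow_succ',
            Nat.sub_add_cancel (Fintype.card_pos_iff.2 ⟨1⟩), pow_card_eq_one]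
        intro g hg
        rw [hinv]
        exact hpow _ g hg
    have h := key g hg 1 st2_one
    rwa [one_mul] at h

/-- three entries as a number, to compare quickly -/
def st2N (x : ℕ × ℕ) : ℕ :=
  ((U ^ x.1 * sg ^ x.2).a.val * 65 + (U ^ x.1 * sg ^ x.2).b.val) * 65 +
    (U ^ x.1 * sg ^ x.2).c.val

theorem st2_nodup : (((List.range 13).product (List.range 12)).map st2N).Nodup := by
  decide +kernel

theorem st2_kk (x : ℕ × ℕ) (h1 : x.1 ∈ Finset.range 13) (h2 : x.2 ∈ Finset.range 12) :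
    kk2 (U ^ x.1 * sg ^ x.2) := by
  rw [Finset.mem_range] at h2
  rcases Nat.even_or_odd' x.2 with ⟨i, hi | hi⟩
  · rw [hi]
    exact (st2_sg1 x.1 h1 i (Finset.mem_range.2 (by omega))).1
  · rw [hi]
    exact (st2_sg1 x.1 h1 i (Finset.mem_range.2 (by omega))).2

/-- The second stabiliser has at least 156 elements: the elements `U ^ s * sg ^ j`, `s < 13`,
`j < 12`, are pairwise different (look at the entries modulo 13). -/
theorem card_kk2 : 156 ≤ (Finset.univ.filter kk2).card := by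
  have hcard : (Finset.range 13 ×ˢ Finset.range 12).card = 156 := by
    rw [Finset.card_product, Finset.card_range, Finset.card_range]
  rw [← hcard]
  refine Finset.card_le_card_of_injOn (fun x => U ^ x.1 * sg ^ x.2) ?_ ?_
  · intro x hx
    have hx' := Finset.mem_product.1 (Finset.mem_coe.1 hx)
    exact Finset.mem_coe.2 (Finset.mem_filter.2 ⟨Finset.mem_univ _, st2_kk x hx'.1 hx'.2⟩)
  · intro x hx y hy hxy
    have hx' := Finset.mem_product.1 (Finset.mem_coe.1 hx)
    have hy' := Finset.mem_product.1 (Finset.mem_coe.1 hy)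
    have hN : st2N x = st2N y := by
      have hxy' : U ^ x.1 * sg ^ x.2 = U ^ y.1 * sg ^ y.2 := hxy
      unfold st2N
      rw [hxy']
    have hxm : x ∈ (List.range 13).product (List.range 12) := by
      rcases x with ⟨x1, x2⟩
      exact List.mem_product.2 ⟨List.mem_range.2 (Finset.mem_range.1 hx'.1),
        List.mem_range.2 (Finset.mem_range.1 hx'.2)⟩
    have hym : y ∈ (List.range 13).product (List.range 12) := by
      rcases y with ⟨y1, y2⟩
      exact List.mem_product.2 ⟨List.mem_range.2 (Finset.mem_range.1 hy'.1),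
        List.mem_range.2 (Finset.mem_range.1 hy'.2)⟩
    exact List.inj_on_of_nodup_map st2_nodup hxm hym hN

end Pool.Agent.Folk330
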