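import Pool.Agent.Folk330.Stab1
import Pool.Agent.Folk330.Stab2
import Pool.Agent.Folk330.Card

/-!
# The two edge stabilisers
-/

noncomputable section

namespace Pool.Agent.Folk330

open G2

theorem kk1_one : kk1 1 := by decide +kernel
theorem kk2_one : kk2 1 := by decide +kernel

theorem kk1_mul {k g : G2} (hk : kk1 k) : kk1 (k * g) ↔ kk1 g := by
  rw [kk1_iff] at hk
  rw [kk1_iff, kk1_iff]
  exact Subgroup.mul_mem_cancel_left _ hk

theorem kk1_mul' {k g : G2} (hk : kk1 k) : kk1 (g * k) ↔ kk1 g := by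
  rw [kk1_iff] at hk
  rw [kk1_iff, kk1_iff]
  exact Subgroup.mul_mem_cancel_right _ hk

theorem kk2_mul {k g : G2} (hk : kk2 k) : kk2 (k * g) ↔ kk2 g := by
  rw [kk2_iff] at hk
  rw [kk2_iff, kk2_iff]
  exact Subgroup.mul_mem_cancel_left _ hk

theorem kk2_mul' {k g : G2} (hk : kk2 k) : kk2 (g * k) ↔ kk2 g := by
  rw [kk2_iff] at hk
  rw [kk2_iff, kk2_iff]
  exact Subgroup.mul_mem_cancel_right _ hk

theorem kk1_inv {k : G2} (hk : kk1 k) : kk1 k⁻¹ := by
  rw [kk1_iff] at hk ⊢
  exact Subgroup.inv_mem _ hk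

theorem kk2_inv {k : G2} (hk : kk2 k) : kk2 k⁻¹ := by
  rw [kk2_iff] at hk ⊢
  exact Subgroup.inv_mem _ hk

/-- Functions invariant under generators are invariant under the subgroup they generate. -/
theorem inv_closure {X : Type*} {f : G2 → X} {S : Set G2} (hS : ∀ s ∈ S, ∀ g, f (g * s) = f g)
    {k : G2} (hk : k ∈ Subgroup.closure S) (g : G2) : f (g * k) = f g := by
  induction hk using Subgroup.closure_induction generalizing g with
  | mem x hx => exact hS x hx g
  | one => rw [mul_one]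
  | mul x y _ _ hx hy => rw [← mul_assoc, hy, hx]
  | inv x _ hx =>
    have := hx (g * x⁻¹)
    rw [inv_mul_cancel_right] at this
    exact this.symm

theorem Inv1.kk {X : Type*} {f : G2 → X} (hf : Inv1 f) {k : G2} (hk : kk1 k) (g : G2) :
    f (g * k) = f g := by
  refine inv_closure ?_ ((kk1_iff k).1 hk) g
  rintro s (rfl | hs) g
  · exact hf.1 g
  · rw [Set.mem_singleton_iff] at hs
    rw [hs]
    exact hf.2 g

theorem Inv2.kk {X : Type*} {f : G2 → X} (hf : Inv2 f) {k : G2} (hk : kk2 k) (g : G2) :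
    f (g * k) = f g := by
  refine inv_closure ?_ ((kk2_iff k).1 hk) g
  rintro s (rfl | hs) g
  · exact hf.1 g
  · rw [Set.mem_singleton_iff] at hs
    rw [hs]
    exact hf.2 g

end Pool.Agent.Folk330
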