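import Pool.Agent.Folk330.Basic

/-!
# The first edge stabiliser (job FK-1)

`kk1` is the subgroup generated by `T` and `w` (order 24).
-/

noncomputable section

namespace Pool.Agent.Folk330

open G2

private theorem Hs_mul {x y : RR} : x ∈ Hs → y ∈ Hs → x * y ∈ Hs := by
  revert x y; decide +kernel

private theorem Hs_neg {x : RR} : x ∈ Hs → -x ∈ Hs := by
  revert x; decide +kernel

private theorem Hs_inv {x y : RR} : x ∈ Hs → x * y = 1 → y ∈ Hs := by
  revert x y; decide +kernel

private theorem s28 (n : ℕ) : (7 : RR) ^ n * 28 ^ n = 1 := by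
  rw [← mul_pow]
  have : (7 : RR) * 28 = 1 := by decide
  rw [this, one_pow]

private theorem mem_Hs_iff {x : RR} : x ∈ Hs ↔ ∃ n, n < 12 ∧ (28 : RR) ^ n = x := by
  rw [Hs_eq]
  simp

private theorem kk1_mul {x y : G2} (hx : kk1 x) (hy : kk1 y) : kk1 (x * y) := by
  rcases hx with ⟨xb, xc, xa⟩ | ⟨xa, xd, xb⟩ <;> rcases hy with ⟨yb, yc, ya⟩ | ⟨ya, yd, yb⟩
  · left
    refine ⟨by simp [xb, yb], by simp [xc, yc], ?_⟩
    simpa [xb] using Hs_mul xa ya
  · right
    refine ⟨by simp [xb, ya], by simp [xc, yd], ?_⟩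
    simpa [xb] using Hs_mul xa yb
  · right
    refine ⟨by simp [xa, yc], by simp [xd, yb], ?_⟩
    have h1 : y.a * y.d = 1 := by
      have := y.h
      simpa [yb, yc] using this
    simpa [xa] using Hs_mul xb (Hs_inv ya h1)
  · left
    refine ⟨by simp [xa, yd], by simp [xd, ya], ?_⟩
    have h1 : y.b * (-y.c) = 1 := by
      have := y.h
      simpa [ya, yd] using this
    have h2 : y.c ∈ Hs := by
      have := Hs_neg (Hs_inv yb h1)
      simpa using this
    simpa [xa] using Hs_mul xb h2

private theorem kk1_inv {x : G2} (hx : kk1 x) : kk1 x⁻¹ := by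
  rcases hx with ⟨xb, xc, xa⟩ | ⟨xa, xd, xb⟩
  · left
    refine ⟨by simp [xb], by simp [xc], ?_⟩
    have h1 : x.a * x.d = 1 := by
      have := x.h
      simpa [xb, xc] using this
    simpa using Hs_inv xa h1
  · right
    refine ⟨by simp [xd], by simp [xa], ?_⟩
    simpa using Hs_neg xb

private theorem diag_eq {g : G2} (n : ℕ) (hb : g.b = 0) (hc : g.c = 0) (ha : (28 : RR) ^ n = g.a) :
    g = T ^ n := by
  obtain ⟨h1, h2, h3, h4⟩ := T_pow n
  have hd : g.a * g.d = 1 := by
    have := g.h
    simpa [hb, hc] using this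
  have hs := s28 n
  ext
  · rw [h1, ha]
  · rw [h2, hb]
  · rw [h3, hc]
  · rw [h4]
    rw [← ha] at hd
    linear_combination (7 : RR) ^ n * hd - g.d * hs

private theorem anti_eq {g : G2} (n : ℕ) (ha : g.a = 0) (hd : g.d = 0) (hb : (28 : RR) ^ n = g.b) :
    g = T ^ n * w := by
  obtain ⟨h1, h2, h3, h4⟩ := T_pow n
  have hc : g.b * g.c = -1 := by
    have h := g.h
    rw [ha, hd] at h
    linear_combination -h
  have hs := s28 n
  ext
  · simp [h1, h2, ha]
  · simp [h1, h2, hb]
  · simp only [mul_c, h3, h4, w_a, w_c]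
    rw [← hb] at hc
    linear_combination (7 : RR) ^ n * hc - g.c * hs
  · simp [h3, h4, hd]

theorem kk1_iff (g : G2) : kk1 g ↔ g ∈ Subgroup.closure ({T, w} : Set G2) := by
  constructor
  · have hT : T ∈ Subgroup.closure ({T, w} : Set G2) := Subgroup.subset_closure (by simp)
    have hw : w ∈ Subgroup.closure ({T, w} : Set G2) := Subgroup.subset_closure (by simp)
    rintro (⟨hb, hc, ha⟩ | ⟨ha, hd, hb⟩)
    · obtain ⟨n, -, hn⟩ := mem_Hs_iff.1 ha
      rw [diag_eq n hb hc hn]
      exact Subgroup.pow_mem _ hT n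
    · obtain ⟨n, -, hn⟩ := mem_Hs_iff.1 hb
      rw [anti_eq n ha hd hn]
      exact Subgroup.mul_mem _ (Subgroup.pow_mem _ hT n) hw
  · intro h
    induction h using Subgroup.closure_induction with
    | mem x hx =>
      rcases hx with rfl | hx
      · left; exact ⟨rfl, rfl, by decide +kernel⟩
      · rw [Set.mem_singleton_iff] at hx
        subst hx
        right; exact ⟨rfl, rfl, by decide +kernel⟩
    | one => left; exact ⟨rfl, rfl, by decide +kernel⟩
    | mul x y _ _ hx hy => exact kk1_mul hx hy
    | inv x _ hx => exact kk1_inv hx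

/-- The first stabiliser has at least 24 elements: give an injective map from two copies of
`Finset.range 12`, or a list of 24 elements with natural entries. -/
theorem card_kk1 : 24 ≤ (Finset.univ.filter kk1).card := by
  classical
  let F : ℕ × Bool → G2 := fun p => if p.2 then T ^ p.1 * w else T ^ p.1
  have key : ∀ x ∈ Finset.range 12, ∀ y ∈ Finset.range 12, (28 : RR) ^ x = 28 ^ y → x = y := by
    decide +kernel
  have hne : ∀ n : ℕ, (28 : RR) ^ n ≠ 0 := by
    intro n h
    have := s28 n
    rw [h, mul_zero] at this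
    exact absurd this (by decide)
  have hFa : ∀ n, (F (n, false)).a = 28 ^ n := fun n => by simp [F, (T_pow n).1]
  have hFa' : ∀ n, (F (n, true)).a = 0 := fun n => by simp [F, (T_pow n).2.1]
  have hFb' : ∀ n, (F (n, true)).b = 28 ^ n := fun n => by simp [F, (T_pow n).1, (T_pow n).2.1]
  have hsub : ((Finset.range 12) ×ˢ (Finset.univ : Finset Bool)).image F ⊆
      Finset.univ.filter kk1 := by
    intro g hg
    rw [Finset.mem_image] at hg
    obtain ⟨⟨n, b⟩, hnb, rfl⟩ := hg
    rw [Finset.mem_product] at hnb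
    have hn : n < 12 := by simpa using hnb.1
    rw [Finset.mem_filter]
    refine ⟨Finset.mem_univ _, ?_⟩
    rw [kk1_iff]
    have hT : T ∈ Subgroup.closure ({T, w} : Set G2) := Subgroup.subset_closure (by simp)
    have hw : w ∈ Subgroup.closure ({T, w} : Set G2) := Subgroup.subset_closure (by simp)
    cases b
    · simpa [F] using Subgroup.pow_mem _ hT n
    · simpa [F] using Subgroup.mul_mem _ (Subgroup.pow_mem _ hT n) hw
  have hinj : Set.InjOn F ((Finset.range 12) ×ˢ (Finset.univ : Finset Bool) : Finset (ℕ × Bool)) := by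
    rintro ⟨n, b⟩ hn ⟨m, c⟩ hm h
    simp only [Finset.coe_product, Set.mem_prod, Finset.mem_coe] at hn hm
    cases b <;> cases c
    · have := congrArg G2.a h
      rw [hFa, hFa] at this
      rw [key n hn.1 m hm.1 this]
    · have := congrArg G2.a h
      rw [hFa, hFa'] at this
      exact absurd this (hne n)
    · have := congrArg G2.a h
      rw [hFa, hFa'] at this
      exact absurd this.symm (hne m)
    · have := congrArg G2.b h
      rw [hFb', hFb'] at this
      rw [key n hn.1 m hm.1 this]
  calc 24 = (((Finset.range 12) ×ˢ (Finset.univ : Finset Bool)).image F).card := by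
        rw [Finset.card_image_of_injOn hinj]
        simp
    _ ≤ _ := Finset.card_le_card hsub

end Pool.Agent.Folk330
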