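import Pool.Agent.Folk330.Chk

/-!
# The operator as a sum over the list of neighbours, and the iteration
-/

noncomputable section

namespace Pool.Agent.Folk330

open G2

theorem hs_sum (F : RR → ℕ) : ∑ h ∈ Hs, F h = F 1 + (F 28 + (F 4 + (F 47 + (F 16 + (F 58 +
    (F 64 + (F 37 + (F 61 + (F 18 + (F 49 + (F 7 + 0))))))))))) := by
  have h : Hs.val = (([1, 28, 4, 47, 16, 58, 64, 37, 61, 18, 49, 7] : List RR) : Multiset RR) := by
    decide +kernel
  rw [Finset.sum, h]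
  rfl

theorem ts_sum (F : RR → ℕ) : ∑ h ∈ Ts, F h = F 4 + (F 9 + (F 14 + (F 19 + (F 24 + (F 29 +
    (F 34 + (F 39 + (F 44 + (F 49 + (F 54 + (F 59 + (F 64 + 0)))))))))))) := by
  have h : Ts.val = (([4, 9, 14, 19, 24, 29, 34, 39, 44, 49, 54, 59, 64] : List RR) :
      Multiset RR) := by
    decide +kernel
  rw [Finset.sum, h]
  rfl

theorem om_sq : om 1 = 17 ∧ om 4 = 17 ∧ om 16 = 17 ∧ om 64 = 17 ∧ om 61 = 17 ∧ om 49 = 17 := by
  decide +kernel

theorem om_nsq : om 28 = 18 ∧ om 47 = 18 ∧ om 58 = 18 ∧ om 37 = 18 ∧ om 18 = 18 ∧ om 7 = 18 := by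
  decide +kernel

theorem A1_list (f f' : G2 → ℕ) (g : G2) : A1 f f' g = 714 * f g +
    (51 * (nP1.map fun N => vf f f' N.c (g * toG N.m)).sum +
      (54 * (nQ1.map fun N => vf f f' N.c (g * toG N.m)).sum +
        21 * (nR1.map fun N => vf f f' N.c (g * toG N.m)).sum)) := by
  have u1 : toG ⟨1, 1, 0, 1⟩ = un 1 := by decide +kernel
  have u2 : toG ⟨1, 28, 0, 1⟩ = un 28 := by decide +kernel
  have u3 : toG ⟨1, 4, 0, 1⟩ = un 4 := by decide +kernel
  have u4 : toG ⟨1, 47, 0, 1⟩ = un 47 := by decide +kernel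
  have u5 : toG ⟨1, 16, 0, 1⟩ = un 16 := by decide +kernel
  have u6 : toG ⟨1, 58, 0, 1⟩ = un 58 := by decide +kernel
  have u7 : toG ⟨1, 64, 0, 1⟩ = un 64 := by decide +kernel
  have u8 : toG ⟨1, 37, 0, 1⟩ = un 37 := by decide +kernel
  have u9 : toG ⟨1, 61, 0, 1⟩ = un 61 := by decide +kernel
  have u10 : toG ⟨1, 18, 0, 1⟩ = un 18 := by decide +kernel
  have u11 : toG ⟨1, 49, 0, 1⟩ = un 49 := by decide +kernel
  have u12 : toG ⟨1, 7, 0, 1⟩ = un 7 := by decide +kernel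
  have u13 : toG ⟨1, 26, 0, 1⟩ = un 26 := by decide +kernel
  have u14 : toG ⟨1, 39, 0, 1⟩ = un 39 := by decide +kernel
  have u15 : toG ⟨1, 26, 39, 40⟩ = xm := by decide +kernel
  have v1 : toG ⟨0, 1, 64, 64⟩ = w * un 1 := by decide +kernel
  have v2 : toG ⟨0, 1, 64, 37⟩ = w * un 28 := by decide +kernel
  have v3 : toG ⟨0, 1, 64, 61⟩ = w * un 4 := by decide +kernel
  have v4 : toG ⟨0, 1, 64, 18⟩ = w * un 47 := by decide +kernel
  have v5 : toG ⟨0, 1, 64, 49⟩ = w * un 16 := by decide +kernel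
  have v6 : toG ⟨0, 1, 64, 7⟩ = w * un 58 := by decide +kernel
  have v7 : toG ⟨0, 1, 64, 1⟩ = w * un 64 := by decide +kernel
  have v8 : toG ⟨0, 1, 64, 28⟩ = w * un 37 := by decide +kernel
  have v9 : toG ⟨0, 1, 64, 4⟩ = w * un 61 := by decide +kernel
  have v10 : toG ⟨0, 1, 64, 47⟩ = w * un 18 := by decide +kernel
  have v11 : toG ⟨0, 1, 64, 16⟩ = w * un 49 := by decide +kernel
  have v12 : toG ⟨0, 1, 64, 58⟩ = w * un 7 := by decide +kernel
  have v13 : toG ⟨0, 1, 64, 39⟩ = w * un 26 := by decide +kernel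
  have v14 : toG ⟨0, 1, 64, 26⟩ = w * un 39 := by decide +kernel
  have v15 : toG ⟨39, 40, 64, 39⟩ = w * xm := by decide +kernel
  obtain ⟨o1, o2, o3, o4, o5, o6⟩ := om_sq
  obtain ⟨p1, p2, p3, p4, p5, p6⟩ := om_nsq
  unfold A1 Ap
  rw [hs_sum, hs_sum]
  simp only [nP1, nQ1, nR1, List.map, List.sum_cons, List.sum_nil, vf, if_true, Bool.false_eq_true,
    if_false, u1, u2, u3, u4, u5, u6, u7, u8, u9, u10, u11, u12, u13, u14, u15, v1, v2, v3, v4, v5,
    v6, v7, v8, v9, v10, v11, v12, v13, v14, v15, o1, o2, o3, o4, o5, o6, p1, p2, p3, p4, p5, p6,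
    Nat.cast_id, ← mul_assoc]
  ring

theorem A2_list (f f' : G2 → ℕ) (g : G2) : A2 f f' g = 444 * f' g +
    (24 * (nP2.map fun N => vf f f' N.c (g * toG N.m)).sum +
      (8 * (nQ2.map fun N => vf f f' N.c (g * toG N.m)).sum +
        28 * (nR2.map fun N => vf f f' N.c (g * toG N.m)).sum)) := by
  have u1 : toG ⟨1, 26, 0, 1⟩ = un 26 := by decide +kernel
  have u2 : toG ⟨1, 26, 39, 40⟩ = xm := by decide +kernel
  have u3 : toG ⟨1, 39, 0, 1⟩ = un 39 := by decide +kernel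
  have u4 : toG ⟨15, 13, 13, 33⟩ = sg * un 26 := by decide +kernel
  have u5 : toG ⟨2, 0, 13, 33⟩ = sg * xm := by decide +kernel
  have u6 : toG ⟨15, 13, 13, 7⟩ = sg * un 39 := by decide +kernel
  have u7 : toG ⟨14, 26, 39, 40⟩ = km := by decide +kernel
  have u8 : toG ⟨2, 0, 52, 33⟩ = sg * km := by decide +kernel
  have t1 : toG ⟨1, 4, 0, 1⟩ = un 4 := by decide +kernel
  have t2 : toG ⟨1, 9, 0, 1⟩ = un 9 := by decide +kernel
  have t3 : toG ⟨1, 14, 0, 1⟩ = un 14 := by decide +kernel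
  have t4 : toG ⟨1, 19, 0, 1⟩ = un 19 := by decide +kernel
  have t5 : toG ⟨1, 24, 0, 1⟩ = un 24 := by decide +kernel
  have t6 : toG ⟨1, 29, 0, 1⟩ = un 29 := by decide +kernel
  have t7 : toG ⟨1, 34, 0, 1⟩ = un 34 := by decide +kernel
  have t9 : toG ⟨1, 44, 0, 1⟩ = un 44 := by decide +kernel
  have t10 : toG ⟨1, 49, 0, 1⟩ = un 49 := by decide +kernel
  have t11 : toG ⟨1, 54, 0, 1⟩ = un 54 := by decide +kernel
  have t12 : toG ⟨1, 59, 0, 1⟩ = un 59 := by decide +kernel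
  have t13 : toG ⟨1, 64, 0, 1⟩ = un 64 := by decide +kernel
  have s1 : toG ⟨15, 8, 13, 7⟩ = sg * un 4 := by decide +kernel
  have s2 : toG ⟨15, 18, 13, 7⟩ = sg * un 9 := by decide +kernel
  have s3 : toG ⟨15, 28, 13, 7⟩ = sg * un 14 := by decide +kernel
  have s4 : toG ⟨15, 38, 13, 7⟩ = sg * un 19 := by decide +kernel
  have s5 : toG ⟨15, 48, 13, 7⟩ = sg * un 24 := by decide +kernel
  have s6 : toG ⟨15, 58, 13, 7⟩ = sg * un 29 := by decide +kernel
  have s7 : toG ⟨15, 3, 13, 7⟩ = sg * un 34 := by decide +kernel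
  have s9 : toG ⟨15, 23, 13, 7⟩ = sg * un 44 := by decide +kernel
  have s10 : toG ⟨15, 33, 13, 7⟩ = sg * un 49 := by decide +kernel
  have s11 : toG ⟨15, 43, 13, 7⟩ = sg * un 54 := by decide +kernel
  have s12 : toG ⟨15, 53, 13, 7⟩ = sg * un 59 := by decide +kernel
  have s13 : toG ⟨15, 63, 13, 7⟩ = sg * un 64 := by decide +kernel
  unfold A2 Bp
  rw [ts_sum, ts_sum]
  simp only [nP2, nQ2, nR2, List.map, List.sum_cons, List.sum_nil, vf, if_true, Bool.false_eq_true,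
    if_false, u1, u2, u3, u4, u5, u6, u7, u8, t1, t2, t3, t4, t5, t6, t7, t9, t10, t11, t12, t13,
    s1, s2, s3, s4, s5, s6, s7, s9, s10, s11, s12, s13, ← mul_assoc]
  ring

theorem nP1_ok : ∀ N ∈ nP1, Ok N.m := by
  unfold nP1
  simp only [List.mem_cons, List.not_mem_nil, or_false, forall_eq_or_imp, forall_eq]
  decide +kernel

theorem nQ1_ok : ∀ N ∈ nQ1, Ok N.m := by
  unfold nQ1
  simp only [List.mem_cons, List.not_mem_nil, or_false, forall_eq_or_imp, forall_eq]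
  decide +kernel

theorem nR1_ok : ∀ N ∈ nR1, Ok N.m := by
  unfold nR1
  simp only [List.mem_cons, List.not_mem_nil, or_false, forall_eq_or_imp, forall_eq]
  decide +kernel

theorem nP2_ok : ∀ N ∈ nP2, Ok N.m := by
  unfold nP2
  simp only [List.mem_cons, List.not_mem_nil, or_false, forall_eq_or_imp, forall_eq]
  decide +kernel

theorem nQ2_ok : ∀ N ∈ nQ2, Ok N.m := by
  unfold nQ2
  simp only [List.mem_cons, List.not_mem_nil, or_false, forall_eq_or_imp, forall_eq]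
  decide +kernel

theorem nR2_ok : ∀ N ∈ nR2, Ok N.m := by
  unfold nR2
  simp only [List.mem_cons, List.not_mem_nil, or_false, forall_eq_or_imp, forall_eq]
  decide +kernel

end Pool.Agent.Folk330
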