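import Pool.Agent.Folk330.TabA1
import Pool.Agent.Folk330.TabA2

/-!
# The table for the first base edge (generated)
-/

noncomputable section

namespace Pool.Agent.Folk330

/-- Data. -/
def tabA1 : List (List Row) := [rA0, rA1, rA2, rA3, rA4, rA5, rA6, rA7, rA8, rA9, rA10, rA11, rA12, rA13, rA14, rA15, rA16, rA17, rA18, rA19, rA20, rA21, rA22, rA23, rA24, rA25, rA26, rA27, rA28, rA29, rA30, rA31, rA32, rA33, rA34, rA35, rA36, rA37, rA38, rA39, rA40, rA41, rA42, rA43, rA44, rA45, rA46, rA47, rA48, rA49, rA50, rA51, rA52, rA53, rA54, rA55, rA56, rA57, rA58, rA59]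

/-- Data. -/
def tabA2 : List (List Row) := [qA0, qA1, qA2, qA3, qA4, qA5, qA6, qA7, qA8, qA9, qA10, qA11]

end Pool.Agent.Folk330
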