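import Pool.Agent.Folk330.Form

/-!
# The trace inequality (job FK-11)

Let `(v, v')` be an eigenvector with eigenvalue `lam`. Write `I((f, f'), (k, k')) =
26 * ∑ f g * k g + 3 * ∑ f' g * k' g` and `N = I((v, v'), (v, v')) > 0`.

Fix `h` in the group; `v_h = fun g => v (h * g)`, `v'_h = fun g => v' (h * g)` is again an
eigenvector (`A1_left`, `A2_left`), with the same `N` (translation). Let `z = ∑_{k < m} p k • (y1 k)`
(cast to the reals).
* `I(z, (v_h, v'_h)) = P * I(y1 0, (v_h, v'_h))` where `P = ∑_{k < m} p k * lam ^ k`: by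
  `form_symm`, `I(y1 (k + 1), (v_h, v'_h)) = lam * I(y1 k, (v_h, v'_h))`.
* `I(y1 0, (v_h, v'_h)) = 26 * ∑_{g : kk1 g} v (h * g) = 26 * n1 * v h`, with
  `n1 = #{g | kk1 g} ≥ 24` (`Inv1.kk`, `card_kk1`).
* Cauchy-Schwarz: `I(z, (v_h, v'_h)) ^ 2 ≤ I(z, z) * N`.
* `I(z, z) = ∑_{k, l < m} p k * p l * I(y1 k, y1 l)` and `I(y1 k, y1 l) = I(y1 (k + l), y1 0) =
  26 * n1 * (y1 (k + l)).1 1` (by `form_symm` repeatedly, and the invariance of `(y1 (k + l)).1`).
So `(26 * n1 * v h * P) ^ 2 ≤ 26 * n1 * S1 * N`, hence `26 * n1 * (v h) ^ 2 * P ^ 2 ≤ S1 * N`, hence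
`26 * 24 * (v h) ^ 2 * P ^ 2 ≤ S1 * N`. Similarly `3 * 156 * (v' h) ^ 2 * Q ^ 2 ≤ S2 * N` from `y2`.
Multiply the first by `Q ^ 2`, the second by `P ^ 2`, and sum over `h`:
`N * P ^ 2 * Q ^ 2 ≤ |G2| * N * (S1 * Q ^ 2 / 24 + S2 * P ^ 2 / 156)`; divide by `N` and use
`card_G2` (`S1, S2 ≥ 0` follows from the inequalities above, taking `h` arbitrary).

Status: complete (helper26).
-/

noncomputable section

namespace Pool.Agent.Folk330

open G2

/-- The inner product. -/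
def tI (f f' k k' : G2 → ℝ) : ℝ := 26 * ∑ g, f g * k g + 3 * ∑ g, f' g * k' g

theorem tI_comm (f f' k k' : G2 → ℝ) : tI f f' k k' = tI k k' f f' := by
  unfold tI
  simp only [fun g => mul_comm (f g) (k g), fun g => mul_comm (f' g) (k' g)]

theorem tI_self_nonneg (f f' : G2 → ℝ) : 0 ≤ tI f f' f f' := by
  unfold tI
  have h1 : 0 ≤ ∑ g, f g * f g := Finset.sum_nonneg fun g _ => mul_self_nonneg _
  have h2 : 0 ≤ ∑ g, f' g * f' g := Finset.sum_nonneg fun g _ => mul_self_nonneg _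
  linarith

theorem tI_cs (f f' k k' : G2 → ℝ) :
    tI f f' k k' ^ 2 ≤ tI f f' f f' * tI k k' k k' := by
  have h1 := Finset.sum_mul_sq_le_sq_mul_sq Finset.univ f k
  have h2 := Finset.sum_mul_sq_le_sq_mul_sq Finset.univ f' k'
  simp only [sq (f _), sq (k _), sq (f' _), sq (k' _)] at h1 h2
  unfold tI
  set a := ∑ g, f g * k g
  set b := ∑ g, f' g * k' g
  have hA : 0 ≤ ∑ g, f g * f g := Finset.sum_nonneg fun g _ => mul_self_nonneg _
  have hB : 0 ≤ ∑ g, f' g * f' g := Finset.sum_nonneg fun g _ => mul_self_nonneg _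
  have hC : 0 ≤ ∑ g, k g * k g := Finset.sum_nonneg fun g _ => mul_self_nonneg _
  have hD : 0 ≤ ∑ g, k' g * k' g := Finset.sum_nonneg fun g _ => mul_self_nonneg _
  set A := ∑ g, f g * f g
  set B := ∑ g, f' g * f' g
  set C := ∑ g, k g * k g
  set D := ∑ g, k' g * k' g
  have h3 : (a * b) ^ 2 ≤ ((A * D + B * C) / 2) ^ 2 := by
    have e1 : (a * b) ^ 2 ≤ (A * C) * (B * D) := by
      rw [mul_pow]
      exact mul_le_mul h1 h2 (sq_nonneg _) (mul_nonneg hA hC)
    nlinarith [sq_nonneg (A * D - B * C)]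
  have h4 : a * b ≤ (A * D + B * C) / 2 := by
    have h5 := abs_le_of_sq_le_sq h3 (by positivity)
    exact (le_abs_self _).trans h5
  nlinarith

theorem tI_sum (m : ℕ) (p : ℕ → ℝ) (F F' : ℕ → G2 → ℝ) (u u' : G2 → ℝ) :
    tI (fun g => ∑ k ∈ Finset.range m, p k * F k g)
      (fun g => ∑ k ∈ Finset.range m, p k * F' k g) u u' =
      ∑ k ∈ Finset.range m, p k * tI (F k) (F' k) u u' := by
  have e : ∀ (F : ℕ → G2 → ℝ) (u : G2 → ℝ), ∑ g, (∑ k ∈ Finset.range m, p k * F k g) * u g =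
      ∑ k ∈ Finset.range m, p k * ∑ g, F k g * u g := by
    intro F u
    simp_rw [Finset.sum_mul]
    rw [Finset.sum_comm]
    refine Finset.sum_congr rfl fun k _ => ?_
    rw [Finset.mul_sum]
    exact Finset.sum_congr rfl fun g _ => by ring
  unfold tI
  rw [e, e, Finset.mul_sum, Finset.mul_sum, ← Finset.sum_add_distrib]
  exact Finset.sum_congr rfl fun k _ => by ring

theorem trace_aux (Y Y' : ℕ → G2 → ℝ) (hY : ∀ k, Inv1 (Y k)) (hY' : ∀ k, Inv2 (Y' k))
    (hs : ∀ k g, Y (k + 1) g = A1 (Y k) (Y' k) g) (hs' : ∀ k g, Y' (k + 1) g = A2 (Y k) (Y' k) g)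
    {u u' : G2 → ℝ} (hu : Inv1 u) (hu' : Inv2 u') (lam : ℝ)
    (h1 : ∀ g, A1 u u' g = lam * u g) (h2 : ∀ g, A2 u u' g = lam * u' g)
    (p : ℕ → ℝ) (m : ℕ) :
    ((∑ k ∈ Finset.range m, p k * lam ^ k) * tI (Y 0) (Y' 0) u u') ^ 2 ≤
      (∑ k ∈ Finset.range m, ∑ l ∈ Finset.range m,
        p k * p l * tI (Y (k + l)) (Y' (k + l)) (Y 0) (Y' 0)) * tI u u' u u' := by
  have a1 : ∀ k, tI (Y k) (Y' k) u u' = lam ^ k * tI (Y 0) (Y' 0) u u' := by
    intro k
    induction k with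
    | zero => rw [pow_zero, one_mul]
    | succ k ih =>
      have e := form_symm hu hu' (hY k) (hY' k)
      have e1 : tI (Y (k + 1)) (Y' (k + 1)) u u' =
          26 * ∑ g, u g * A1 (Y k) (Y' k) g + 3 * ∑ g, u' g * A2 (Y k) (Y' k) g := by
        rw [tI_comm]
        unfold tI
        simp only [hs, hs']
      have e2 : 26 * ∑ g, Y k g * A1 u u' g + 3 * ∑ g, Y' k g * A2 u u' g =
          lam * tI (Y k) (Y' k) u u' := by
        unfold tI
        simp only [h1, h2]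
        have e3 : ∀ (F w : G2 → ℝ), ∑ g, F g * (lam * w g) = lam * ∑ g, F g * w g := by
          intro F w
          rw [Finset.mul_sum]
          exact Finset.sum_congr rfl fun g _ => by ring
        rw [e3, e3]
        ring
      rw [e1, e, e2, ih, pow_succ]
      ring
  have a2 : ∀ l k, tI (Y k) (Y' k) (Y l) (Y' l) = tI (Y (k + l)) (Y' (k + l)) (Y 0) (Y' 0) := by
    intro l
    induction l with
    | zero => intro k; rfl
    | succ l ih =>
      intro k
      have e := form_symm (hY k) (hY' k) (hY l) (hY' l)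
      have e1 : tI (Y k) (Y' k) (Y (l + 1)) (Y' (l + 1)) =
          26 * ∑ g, Y k g * A1 (Y l) (Y' l) g + 3 * ∑ g, Y' k g * A2 (Y l) (Y' l) g := by
        unfold tI
        simp only [hs, hs']
      have e2 : tI (Y l) (Y' l) (Y (k + 1)) (Y' (k + 1)) =
          26 * ∑ g, Y l g * A1 (Y k) (Y' k) g + 3 * ∑ g, Y' l g * A2 (Y k) (Y' k) g := by
        unfold tI
        simp only [hs, hs']
      have e3 : k + (l + 1) = k + 1 + l := by ring
      rw [e1, e, ← e2, tI_comm, ih (k + 1), e3]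
  have hcs := tI_cs (fun g => ∑ k ∈ Finset.range m, p k * Y k g)
    (fun g => ∑ k ∈ Finset.range m, p k * Y' k g) u u'
  have b1 : tI (fun g => ∑ k ∈ Finset.range m, p k * Y k g)
      (fun g => ∑ k ∈ Finset.range m, p k * Y' k g) u u' =
      (∑ k ∈ Finset.range m, p k * lam ^ k) * tI (Y 0) (Y' 0) u u' := by
    rw [tI_sum, Finset.sum_mul]
    refine Finset.sum_congr rfl fun k _ => ?_
    rw [a1 k]
    ring
  have b2 : tI (fun g => ∑ k ∈ Finset.range m, p k * Y k g)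
      (fun g => ∑ k ∈ Finset.range m, p k * Y' k g)
      (fun g => ∑ k ∈ Finset.range m, p k * Y k g)
      (fun g => ∑ k ∈ Finset.range m, p k * Y' k g) =
      ∑ k ∈ Finset.range m, ∑ l ∈ Finset.range m,
        p k * p l * tI (Y (k + l)) (Y' (k + l)) (Y 0) (Y' 0) := by
    rw [tI_sum]
    refine Finset.sum_congr rfl fun k _ => ?_
    rw [tI_comm, tI_sum, Finset.mul_sum]
    refine Finset.sum_congr rfl fun l _ => ?_
    rw [a2 k l, add_comm l k]
    ring
  rw [b1, b2] at hcs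
  exact hcs

theorem trace_ind1 {f : G2 → ℝ} (hf : Inv1 f) :
    ∑ g, (((y1 0).1 g : ℕ) : ℝ) * f g = ((Finset.univ.filter kk1).card : ℝ) * f 1 := by
  have e : ∀ g, (((y1 0).1 g : ℕ) : ℝ) * f g = if kk1 g then f 1 else 0 := by
    intro g
    simp only [y1]
    by_cases h : kk1 g
    · rw [if_pos h, if_pos h]
      have := hf.kk h 1
      rw [one_mul] at this
      rw [this]
      simp
    · rw [if_neg h, if_neg h]
      simp
  rw [Finset.sum_congr rfl fun g _ => e g, ← Finset.sum_filter, Finset.sum_const, nsmul_eq_mul]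

theorem trace_ind2 {f : G2 → ℝ} (hf : Inv2 f) :
    ∑ g, (((y2 0).2 g : ℕ) : ℝ) * f g = ((Finset.univ.filter kk2).card : ℝ) * f 1 := by
  have e : ∀ g, (((y2 0).2 g : ℕ) : ℝ) * f g = if kk2 g then f 1 else 0 := by
    intro g
    simp only [y2]
    by_cases h : kk2 g
    · rw [if_pos h, if_pos h]
      have := hf.kk h 1
      rw [one_mul] at this
      rw [this]
      simp
    · rw [if_neg h, if_neg h]
      simp
  rw [Finset.sum_congr rfl fun g _ => e g, ← Finset.sum_filter, Finset.sum_const, nsmul_eq_mul]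

theorem trace_tI1 {f : G2 → ℝ} (f' : G2 → ℝ) (hf : Inv1 f) :
    tI (fun g => (((y1 0).1 g : ℕ) : ℝ)) (fun g => (((y1 0).2 g : ℕ) : ℝ)) f f' =
      26 * (((Finset.univ.filter kk1).card : ℝ) * f 1) := by
  unfold tI
  rw [trace_ind1 hf]
  simp [y1]

theorem trace_tI2 (f : G2 → ℝ) {f' : G2 → ℝ} (hf : Inv2 f') :
    tI (fun g => (((y2 0).1 g : ℕ) : ℝ)) (fun g => (((y2 0).2 g : ℕ) : ℝ)) f f' =
      3 * (((Finset.univ.filter kk2).card : ℝ) * f' 1) := by
  unfold tI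
  rw [trace_ind2 hf]
  simp [y2]

theorem trace_inv1 {f : G2 → ℕ} (hf : Inv1 f) : Inv1 (fun g => (f g : ℝ)) :=
  ⟨fun g => congrArg _ (hf.1 g), fun g => congrArg _ (hf.2 g)⟩

theorem trace_inv2 {f : G2 → ℕ} (hf : Inv2 f) : Inv2 (fun g => (f g : ℝ)) :=
  ⟨fun g => congrArg _ (hf.1 g), fun g => congrArg _ (hf.2 g)⟩

theorem trace_shift {v v' : G2 → ℝ} (h : G2) :
    tI (fun x => v (h * x)) (fun x => v' (h * x)) (fun x => v (h * x)) (fun x => v' (h * x)) =
      tI v v' v v' := by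
  unfold tI
  have e : ∀ w : G2 → ℝ, ∑ g, w (h * g) * w (h * g) = ∑ g, w g * w g := fun w =>
    Fintype.sum_equiv (Equiv.mulLeft h) _ _ fun g => rfl
  rw [e, e]

theorem trace_one {v v' : G2 → ℝ} (hv : Inv1 v) (hv' : Inv2 v') (lam : ℝ)
    (h1 : ∀ g, A1 v v' g = lam * v g) (h2 : ∀ g, A2 v v' g = lam * v' g)
    (p : ℕ → ℝ) (m : ℕ) (h : G2) :
    26 * 24 * v h ^ 2 * (∑ k ∈ Finset.range m, p k * lam ^ k) ^ 2 ≤
      (∑ k ∈ Finset.range m, ∑ l ∈ Finset.range m, p k * p l * ((y1 (k + l)).1 1 : ℝ)) *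
        tI v v' v v' := by
  have hu : Inv1 (fun x => v (h * x)) :=
    ⟨fun g => by show v (h * (g * T)) = _; rw [← mul_assoc]; exact hv.1 _,
     fun g => by show v (h * (g * w)) = _; rw [← mul_assoc]; exact hv.2 _⟩
  have hu' : Inv2 (fun x => v' (h * x)) :=
    ⟨fun g => by show v' (h * (g * sg)) = _; rw [← mul_assoc]; exact hv'.1 _,
     fun g => by show v' (h * (g * U)) = _; rw [← mul_assoc]; exact hv'.2 _⟩
  have key := trace_aux (fun k g => ((y1 k).1 g : ℝ)) (fun k g => ((y1 k).2 g : ℝ))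
    (fun k => trace_inv1 (y1_inv k).1) (fun k => trace_inv2 (y1_inv k).2)
    (fun k g => (A1_cast _ _ g).symm) (fun k g => (A2_cast _ _ g).symm) hu hu' lam
    (fun g => by rw [A1_left]; exact h1 _) (fun g => by rw [A2_left]; exact h2 _) p m
  rw [trace_shift, trace_tI1 _ hu] at key
  have e : ∀ k l : ℕ, tI (fun g => ((y1 (k + l)).1 g : ℝ)) (fun g => ((y1 (k + l)).2 g : ℝ))
      (fun g => ((y1 0).1 g : ℝ)) (fun g => ((y1 0).2 g : ℝ)) =
      26 * (((Finset.univ.filter kk1).card : ℝ) * ((y1 (k + l)).1 1 : ℝ)) := by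
    intro k l
    rw [tI_comm, trace_tI1 _ (trace_inv1 (y1_inv (k + l)).1)]
  simp only [e, mul_one] at key
  have hn : (24 : ℝ) ≤ ((Finset.univ.filter kk1).card : ℝ) := by exact_mod_cast card_kk1
  set n1 : ℝ := ((Finset.univ.filter kk1).card : ℝ)
  have e2 : ∑ k ∈ Finset.range m, ∑ l ∈ Finset.range m,
      p k * p l * (26 * (n1 * ((y1 (k + l)).1 1 : ℝ))) =
      (26 * n1) * ∑ k ∈ Finset.range m, ∑ l ∈ Finset.range m,
        p k * p l * ((y1 (k + l)).1 1 : ℝ) := by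
    rw [Finset.mul_sum]
    refine Finset.sum_congr rfl fun k _ => ?_
    rw [Finset.mul_sum]
    exact Finset.sum_congr rfl fun l _ => by ring
  rw [e2] at key
  set P := ∑ k ∈ Finset.range m, p k * lam ^ k
  set S1 := ∑ k ∈ Finset.range m, ∑ l ∈ Finset.range m, p k * p l * ((y1 (k + l)).1 1 : ℝ)
  set N := tI v v' v v'
  have hpos : 0 < 26 * n1 := by linarith
  have k2 : (26 * n1) * (26 * n1 * v h ^ 2 * P ^ 2) ≤ (26 * n1) * (S1 * N) := by
    calc _ = (P * (26 * (n1 * v h))) ^ 2 := by ring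
      _ ≤ _ := key
      _ = _ := by ring
  have k3 := le_of_mul_le_mul_left k2 hpos
  refine le_trans ?_ k3
  have : 26 * 24 ≤ 26 * n1 := by linarith
  gcongr

theorem trace_two {v v' : G2 → ℝ} (hv : Inv1 v) (hv' : Inv2 v') (lam : ℝ)
    (h1 : ∀ g, A1 v v' g = lam * v g) (h2 : ∀ g, A2 v v' g = lam * v' g)
    (p : ℕ → ℝ) (m : ℕ) (h : G2) :
    3 * 156 * v' h ^ 2 * (∑ k ∈ Finset.range m, p k * lam ^ k) ^ 2 ≤
      (∑ k ∈ Finset.range m, ∑ l ∈ Finset.range m, p k * p l * ((y2 (k + l)).2 1 : ℝ)) *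
        tI v v' v v' := by
  have hu : Inv1 (fun x => v (h * x)) :=
    ⟨fun g => by show v (h * (g * T)) = _; rw [← mul_assoc]; exact hv.1 _,
     fun g => by show v (h * (g * w)) = _; rw [← mul_assoc]; exact hv.2 _⟩
  have hu' : Inv2 (fun x => v' (h * x)) :=
    ⟨fun g => by show v' (h * (g * sg)) = _; rw [← mul_assoc]; exact hv'.1 _,
     fun g => by show v' (h * (g * U)) = _; rw [← mul_assoc]; exact hv'.2 _⟩
  have key := trace_aux (fun k g => ((y2 k).1 g : ℝ)) (fun k g => ((y2 k).2 g : ℝ))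
    (fun k => trace_inv1 (y2_inv k).1) (fun k => trace_inv2 (y2_inv k).2)
    (fun k g => (A1_cast _ _ g).symm) (fun k g => (A2_cast _ _ g).symm) hu hu' lam
    (fun g => by rw [A1_left]; exact h1 _) (fun g => by rw [A2_left]; exact h2 _) p m
  rw [trace_shift, trace_tI2 _ hu'] at key
  have e : ∀ k l : ℕ, tI (fun g => ((y2 (k + l)).1 g : ℝ)) (fun g => ((y2 (k + l)).2 g : ℝ))
      (fun g => ((y2 0).1 g : ℝ)) (fun g => ((y2 0).2 g : ℝ)) =
      3 * (((Finset.univ.filter kk2).card : ℝ) * ((y2 (k + l)).2 1 : ℝ)) := by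
    intro k l
    rw [tI_comm, trace_tI2 _ (trace_inv2 (y2_inv (k + l)).2)]
  simp only [e, mul_one] at key
  have hn : (156 : ℝ) ≤ ((Finset.univ.filter kk2).card : ℝ) := by exact_mod_cast card_kk2
  set n1 : ℝ := ((Finset.univ.filter kk2).card : ℝ)
  have e2 : ∑ k ∈ Finset.range m, ∑ l ∈ Finset.range m,
      p k * p l * (3 * (n1 * ((y2 (k + l)).2 1 : ℝ))) =
      (3 * n1) * ∑ k ∈ Finset.range m, ∑ l ∈ Finset.range m,
        p k * p l * ((y2 (k + l)).2 1 : ℝ) := by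
    rw [Finset.mul_sum]
    refine Finset.sum_congr rfl fun k _ => ?_
    rw [Finset.mul_sum]
    exact Finset.sum_congr rfl fun l _ => by ring
  rw [e2] at key
  set P := ∑ k ∈ Finset.range m, p k * lam ^ k
  set S1 := ∑ k ∈ Finset.range m, ∑ l ∈ Finset.range m, p k * p l * ((y2 (k + l)).2 1 : ℝ)
  set N := tI v v' v v'
  have hpos : 0 < 3 * n1 := by linarith
  have k2 : (3 * n1) * (3 * n1 * v' h ^ 2 * P ^ 2) ≤ (3 * n1) * (S1 * N) := by
    calc _ = (P * (3 * (n1 * v' h))) ^ 2 := by ring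
      _ ≤ _ := key
      _ = _ := by ring
  have k3 := le_of_mul_le_mul_left k2 hpos
  refine le_trans ?_ k3
  have : 3 * 156 ≤ 3 * n1 := by linarith
  gcongr

theorem trace_ineq {v v' : G2 → ℝ} (hv : Inv1 v) (hv' : Inv2 v') (lam : ℝ)
    (h1 : ∀ g, A1 v v' g = lam * v g) (h2 : ∀ g, A2 v v' g = lam * v' g)
    (hne : ∃ g, v g ≠ 0 ∨ v' g ≠ 0) (p q : ℕ → ℝ) (m n : ℕ) :
    (∑ k ∈ Finset.range m, p k * lam ^ k) ^ 2 * (∑ k ∈ Finset.range n, q k * lam ^ k) ^ 2 ≤
      262080 * ((∑ k ∈ Finset.range m, ∑ l ∈ Finset.range m, p k * p l * ((y1 (k + l)).1 1 : ℝ)) *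
          (∑ k ∈ Finset.range n, q k * lam ^ k) ^ 2 / 24 +
        (∑ k ∈ Finset.range n, ∑ l ∈ Finset.range n, q k * q l * ((y2 (k + l)).2 1 : ℝ)) *
          (∑ k ∈ Finset.range m, p k * lam ^ k) ^ 2 / 156) := by
  have t1 := trace_one hv hv' lam h1 h2 p m
  have t2 := trace_two hv hv' lam h1 h2 q n
  set P := ∑ k ∈ Finset.range m, p k * lam ^ k
  set Q := ∑ k ∈ Finset.range n, q k * lam ^ k
  set S1 := ∑ k ∈ Finset.range m, ∑ l ∈ Finset.range m, p k * p l * ((y1 (k + l)).1 1 : ℝ)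
  set S2 := ∑ k ∈ Finset.range n, ∑ l ∈ Finset.range n, q k * q l * ((y2 (k + l)).2 1 : ℝ)
  have hN : 0 < tI v v' v v' := by
    obtain ⟨g, hg⟩ := hne
    unfold tI
    have a1 : 0 ≤ ∑ g, v g * v g := Finset.sum_nonneg fun g _ => mul_self_nonneg _
    have a2 : 0 ≤ ∑ g, v' g * v' g := Finset.sum_nonneg fun g _ => mul_self_nonneg _
    rcases hg with hg | hg
    · have : 0 < ∑ g, v g * v g :=
        Finset.sum_pos' (fun g _ => mul_self_nonneg _) ⟨g, Finset.mem_univ _, mul_self_pos.2 hg⟩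
      linarith
    · have : 0 < ∑ g, v' g * v' g :=
        Finset.sum_pos' (fun g _ => mul_self_nonneg _) ⟨g, Finset.mem_univ _, mul_self_pos.2 hg⟩
      linarith
  have hS1 : 0 ≤ S1 := by
    have := t1 1
    have h0 : 0 ≤ S1 * tI v v' v v' := le_trans (by positivity) this
    exact nonneg_of_mul_nonneg_left h0 hN
  have hS2 : 0 ≤ S2 := by
    have := t2 1
    have h0 : 0 ≤ S2 * tI v v' v v' := le_trans (by positivity) this
    exact nonneg_of_mul_nonneg_left h0 hN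
  have hpt : ∀ h : G2, (26 * (v h * v h) + 3 * (v' h * v' h)) * (P ^ 2 * Q ^ 2) ≤
      tI v v' v v' * (S1 * Q ^ 2 / 24 + S2 * P ^ 2 / 156) := by
    intro h
    have c1 := mul_le_mul_of_nonneg_right (t1 h) (show 0 ≤ Q ^ 2 / 24 by positivity)
    have c2 := mul_le_mul_of_nonneg_right (t2 h) (show 0 ≤ P ^ 2 / 156 by positivity)
    calc (26 * (v h * v h) + 3 * (v' h * v' h)) * (P ^ 2 * Q ^ 2)
        = 26 * 24 * v h ^ 2 * P ^ 2 * (Q ^ 2 / 24) + 3 * 156 * v' h ^ 2 * Q ^ 2 * (P ^ 2 / 156) := by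
          ring
      _ ≤ S1 * tI v v' v v' * (Q ^ 2 / 24) + S2 * tI v v' v v' * (P ^ 2 / 156) := add_le_add c1 c2
      _ = _ := by ring
  have hsum := Finset.sum_le_sum fun (h : G2) (_ : h ∈ Finset.univ) => hpt h
  rw [← Finset.sum_mul, Finset.sum_add_distrib, ← Finset.mul_sum, ← Finset.mul_sum,
    Finset.sum_const, nsmul_eq_mul, Finset.card_univ] at hsum
  have hcard : (Fintype.card G2 : ℝ) ≤ 262080 := by exact_mod_cast card_G2
  have hR : 0 ≤ S1 * Q ^ 2 / 24 + S2 * P ^ 2 / 156 := by positivity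
  have e0 : (26 * ∑ g, v g * v g + 3 * ∑ g, v' g * v' g) = tI v v' v v' := rfl
  rw [e0] at hsum
  have h5 : tI v v' v v' * (P ^ 2 * Q ^ 2) ≤
      tI v v' v v' * ((Fintype.card G2 : ℝ) * (S1 * Q ^ 2 / 24 + S2 * P ^ 2 / 156)) := by
    refine hsum.trans (le_of_eq ?_)
    ring
  have h6 := le_of_mul_le_mul_left h5 hN
  exact h6.trans (mul_le_mul_of_nonneg_right hcard hR)

end Pool.Agent.Folk330
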