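import Pool.Agent.Folk330.Ops
import Pool.Agent.Folk330.FormDefs

/-!
# The quadratic form, one type of triangles (job FK-8)
-/

noncomputable section

namespace Pool.Agent.Folk330

open G2

/-- moving between cosets of the second edge stabiliser -/
theorem Tri1_mv {k' : G2 → ℝ} (hk : Inv2 k') {u x a : G2} (h : kk2 (u⁻¹ * (x * a))) (g : G2) :
    k' (g * x * a) = k' (g * u) := by
  rw [← hk.kk h (g * u)]
  congr 1
  group

/-- moving an element to the identity coset -/
theorem Tri1_mv1 {k' : G2 → ℝ} (hk : Inv2 k') {x a : G2} (h : kk2 (x * a)) (g : G2) :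
    k' (g * x * a) = k' g := by
  rw [mul_assoc]
  exact hk.kk h g

theorem Tri1_R1 {k' : G2 → ℝ} (hk : Inv2 k') (g : G2) : N3 k' (g * un 26) = N1 k' g := by
  have h1 : k' (g * un 26 * un 39) = k' g := Tri1_mv1 hk (by decide +kernel) g
  have h2 : k' (g * un 26 * Nb3) = k' (g * lo 26) := Tri1_mv hk (by decide +kernel) g
  unfold N3 N1
  rw [h1, h2]
  ring

theorem Tri1_R2 {k' : G2 → ℝ} (hk : Inv2 k') (g : G2) : N2 k' (g * lo 26) = N1 k' g := by
  have h1 : k' (g * lo 26 * xm) = k' (g * un 26) := Tri1_mv hk (by decide +kernel) g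
  have h2 : k' (g * lo 26 * lo 39) = k' g := Tri1_mv1 hk (by decide +kernel) g
  unfold N2 N1
  rw [h1, h2]
  ring

theorem Tri1_R3 {k' : G2 → ℝ} (hk : Inv2 k') (g : G2) : N3 k' (g * xm) = N2 k' g := by
  have h1 : k' (g * xm * un 39) = k' (g * lo 39) := Tri1_mv hk (by decide +kernel) g
  have h2 : k' (g * xm * Nb3) = k' g := Tri1_mv1 hk (by decide +kernel) g
  unfold N3 N2
  rw [h1, h2]
  ring

theorem Tri1_R4 {k' : G2 → ℝ} (hk : Inv2 k') (g : G2) : N1 k' (g * lo 39) = N2 k' g := by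
  have h1 : k' (g * lo 39 * un 26) = k' (g * xm) := Tri1_mv hk (by decide +kernel) g
  have h2 : k' (g * lo 39 * lo 26) = k' g := Tri1_mv1 hk (by decide +kernel) g
  unfold N1 N2
  rw [h1, h2]
  ring

theorem Tri1_R5 {k' : G2 → ℝ} (hk : Inv2 k') (g : G2) : N1 k' (g * un 39) = N3 k' g := by
  have h1 : k' (g * un 39 * un 26) = k' g := Tri1_mv1 hk (by decide +kernel) g
  have h2 : k' (g * un 39 * lo 26) = k' (g * Nb3) := Tri1_mv hk (by decide +kernel) g
  unfold N1 N3
  rw [h1, h2]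
  ring

theorem Tri1_R6 {k' : G2 → ℝ} (hk : Inv2 k') (g : G2) : N2 k' (g * Nb3) = N3 k' g := by
  have h1 : k' (g * Nb3 * xm) = k' g := Tri1_mv1 hk (by decide +kernel) g
  have h2 : k' (g * Nb3 * lo 39) = k' (g * un 39) := Tri1_mv hk (by decide +kernel) g
  unfold N2 N3
  rw [h1, h2]
  ring

theorem Tri1_R7 {k' : G2 → ℝ} (hk : Inv2 k') (g : G2) : N4 k' (g * km) = N4 k' g := by
  have h1 : k' (g * km * km) = k' (g * Nb4) := Tri1_mv hk (by decide +kernel) g
  have h2 : k' (g * km * Nb4) = k' g := Tri1_mv1 hk (by decide +kernel) g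
  unfold N4
  rw [h1, h2]
  ring

theorem Tri1_R8 {k' : G2 → ℝ} (hk : Inv2 k') (g : G2) : N4 k' (g * Nb4) = N4 k' g := by
  have h1 : k' (g * Nb4 * km) = k' g := Tri1_mv1 hk (by decide +kernel) g
  have h2 : k' (g * Nb4 * Nb4) = k' (g * km) := Tri1_mv hk (by decide +kernel) g
  unfold N4
  rw [h1, h2]
  ring

/-- translation of the summation variable -/
theorem Tri1_shift (F : G2 → ℝ) (x : G2) : ∑ g, F (g * x) = ∑ g, F g :=
  Fintype.sum_equiv (Equiv.mulRight x) _ _ fun _ => rfl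

/-- one term: two factors translated together -/
theorem Tri1_term (f' : G2 → ℝ) (A B : G2 → ℝ) (x : G2) (h : ∀ g, A (g * x) = B g) :
    ∑ g, f' (g * x) * B g = ∑ g, f' g * A g := by
  rw [← Tri1_shift (fun g => f' g * A g) x]
  refine Finset.sum_congr rfl fun g _ => ?_
  rw [h]

/-- The triangles in the second orbit.

Proof. For `k'` invariant one has (checked by computer; each line follows from membership of two
explicit elements in `kk2`, which is decidable):
`N3 k' (g * un 26) = N1 k' g`, `N2 k' (g * lo 26) = N1 k' g`, `N3 k' (g * xm) = N2 k' g`,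
`N1 k' (g * lo 39) = N2 k' g`, `N1 k' (g * un 39) = N3 k' g`, `N2 k' (g * Nb3) = N3 k' g`,
`N4 k' (g * km) = N4 k' g`, `N4 k' (g * Nb4) = N4 k' g`.
Expanding the first factors and translating, the left side becomes
`3 ∑_g f' g * (6 * (N1 k' g + N2 k' g + N3 k' g) + 2 * N4 k' g)`. Finally the third edges of
`N1, .., N4` are `sg`-images of the second ones up to `kk2`:
`kk2 ((sg * un 26)⁻¹ * lo 26)`, `kk2 ((sg * un 39)⁻¹ * lo 39)`, `kk2 ((sg * xm)⁻¹ * Nb3)`,
`kk2 ((sg * km)⁻¹ * Nb4)` (all by `decide +kernel`). -/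
theorem form_tri1 {f' k' : G2 → ℝ} (hf' : Inv2 f') (hk' : Inv2 k') :
    ∑ g, (6 * (N1 f' g * N1 k' g + N2 f' g * N2 k' g + N3 f' g * N3 k' g) +
        2 * (N4 f' g * N4 k' g)) =
      3 * ∑ g, f' g * (20 * k' g + ((6 * (k' (g * un 26) + k' (g * xm) + k' (g * un 39)) +
        2 * k' (g * km)) + (6 * (k' (g * sg * un 26) + k' (g * sg * xm) + k' (g * sg * un 39)) +
        2 * k' (g * sg * km)))) := by
  have s1 : ∑ g, N1 f' g * N1 k' g = ∑ g, f' g * (N1 k' g + N2 k' g + N3 k' g) := by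
    have e : ∀ g, N1 f' g * N1 k' g = f' g * N1 k' g + f' (g * un 26) * N1 k' g +
        f' (g * lo 26) * N1 k' g := fun g => by
      unfold N1
      ring
    simp only [e, Finset.sum_add_distrib]
    rw [Tri1_term f' (N3 k') (N1 k') (un 26) (Tri1_R1 hk'),
      Tri1_term f' (N2 k') (N1 k') (lo 26) (Tri1_R2 hk')]
    simp only [← Finset.sum_add_distrib]
    exact Finset.sum_congr rfl fun g _ => by ring
  have s2 : ∑ g, N2 f' g * N2 k' g = ∑ g, f' g * (N1 k' g + N2 k' g + N3 k' g) := by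
    have e : ∀ g, N2 f' g * N2 k' g = f' g * N2 k' g + f' (g * xm) * N2 k' g +
        f' (g * lo 39) * N2 k' g := fun g => by
      unfold N2
      ring
    simp only [e, Finset.sum_add_distrib]
    rw [Tri1_term f' (N3 k') (N2 k') xm (Tri1_R3 hk'),
      Tri1_term f' (N1 k') (N2 k') (lo 39) (Tri1_R4 hk')]
    simp only [← Finset.sum_add_distrib]
    exact Finset.sum_congr rfl fun g _ => by ring
  have s3 : ∑ g, N3 f' g * N3 k' g = ∑ g, f' g * (N1 k' g + N2 k' g + N3 k' g) := by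
    have e : ∀ g, N3 f' g * N3 k' g = f' g * N3 k' g + f' (g * un 39) * N3 k' g +
        f' (g * Nb3) * N3 k' g := fun g => by
      unfold N3
      ring
    simp only [e, Finset.sum_add_distrib]
    rw [Tri1_term f' (N1 k') (N3 k') (un 39) (Tri1_R5 hk'),
      Tri1_term f' (N2 k') (N3 k') Nb3 (Tri1_R6 hk')]
    simp only [← Finset.sum_add_distrib]
    exact Finset.sum_congr rfl fun g _ => by ring
  have s4 : ∑ g, N4 f' g * N4 k' g = ∑ g, f' g * (3 * N4 k' g) := by
    have e : ∀ g, N4 f' g * N4 k' g = f' g * N4 k' g + f' (g * km) * N4 k' g +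
        f' (g * Nb4) * N4 k' g := fun g => by
      unfold N4
      ring
    simp only [e, Finset.sum_add_distrib]
    rw [Tri1_term f' (N4 k') (N4 k') km (Tri1_R7 hk'),
      Tri1_term f' (N4 k') (N4 k') Nb4 (Tri1_R8 hk')]
    simp only [← Finset.sum_add_distrib]
    exact Finset.sum_congr rfl fun g _ => by ring
  have e0 : ∀ g, 6 * (N1 f' g * N1 k' g + N2 f' g * N2 k' g + N3 f' g * N3 k' g) +
      2 * (N4 f' g * N4 k' g) = 6 * (N1 f' g * N1 k' g) + 6 * (N2 f' g * N2 k' g) +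
      6 * (N3 f' g * N3 k' g) + 2 * (N4 f' g * N4 k' g) := fun g => by ring
  simp only [e0, Finset.sum_add_distrib, ← Finset.mul_sum]
  rw [s1, s2, s3, s4]
  simp only [Finset.mul_sum, ← Finset.sum_add_distrib]
  refine Finset.sum_congr rfl fun g _ => ?_
  have t1 : k' (g * sg * un 26) = k' (g * lo 26) :=
    Tri1_mv hk' (by decide +kernel) g
  have t2 : k' (g * sg * un 39) = k' (g * lo 39) :=
    Tri1_mv hk' (by decide +kernel) g
  have t3 : k' (g * sg * xm) = k' (g * Nb3) :=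
    Tri1_mv hk' (by decide +kernel) g
  have t4 : k' (g * sg * km) = k' (g * Nb4) :=
    Tri1_mv hk' (by decide +kernel) g
  rw [t1, t2, t3, t4]
  unfold N1 N2 N3 N4
  ring

end Pool.Agent.Folk330
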